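import Mathlib
import Pool.Agent.Helper142.Lp.Defs

/-!
Chart polynomials, explicit chart coordinates, and the plane, for the variety of commuting
pairs.
-/

namespace Pool.Agent.Helper142.Lp

open MvPolynomial

/-- The chart polynomials attached to a complex frame `g` with inverse `h`. -/
noncomputable def Pp (g h : Matrix (Fin 3) (Fin 3) ℂ) : Fin 10 ⊕ Fin 10 → MvPolynomial (Fin 6) ℂ :=
  Sum.elim (fun j => TT (NA X) (NB X) ((h.map C).mulVec (vec j)))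
    (fun j => C (h.det ^ 2) * TT (NA X).transpose (NB X).transpose
      ((g.map C).transpose.mulVec (vec j)))

/-- `P` and `c` describe the chart `x_i ≠ 0`: in suitable coordinates `y` all the ratios
`x_a / x_i` are the values `P a (y)`, and `c` recovers `y` linearly from the ratios. -/
def ChartData (i : Fin 10 ⊕ Fin 10) (P : Fin 10 ⊕ Fin 10 → MvPolynomial (Fin 6) ℂ)
    (c : Fin 6 → Fin 10 ⊕ Fin 10 → ℂ) : Prop :=
  (∀ (K : Type) [Field K] [Algebra ℂ K] (A B : Matrix (Fin 3) (Fin 3) K), A * B = B * A →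
    tt A B i ≠ 0 → ∃ y : Fin 6 → K, ∀ a, tt A B a = tt A B i * aeval y (P a)) ∧
  (∀ (R : Type) [CommRing R] [Algebra ℂ R] (y : Fin 6 → R) (k : Fin 6),
    y k = ∑ a, algebraMap ℂ R (c k a) * aeval y (P a))

/-- The polynomial of the transition between two charts. -/
noncomputable def q0 : MvPolynomial (Fin 6) ℂ :=
  (X 2 * X 3 - X 1 * X 4) * X 3 - (X 1 * X 3 + X 4 ^ 2 - X 0 * X 4 - X 3 * X 5) * X 4

/-- Explicit coordinates on the chart `Sum.inr 1`. -/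
noncomputable def zlink : Fin 6 → KK :=
  ![- yy 0 + yy 1 ^ 2 / yy 2, - yy 1 / yy 2, 1 / yy 2,
    (yy 2 * yy 3 - yy 1 * yy 4)
      - yy 1 / yy 2 * (yy 1 ^ 2 + yy 4 * yy 2 - yy 0 * yy 2 - yy 1 * yy 5),
    - yy 0 + yy 1 ^ 2 / yy 2 + yy 4 - yy 1 / yy 2 * yy 5,
    - yy 1 / yy 2 + yy 5 / yy 2]

/-- The coordinates of the point of the plane with parameters `p = (α, β, γ)`. -/
def lam (p : Fin 3 → ℂ) : Fin 10 ⊕ Fin 10 → ℂ :=
  Sum.elim
    (fun j => vec j 2 * (- p 2 * vec j 0 ^ 2 + p 1 * vec j 0 * vec j 1 - p 0 * vec j 1 ^ 2))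
    (fun j => vec j 2 * (p 0 * vec j 0 ^ 2 + p 1 * vec j 0 * vec j 1 + p 2 * vec j 1 ^ 2))

/-- `lam` as a linear map. -/
def lamL : (Fin 3 → ℂ) →ₗ[ℂ] (Fin 10 ⊕ Fin 10 → ℂ) where
  toFun := lam
  map_add' := by
    intro p q
    funext a
    rcases a with j | j <;> simp [lam] <;> ring
  map_smul' := by
    intro r p
    funext a
    rcases a with j | j <;> simp [lam] <;> ring

/-- The infinitesimal motions of the plane. -/
def xi (e : Fin 4) (p : Fin 3 → ℂ) : Fin 10 ⊕ Fin 10 → ℂ :=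
  Sum.elim
    (fun j => ![- vec j 2 ^ 2 * (- 2 * p 2 * vec j 0 + p 1 * vec j 1),
      - vec j 2 ^ 2 * (p 1 * vec j 0 - 2 * p 0 * vec j 1),
      - vec j 0 * (- p 2 * vec j 0 ^ 2 + p 1 * vec j 0 * vec j 1 - p 0 * vec j 1 ^ 2),
      - vec j 1 * (- p 2 * vec j 0 ^ 2 + p 1 * vec j 0 * vec j 1 - p 0 * vec j 1 ^ 2)] e)
    (fun j => ![vec j 0 * (p 0 * vec j 0 ^ 2 + p 1 * vec j 0 * vec j 1 + p 2 * vec j 1 ^ 2),
      vec j 1 * (p 0 * vec j 0 ^ 2 + p 1 * vec j 0 * vec j 1 + p 2 * vec j 1 ^ 2),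
      vec j 2 ^ 2 * (2 * p 0 * vec j 0 + p 1 * vec j 1),
      vec j 2 ^ 2 * (p 1 * vec j 0 + 2 * p 2 * vec j 1)] e)

end Pool.Agent.Helper142.Lp
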