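import Mathlib
import Pool.Agent.Helper142.Lp.Defs2

/-! Helper lemma aeval_Pp_inl for MP_b7b3c1_ag. -/

set_option linter.all false

namespace Pool.Agent.Helper142.Lp.Aeval_Pp_inl

open MvPolynomial Pool.Agent.Helper142.Lp

theorem aP_TT_map {R S : Type} [CommRing R] [CommRing S] (f : S →+* R)
    (A B : Matrix (Fin 3) (Fin 3) S) (w : Fin 3 → S) :
    f (TT A B w) = TT (A.map f) (B.map f) (fun i => f (w i)) := by
  have hmul : ∀ (M : Matrix (Fin 3) (Fin 3) S) (k : Fin 3),
      f (M.mulVec w k) = (M.map f).mulVec (fun i => f (w i)) k := by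
    intro M k
    simp only [Matrix.mulVec, dotProduct, map_sum, map_mul, Matrix.map_apply]
  unfold TT
  rw [RingHom.map_det]
  congr 1
  ext i k
  fin_cases i
  · rfl
  · exact hmul A k
  · exact hmul B k

/-- TARGET: prove this. -/
theorem aeval_Pp_inl {R : Type} [CommRing R] [Algebra ℂ R] (g h : Matrix (Fin 3) (Fin 3) ℂ)
    (y : Fin 6 → R) (j : Fin 10) : aeval y (Pp g h (Sum.inl j)) =
      TT (NA y) (NB y) ((h.map (algebraMap ℂ R)).mulVec (vec j)) := by
  have h1 := aP_TT_map (aeval y : MvPolynomial (Fin 6) ℂ →ₐ[ℂ] R).toRingHom (NA X) (NB X)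
    ((h.map C).mulVec (vec j))
  have hX : ∀ k, (aeval y : MvPolynomial (Fin 6) ℂ →ₐ[ℂ] R).toRingHom (X k) = y k :=
    fun k => aeval_X y k
  have hA : (NA (X : Fin 6 → MvPolynomial (Fin 6) ℂ)).map
      (aeval y : MvPolynomial (Fin 6) ℂ →ₐ[ℂ] R).toRingHom = NA y := by
    ext a b
    fin_cases a <;> fin_cases b <;> simp [NA]
  have hB : (NB (X : Fin 6 → MvPolynomial (Fin 6) ℂ)).map
      (aeval y : MvPolynomial (Fin 6) ℂ →ₐ[ℂ] R).toRingHom = NB y := by
    ext a b
    fin_cases a <;> fin_cases b <;> simp [NB]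
  have hw : (fun i => (aeval y : MvPolynomial (Fin 6) ℂ →ₐ[ℂ] R).toRingHom
      ((h.map C).mulVec (vec j) i)) = (h.map (algebraMap ℂ R)).mulVec (vec j) := by
    funext a
    simp only [Matrix.mulVec, dotProduct, map_sum, map_mul, Matrix.map_apply, vec]
    refine Finset.sum_congr rfl (fun i _ => ?_)
    congr 1
    · exact aeval_C y (h a i)
    · exact map_intCast _ _
  rw [hA, hB, hw] at h1
  exact h1

end Pool.Agent.Helper142.Lp.Aeval_Pp_inl
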