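import Mathlib
import Pool.Agent.Helper142.Lp.Defs2

/-! Helper lemma aeval_Pp_inr for MP_b7b3c1_ag. -/

set_option linter.all false

namespace Pool.Agent.Helper142.Lp.Aeval_Pp_inr

open MvPolynomial Pool.Agent.Helper142.Lp

theorem TT_ringHom {R S : Type} [CommRing R] [CommRing S] (f : R →+* S)
    (A B : Matrix (Fin 3) (Fin 3) R) (w : Fin 3 → R) :
    f (TT A B w) = TT (A.map f) (B.map f) (f ∘ w) := by
  unfold TT
  simp only [Matrix.det_fin_three, Matrix.of_apply, Matrix.mulVec, dotProduct,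
    Fin.sum_univ_three, Matrix.map_apply, Function.comp, map_add, map_sub, map_mul,
    Matrix.cons_val_zero, Matrix.cons_val_one, Matrix.cons_val]

/-- TARGET: prove this. -/
theorem aeval_Pp_inr {R : Type} [CommRing R] [Algebra ℂ R] (g h : Matrix (Fin 3) (Fin 3) ℂ)
    (y : Fin 6 → R) (j : Fin 10) : aeval y (Pp g h (Sum.inr j)) =
      algebraMap ℂ R (h.det ^ 2) * TT (NA y).transpose (NB y).transpose
        ((g.map (algebraMap ℂ R)).transpose.mulVec (vec j)) := by
  have hNA : ((NA (X : Fin 6 → MvPolynomial (Fin 6) ℂ)).transpose).map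
      (aeval y : MvPolynomial (Fin 6) ℂ →ₐ[ℂ] R).toRingHom = (NA y).transpose := by
    ext a b
    fin_cases a <;> fin_cases b <;> simp [NA, Matrix.transpose]
  have hNB : ((NB (X : Fin 6 → MvPolynomial (Fin 6) ℂ)).transpose).map
      (aeval y : MvPolynomial (Fin 6) ℂ →ₐ[ℂ] R).toRingHom = (NB y).transpose := by
    ext a b
    fin_cases a <;> fin_cases b <;> simp [NB, Matrix.transpose]
  have hv : (aeval y : MvPolynomial (Fin 6) ℂ →ₐ[ℂ] R).toRingHom ∘
      ((g.map C).transpose.mulVec (vec j)) =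
      (g.map (algebraMap ℂ R)).transpose.mulVec (vec j) := by
    funext a
    simp [Matrix.mulVec, dotProduct, vec, Fin.sum_univ_three]
  have h1 := TT_ringHom (aeval y : MvPolynomial (Fin 6) ℂ →ₐ[ℂ] R).toRingHom
    (NA (X : Fin 6 → MvPolynomial (Fin 6) ℂ)).transpose (NB X).transpose
    ((g.map C).transpose.mulVec (vec j))
  rw [hNA, hNB, hv] at h1
  rw [← h1]
  simp only [Pp, Sum.elim_inr, map_mul]
  congr 1
  simp

end Pool.Agent.Helper142.Lp.Aeval_Pp_inr
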