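import Mathlib
import Pool.Agent.Helper142.Lp.Defs2

/-! Helper lemma trdeg_KK for MP_b7b3c1_ag. -/

set_option linter.all false

namespace Pool.Agent.Helper142.Lp.Trdeg_KK

open MvPolynomial Pool.Agent.Helper142.Lp

/-- TARGET: prove this. -/
theorem trdeg_KK : Algebra.trdeg ℂ KK = 6 := by
  have h1 := trdeg_add_eq ℂ (MvPolynomial (Fin 6) ℂ) (A := KK)
  haveI : Algebra.IsAlgebraic (MvPolynomial (Fin 6) ℂ) KK :=
    IsLocalization.isAlgebraic KK (nonZeroDivisors (MvPolynomial (Fin 6) ℂ))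
  have h2 : Algebra.trdeg (MvPolynomial (Fin 6) ℂ) KK = 0 := trdeg_eq_zero
  rw [h2, add_zero, MvPolynomial.trdeg_of_isDomain] at h1
  rw [← h1]
  simp

end Pool.Agent.Helper142.Lp.Trdeg_KK
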