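import Mathlib
import Pool.Agent.Helper142.Lp.Defs2
import Pool.Agent.Helper142.Lp.Trdeg_KK

/-! Helper lemma algInd_of_gen for MP_b7b3c1_ag. -/

set_option linter.all false

namespace Pool.Agent.Helper142.Lp.AlgInd_of_gen

open MvPolynomial Pool.Agent.Helper142.Lp
open Pool.Agent.Helper142.Lp.Trdeg_KK

/-- TARGET: prove this. -/
theorem algInd_of_gen (y : Fin 6 → KK) (hy : IntermediateField.adjoin ℂ (Set.range y) = ⊤) :
    AlgebraicIndependent ℂ y := by
  have halg : Algebra.IsAlgebraic (Algebra.adjoin ℂ (Set.range y)) KK := by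
    constructor
    intro z
    have hz : z ∈ IntermediateField.adjoin ℂ (Set.range y) := by rw [hy]; trivial
    rw [IntermediateField.mem_adjoin_iff_div] at hz
    obtain ⟨r, hr, s, hs, rfl⟩ := hz
    by_cases h0 : s = 0
    · subst h0
      rw [div_zero]
      exact isAlgebraic_zero
    · refine ⟨Polynomial.C (⟨s, hs⟩ : Algebra.adjoin ℂ (Set.range y)) * Polynomial.X
        - Polynomial.C (⟨r, hr⟩ : Algebra.adjoin ℂ (Set.range y)), ?_, ?_⟩
      · intro h
        have h1 := congrArg (fun p => Polynomial.coeff p 1) h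
        simp only [Polynomial.coeff_sub, Polynomial.coeff_C_mul, Polynomial.coeff_X_one, mul_one,
          Polynomial.coeff_C_succ, sub_zero, Polynomial.coeff_zero] at h1
        exact h0 (congrArg Subtype.val h1)
      · rw [map_sub, map_mul, Polynomial.aeval_C, Polynomial.aeval_X, Polynomial.aeval_C]
        show s * (r / s) - r = 0
        field_simp
        ring
  exact (Algebra.IsAlgebraic.isTranscendenceBasis_of_le_trdeg_of_finite ℂ y
    (by rw [trdeg_KK]; simp)).1

end Pool.Agent.Helper142.Lp.AlgInd_of_gen
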