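import Mathlib
import Pool.Agent.Helper142.Lp.Defs2

/-! Helper lemma D_aeval for MP_b7b3c1_ag. -/

set_option linter.all false

namespace Pool.Agent.Helper142.Lp.D_aeval

open MvPolynomial Pool.Agent.Helper142.Lp

/-- TARGET: prove this. -/
theorem D_aeval {K : Type} [Field K] [Algebra ℂ K] {n : ℕ} (y : Fin n → K)
    (q : MvPolynomial (Fin n) ℂ) : KaehlerDifferential.D ℂ K (aeval y q) =
      ∑ k, aeval y (pderiv k q) • KaehlerDifferential.D ℂ K (y k) := by
  classical
  induction q using MvPolynomial.induction_on with
  | C a =>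
    rw [aeval_C, Derivation.map_algebraMap]
    simp
  | add p q hp hq =>
    simp only [map_add, add_smul, Finset.sum_add_distrib, hp, hq]
  | mul_X p j hp =>
    rw [map_mul, aeval_X, Derivation.leibniz, hp]
    have h1 : ∀ k, aeval y (pderiv k (p * X j)) • KaehlerDifferential.D ℂ K (y k) =
        y j • (aeval y (pderiv k p) • KaehlerDifferential.D ℂ K (y k)) +
        (if k = j then aeval y p • KaehlerDifferential.D ℂ K (y j) else 0) := by
      intro k
      rw [pderiv_mul, map_add, map_mul, map_mul, aeval_X, add_smul, mul_comm _ (y j), mul_smul]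
      congr 1
      by_cases hk : k = j
      · subst hk
        rw [if_pos rfl, pderiv_X_self, map_one, mul_one]
      · rw [if_neg hk, pderiv_X_of_ne (Ne.symm hk), map_zero, mul_zero, zero_smul]
    simp only [h1]
    rw [Finset.sum_add_distrib, Finset.sum_ite_eq' Finset.univ j, if_pos (Finset.mem_univ j),
      Finset.smul_sum, add_comm]

end Pool.Agent.Helper142.Lp.D_aeval
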