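import Mathlib
import Pool.Agent.Helper142.Lp.Defs2

/-! Helper lemma iota_det for MP_b7b3c1_ag. -/

set_option linter.all false

namespace Pool.Agent.Helper142.Lp.Iota_det

open MvPolynomial Pool.Agent.Helper142.Lp

theorem iota_det_gen {K : Type} [Field K] {M N : Type} [AddCommGroup M] [Module K M]
    [AddCommGroup N] [Module K N] (n : ℕ) (f : M [⋀^Fin n]→ₗ[K] N)
    (w : Fin n → M) (a : Matrix (Fin n) (Fin n) K) :
    f (fun i => ∑ j, a i j • w j) = a.det • f w := by
  obtain ⟨A, hA⟩ : ∃ A : (Fin n → K) [⋀^Fin n]→ₗ[K] N,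
      ∀ v, A v = f (fun i => ∑ j, v i j • w j) :=
    ⟨f.compLinearMap (Fintype.linearCombination K w), fun v => rfl⟩
  obtain ⟨B, hB⟩ : ∃ B : (Fin n → K) [⋀^Fin n]→ₗ[K] N,
      ∀ v, B v = (Matrix.det v) • f w :=
    ⟨(LinearMap.toSpanSingleton K N (f w)).compAlternatingMap Matrix.detRowAlternating,
      fun v => rfl⟩
  have hAB : A = B := by
    refine Module.Basis.ext_alternating (Pi.basisFun K (Fin n)) fun v hv => ?_
    obtain ⟨σ, hσ⟩ : ∃ σ : Equiv.Perm (Fin n), ∀ i, σ i = v i :=
      ⟨Equiv.ofBijective v (Finite.injective_iff_bijective.1 hv), fun i => rfl⟩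
    have hv' : (fun i => (Pi.basisFun K (Fin n)) (v i)) = (Pi.basisFun K (Fin n)) ∘ σ := by
      funext i
      rw [Function.comp_apply, hσ]
    rw [hv', A.map_perm, B.map_perm, hA, hB]
    have h1 : (fun i => ∑ j, (Pi.basisFun K (Fin n)) i j • w j) = w := by
      funext i
      simp [Pi.single_apply]
    have h2 : Matrix.det (Pi.basisFun K (Fin n) : Fin n → Fin n → K) = 1 := by
      have h3 : (Pi.basisFun K (Fin n) : Fin n → Fin n → K) = (1 : Matrix (Fin n) (Fin n) K) := by
        funext i j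
        rw [Matrix.one_apply, Pi.basisFun_apply, Pi.single_apply]
        simp only [eq_comm]
      rw [h3]
      exact Matrix.det_one
    rw [h1, h2, one_smul]
  have h1 := hA a
  rw [hAB] at h1
  exact h1.symm.trans (hB a)

/-- TARGET: prove this. -/
theorem iota_det {K : Type} [Field K] {M : Type} [AddCommGroup M] [Module K M] (n : ℕ)
    (w : Fin n → M) (a : Matrix (Fin n) (Fin n) K) :
    exteriorPower.ιMulti K n (fun i => ∑ j, a i j • w j) =
      a.det • exteriorPower.ιMulti K n w :=
  iota_det_gen n _ w a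

end Pool.Agent.Helper142.Lp.Iota_det
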