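import Mathlib
import Pool.Agent.Helper142.Lp.Defs2
import Pool.Agent.Helper142.Lp.Iota_det
import Pool.Agent.Helper142.Lp.D_aeval

/-! Helper lemma canon_span for MP_b7b3c1_ag. -/

set_option linter.all false

namespace Pool.Agent.Helper142.Lp.Canon_span

open MvPolynomial Pool.Agent.Helper142.Lp
open Pool.Agent.Helper142.Lp.Iota_det Pool.Agent.Helper142.Lp.D_aeval

/-- TARGET: prove this. -/
theorem canon_span {K : Type} [Field K] [Algebra ℂ K] {n : ℕ} (y : Fin n → K)
    (S : Subalgebra ℂ K) (hS : S = Algebra.adjoin ℂ (Set.range y)) :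
    Submodule.span S (Set.range fun f : Fin n → S =>
      exteriorPower.ιMulti K n (fun a => KaehlerDifferential.D ℂ K (f a : K))) =
    Submodule.span S {exteriorPower.ιMulti K n (fun a => KaehlerDifferential.D ℂ K (y a))} := by
  subst hS
  apply le_antisymm
  · rw [Submodule.span_le]
    rintro _ ⟨f, rfl⟩
    have hq : ∀ a, ∃ q : MvPolynomial (Fin n) ℂ, aeval y q = (f a : K) := by
      intro a
      have key : ∀ z : K, z ∈ Algebra.adjoin ℂ (Set.range y) →
          ∃ q : MvPolynomial (Fin n) ℂ, aeval y q = z := by
        intro z hz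
        rw [Algebra.adjoin_range_eq_range_aeval] at hz
        exact hz
      exact key _ (f a).2
    choose q hq using hq
    have h1 : (fun a => KaehlerDifferential.D ℂ K (f a : K)) = fun a => ∑ k,
        (Matrix.of (fun a k => aeval y (pderiv k (q a)))) a k •
          KaehlerDifferential.D ℂ K (y k) := by
      funext a
      rw [← hq a, D_aeval]
      rfl
    show exteriorPower.ιMulti K n (fun a => KaehlerDifferential.D ℂ K (f a : K)) ∈ _
    rw [h1, iota_det]
    have h2 : (Matrix.of (fun a k => aeval y (pderiv k (q a)))).det =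
        aeval y (Matrix.of (fun a k => pderiv k (q a))).det := by
      rw [AlgHom.map_det]; rfl
    rw [h2]
    have h3 : aeval y (Matrix.of (fun a k => pderiv k (q a))).det ∈
        Algebra.adjoin ℂ (Set.range y) := by
      rw [Algebra.adjoin_range_eq_range_aeval]; exact ⟨_, rfl⟩
    have h4 := Submodule.smul_mem (Submodule.span (Algebra.adjoin ℂ (Set.range y))
      {exteriorPower.ιMulti K n (fun a => KaehlerDifferential.D ℂ K (y a))})
      (⟨_, h3⟩ : Algebra.adjoin ℂ (Set.range y)) (Submodule.mem_span_singleton_self _)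
    exact h4
  · rw [Submodule.span_le]
    rintro _ rfl
    apply Submodule.subset_span
    exact ⟨fun a => ⟨y a, Algebra.subset_adjoin ⟨a, rfl⟩⟩, rfl⟩

end Pool.Agent.Helper142.Lp.Canon_span
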