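import Mathlib
import Pool.Agent.Helper142.Lp.Defs2

/-! Helper lemma norm_form for MP_b7b3c1_ag. -/

set_option linter.all false

namespace Pool.Agent.Helper142.Lp.Norm_form

open MvPolynomial Pool.Agent.Helper142.Lp

/-- TARGET: prove this. -/
theorem norm_form {R : Type} [CommRing R] (A B : Matrix (Fin 3) (Fin 3) R) (hc : A * B = B * A)
    (hA : A.mulVec ![1, 0, 0] = ![0, 1, 0]) (hB : B.mulVec ![1, 0, 0] = ![0, 0, 1]) :
    A = NA ![A 1 1, A 1 2, B 1 2, A 2 1, A 2 2, B 2 2] ∧
    B = NB ![A 1 1, A 1 2, B 1 2, A 2 1, A 2 2, B 2 2] := by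
  have A00 : A 0 0 = 0 := by
    have h := congrFun hA 0
    simpa [Matrix.mulVec, dotProduct, Fin.sum_univ_three] using h
  have A10 : A 1 0 = 1 := by
    have h := congrFun hA 1
    simpa [Matrix.mulVec, dotProduct, Fin.sum_univ_three] using h
  have A20 : A 2 0 = 0 := by
    have h := congrFun hA 2
    simpa [Matrix.mulVec, dotProduct, Fin.sum_univ_three] using h
  have B00 : B 0 0 = 0 := by
    have h := congrFun hB 0
    simpa [Matrix.mulVec, dotProduct, Fin.sum_univ_three] using h
  have B10 : B 1 0 = 0 := by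
    have h := congrFun hB 1
    simpa [Matrix.mulVec, dotProduct, Fin.sum_univ_three] using h
  have B20 : B 2 0 = 1 := by
    have h := congrFun hB 2
    simpa [Matrix.mulVec, dotProduct, Fin.sum_univ_three] using h
  have h : ∀ i j, A i 0 * B 0 j + A i 1 * B 1 j + A i 2 * B 2 j =
      B i 0 * A 0 j + B i 1 * A 1 j + B i 2 * A 2 j := by
    intro i j
    have h := congrFun (congrFun hc i) j
    simpa only [Matrix.mul_apply, Fin.sum_univ_three] using h
  have e0 : ∀ i, A i 2 = B i 1 := by
    intro i
    have h0 := h i 0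
    rw [A00, A10, A20, B00, B10, B20] at h0
    linear_combination h0
  have h11 := h 1 1
  have h21 := h 2 1
  have h12 := h 1 2
  have e00 := e0 0
  have e01 := e0 1
  have e02 := e0 2
  rw [A10, B10, ← e00, ← e01, ← e02] at h11
  rw [A20, B20, ← e01, ← e02] at h21
  rw [A10, B10, ← e01] at h12
  have c1 : A 0 2 = B 1 2 * A 2 1 - A 1 2 * A 2 2 := by linear_combination h11
  have c0 : A 0 1 = A 1 2 * A 2 1 + A 2 2 ^ 2 - A 1 1 * A 2 2 - A 2 1 * B 2 2 := by
    linear_combination -h21
  have c2 : B 0 2 = A 1 2 ^ 2 + A 2 2 * B 1 2 - A 1 1 * B 1 2 - A 1 2 * B 2 2 := by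
    linear_combination h12
  constructor
  · ext i j
    fin_cases i <;> fin_cases j
    · simpa [NA] using A00
    · simpa [NA] using c0
    · simpa [NA] using c1
    · simpa [NA] using A10
    · simp [NA]
    · simp [NA]
    · simpa [NA] using A20
    · simp [NA]
    · simp [NA]
  · ext i j
    fin_cases i <;> fin_cases j
    · simpa [NB] using B00
    · simpa [NB] using e00.symm.trans c1
    · simpa [NB] using c2
    · simpa [NB] using B10
    · simpa [NB] using e01.symm
    · simp [NB]
    · simpa [NB] using B20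
    · simpa [NB] using e02.symm
    · simp [NB]

end Pool.Agent.Helper142.Lp.Norm_form
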