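import Mathlib
import Pool.Agent.Helper142.Lp.Defs2

/-! Helper lemma TT_comb for MP_b7b3c1_ag. -/

set_option linter.all false

namespace Pool.Agent.Helper142.Lp.TT_comb

open MvPolynomial Pool.Agent.Helper142.Lp

/-- TARGET: prove this. -/
theorem TT_comb {R : Type} [CommRing R] (A B : Matrix (Fin 3) (Fin 3) R) (x z w : Fin 3 → R) :
    TT (x 0 • (1 : Matrix (Fin 3) (Fin 3) R) + x 1 • A + x 2 • B)
      (z 0 • (1 : Matrix (Fin 3) (Fin 3) R) + z 1 • A + z 2 • B) w =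
      (x 1 * z 2 - x 2 * z 1) * TT A B w := by
  have h1 : ∀ v : Fin 3 → R, (v 0 • (1 : Matrix (Fin 3) (Fin 3) R) + v 1 • A + v 2 • B).mulVec w =
      v 0 • w + v 1 • A.mulVec w + v 2 • B.mulVec w := by
    intro v
    rw [Matrix.add_mulVec, Matrix.add_mulVec, Matrix.smul_mulVec, Matrix.smul_mulVec,
      Matrix.smul_mulVec, Matrix.one_mulVec]
  unfold TT
  rw [h1 x, h1 z]
  generalize A.mulVec w = a
  generalize B.mulVec w = b
  have hdet : ∀ r0 r1 r2 : Fin 3 → R, Matrix.det (Matrix.of ![r0, r1, r2]) =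
      r0 0 * r1 1 * r2 2 - r0 0 * r1 2 * r2 1 - r0 1 * r1 0 * r2 2 + r0 1 * r1 2 * r2 0 +
        r0 2 * r1 0 * r2 1 - r0 2 * r1 1 * r2 0 := fun r0 r1 r2 => Matrix.det_fin_three _
  rw [hdet, hdet]
  simp only [Pi.add_apply, Pi.smul_apply, smul_eq_mul]
  ring

end Pool.Agent.Helper142.Lp.TT_comb
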