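import Mathlib
import Pool.Agent.Helper142.Lp.Defs2

/-! Helper lemma TT_conj for MP_b7b3c1_ag. -/

set_option linter.all false

namespace Pool.Agent.Helper142.Lp.TT_conj

open MvPolynomial Pool.Agent.Helper142.Lp

/-- TARGET: prove this. -/
theorem TT_conj {R : Type} [CommRing R] (A B g h : Matrix (Fin 3) (Fin 3) R) (hgh : g * h = 1)
    (w : Fin 3 → R) : TT (h * A * g) (h * B * g) (h.mulVec w) = h.det * TT A B w := by
  have hA : ∀ A : Matrix (Fin 3) (Fin 3) R, (h * A * g).mulVec (h.mulVec w) =
      h.mulVec (A.mulVec w) := by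
    intro A
    rw [Matrix.mulVec_mulVec, Matrix.mul_assoc, Matrix.mul_assoc, hgh, Matrix.mul_one,
      Matrix.mulVec_mulVec]
  unfold TT
  rw [hA, hA]
  generalize A.mulVec w = a
  generalize B.mulVec w = b
  rw [Matrix.det_fin_three, Matrix.det_fin_three, Matrix.det_fin_three]
  simp [Matrix.mulVec, dotProduct, Fin.sum_univ_three]
  ring

end Pool.Agent.Helper142.Lp.TT_conj
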