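import Mathlib
import Pool.Agent.Helper142.Lp.Defs2
import Pool.Agent.Helper142.Lp.Norm_form
import Pool.Agent.Helper142.Lp.TT_comb
import Pool.Agent.Helper142.Lp.TT_conj

/-! Helper lemma frame for MP_b7b3c1_ag. -/

set_option linter.all false

namespace Pool.Agent.Helper142.Lp.Frame

open MvPolynomial Pool.Agent.Helper142.Lp
open Pool.Agent.Helper142.Lp.Norm_form Pool.Agent.Helper142.Lp.TT_comb Pool.Agent.Helper142.Lp.TT_conj

/-- TARGET: prove this. -/
theorem frame {K : Type} [Field K] (A B g h : Matrix (Fin 3) (Fin 3) K) (hc : A * B = B * A)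
    (hgh : g * h = 1) (h0 : TT A B (g.mulVec ![1, 0, 0]) ≠ 0) :
    ∃ y : Fin 6 → K,
      (∀ w : Fin 3 → K, TT A B w =
        TT A B (g.mulVec ![1, 0, 0]) * TT (NA y) (NB y) (h.mulVec w)) ∧
      (∀ w : Fin 3 → K, TT A.transpose B.transpose w =
        TT A B (g.mulVec ![1, 0, 0]) *
          (h.det ^ 2 * TT (NA y).transpose (NB y).transpose (g.transpose.mulVec w))) := by
  classical
  obtain ⟨v, hv⟩ : ∃ v, v = g.mulVec ![1, 0, 0] := ⟨_, rfl⟩
  rw [← hv] at h0 ⊢
  have hhg : h * g = 1 := mul_eq_one_comm.1 hgh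
  obtain ⟨M, hM⟩ : ∃ M : Matrix (Fin 3) (Fin 3) K, M = Matrix.of ![v, A.mulVec v, B.mulVec v] :=
    ⟨_, rfl⟩
  have hdet : IsUnit M.det := by
    rw [hM]
    exact isUnit_iff_ne_zero.2 h0
  have hsolve : ∀ u : Fin 3 → K, ∃ x : Fin 3 → K,
      (x 0 • (1 : Matrix (Fin 3) (Fin 3) K) + x 1 • A + x 2 • B).mulVec v = u := by
    intro u
    refine ⟨Matrix.vecMul u M⁻¹, ?_⟩
    have h1 : Matrix.vecMul (Matrix.vecMul u M⁻¹) M = u := by
      rw [Matrix.vecMul_vecMul, Matrix.nonsing_inv_mul M hdet, Matrix.vecMul_one]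
    have h2 : ∀ x : Fin 3 → K,
        (x 0 • (1 : Matrix (Fin 3) (Fin 3) K) + x 1 • A + x 2 • B).mulVec v = Matrix.vecMul x M := by
      intro x
      rw [Matrix.add_mulVec, Matrix.add_mulVec, Matrix.smul_mulVec, Matrix.smul_mulVec,
        Matrix.smul_mulVec, Matrix.one_mulVec]
      ext i
      simp [Matrix.vecMul, dotProduct, Fin.sum_univ_three, hM]
    rw [h2, h1]
  obtain ⟨x, hx⟩ := hsolve (g.mulVec ![0, 1, 0])
  obtain ⟨z, hz⟩ := hsolve (g.mulVec ![0, 0, 1])
  obtain ⟨A', hA'⟩ : ∃ A' : Matrix (Fin 3) (Fin 3) K,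
    A' = x 0 • (1 : Matrix (Fin 3) (Fin 3) K) + x 1 • A + x 2 • B := ⟨_, rfl⟩
  obtain ⟨B', hB'⟩ : ∃ B' : Matrix (Fin 3) (Fin 3) K,
    B' = z 0 • (1 : Matrix (Fin 3) (Fin 3) K) + z 1 • A + z 2 • B := ⟨_, rfl⟩
  rw [← hA'] at hx
  rw [← hB'] at hz
  obtain ⟨δ, hδ⟩ : ∃ δ : K, δ = x 1 * z 2 - x 2 * z 1 := ⟨_, rfl⟩
  have hAB : Commute A B := hc
  have hcomm : A' * B' = B' * A' := by
    have h1 : ∀ X : Matrix (Fin 3) (Fin 3) K, Commute X A → Commute X B → Commute X B' := by
      intro X hXA hXB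
      rw [hB']
      exact (((Commute.one_right X).smul_right _).add_right (hXA.smul_right _)).add_right
        (hXB.smul_right _)
    have h2 : Commute A' B' := by
      rw [hA']
      exact (((h1 1 (Commute.one_left _) (Commute.one_left _)).smul_left _).add_left
        ((h1 A (Commute.refl _) hAB).smul_left _)).add_left
        ((h1 B hAB.symm (Commute.refl _)).smul_left _)
    exact h2
  have hTT : ∀ w, TT A' B' w = δ * TT A B w := by
    intro w
    rw [hA', hB', TT_comb, hδ]
  have hTT' : ∀ w, TT A'.transpose B'.transpose w = δ * TT A.transpose B.transpose w := by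
    intro w
    rw [hA', hB']
    simp only [Matrix.transpose_add, Matrix.transpose_smul, Matrix.transpose_one]
    rw [TT_comb, hδ]
  have hAt1 : (h * A' * g).mulVec ![1, 0, 0] = ![0, 1, 0] := by
    rw [← Matrix.mulVec_mulVec, ← hv, ← Matrix.mulVec_mulVec, hx, Matrix.mulVec_mulVec, hhg,
      Matrix.one_mulVec]
  have hBt1 : (h * B' * g).mulVec ![1, 0, 0] = ![0, 0, 1] := by
    rw [← Matrix.mulVec_mulVec, ← hv, ← Matrix.mulVec_mulVec, hz, Matrix.mulVec_mulVec, hhg,
      Matrix.one_mulVec]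
  have hcomm2 : (h * A' * g) * (h * B' * g) = (h * B' * g) * (h * A' * g) := by
    have h1 : ∀ X Y : Matrix (Fin 3) (Fin 3) K, (h * X * g) * (h * Y * g) = h * (X * Y) * g := by
      intro X Y
      calc (h * X * g) * (h * Y * g) = h * X * (g * h) * Y * g := by
            simp only [Matrix.mul_assoc]
        _ = h * (X * Y) * g := by
            rw [hgh, Matrix.mul_one]
            simp only [Matrix.mul_assoc]
    rw [h1, h1, hcomm]
  obtain ⟨y, hN1, hN2⟩ : ∃ y : Fin 6 → K, h * A' * g = NA y ∧ h * B' * g = NB y :=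
    ⟨_, norm_form (h * A' * g) (h * B' * g) hcomm2 hAt1 hBt1⟩
  refine ⟨y, ?_⟩
  rw [← hN1, ← hN2]
  have hone : h.det * (δ * TT A B v) = 1 := by
    rw [← hTT, ← TT_conj A' B' g h hgh v]
    have h1 : h.mulVec v = ![1, 0, 0] := by
      rw [hv, Matrix.mulVec_mulVec, hhg, Matrix.one_mulVec]
    rw [h1]
    unfold TT
    rw [hAt1, hBt1]
    simp [Matrix.det_fin_three]
  have hghd : g.det * h.det = 1 := by
    rw [← Matrix.det_mul, hgh, Matrix.det_one]
  constructor
  · intro w
    rw [TT_conj A' B' g h hgh, hTT]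
    linear_combination (-TT A B w) * hone
  · intro w
    have h2 : h.transpose * g.transpose = 1 := by
      rw [← Matrix.transpose_mul, hgh, Matrix.transpose_one]
    have h3 : (h * A' * g).transpose = g.transpose * A'.transpose * h.transpose := by
      rw [Matrix.transpose_mul, Matrix.transpose_mul, Matrix.mul_assoc]
    have h4 : (h * B' * g).transpose = g.transpose * B'.transpose * h.transpose := by
      rw [Matrix.transpose_mul, Matrix.transpose_mul, Matrix.mul_assoc]
    rw [h3, h4, TT_conj A'.transpose B'.transpose h.transpose g.transpose h2, hTT',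
      Matrix.det_transpose]
    linear_combination (-TT A.transpose B.transpose w) * hone -
      (TT A B v * h.det * δ * TT A.transpose B.transpose w) * hghd

end Pool.Agent.Helper142.Lp.Frame
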