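import Mathlib
import Pool.Agent.Helper142.Lp.Defs2

/-! Helper lemma TT_interp for MP_b7b3c1_ag. -/

set_option linter.all false

namespace Pool.Agent.Helper142.Lp.TT_interp

open MvPolynomial Pool.Agent.Helper142.Lp

theorem TT_cubic {R : Type} [CommRing R] (A B : Matrix (Fin 3) (Fin 3) R) :
    ∃ c0 c1 c2 c3 c4 c5 c6 c7 c8 c9 : R, ∀ w : Fin 3 → R, TT A B w =
      c0 * w 0 ^ 3 + c1 * w 1 ^ 3 + c2 * w 2 ^ 3 + c3 * (w 0 ^ 2 * w 1) + c4 * (w 0 * w 1 ^ 2) +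
      c5 * (w 0 ^ 2 * w 2) + c6 * (w 0 * w 2 ^ 2) + c7 * (w 1 ^ 2 * w 2) + c8 * (w 1 * w 2 ^ 2) +
      c9 * (w 0 * w 1 * w 2) := by
  let P : Fin 3 → Fin 3 → Fin 3 → Fin 3 → R := fun i j k l => A i k * B j l - A j k * B i l
  refine ⟨P 1 2 0 0, - P 0 2 1 1, P 0 1 2 2, P 1 2 0 1 + P 1 2 1 0 - P 0 2 0 0,
    P 1 2 1 1 - P 0 2 0 1 - P 0 2 1 0, P 1 2 0 2 + P 1 2 2 0 + P 0 1 0 0,
    P 1 2 2 2 + P 0 1 0 2 + P 0 1 2 0, - P 0 2 1 2 - P 0 2 2 1 + P 0 1 1 1,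
    - P 0 2 2 2 + P 0 1 1 2 + P 0 1 2 1,
    P 1 2 1 2 + P 1 2 2 1 - P 0 2 0 2 - P 0 2 2 0 + P 0 1 0 1 + P 0 1 1 0, ?_⟩
  intro w
  have e : ∀ (M : Matrix (Fin 3) (Fin 3) R) (i : Fin 3),
      M.mulVec w i = M i 0 * w 0 + M i 1 * w 1 + M i 2 * w 2 := by
    intro M i
    simp [Matrix.mulVec, dotProduct, Fin.sum_univ_succ]
    ring
  have h : TT A B w = w 0 * (A.mulVec w 1 * B.mulVec w 2 - A.mulVec w 2 * B.mulVec w 1)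
      - w 1 * (A.mulVec w 0 * B.mulVec w 2 - A.mulVec w 2 * B.mulVec w 0)
      + w 2 * (A.mulVec w 0 * B.mulVec w 1 - A.mulVec w 1 * B.mulVec w 0) := by
    unfold TT
    rw [Matrix.det_fin_three]
    simp
    ring
  rw [h]
  simp only [e, P]
  ring

/-- TARGET: prove this. -/
theorem TT_interp (w : Fin 3 → ℂ) : ∃ l : Fin 10 → ℂ, ∀ (R : Type) [CommRing R] [Algebra ℂ R]
    (A B : Matrix (Fin 3) (Fin 3) R),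
    TT A B (fun a => algebraMap ℂ R (w a)) = ∑ j, algebraMap ℂ R (l j) * TT A B (vec j) := by
  refine ⟨![w 0 ^ 3 - w 0 * w 1 ^ 2 - w 0 * w 2 ^ 2 + w 0 * w 1 * w 2,
    w 1 ^ 3 - w 0 ^ 2 * w 1 - w 1 * w 2 ^ 2 + w 0 * w 1 * w 2,
    w 2 ^ 3 - w 0 ^ 2 * w 2 - w 1 ^ 2 * w 2 + w 0 * w 1 * w 2,
    (1 / 2) * (w 0 ^ 2 * w 1 + w 0 * w 1 ^ 2) - w 0 * w 1 * w 2,
    (1 / 2) * (w 0 * w 1 ^ 2 - w 0 ^ 2 * w 1),
    (1 / 2) * (w 0 ^ 2 * w 2 + w 0 * w 2 ^ 2) - w 0 * w 1 * w 2,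
    (1 / 2) * (w 0 * w 2 ^ 2 - w 0 ^ 2 * w 2),
    (1 / 2) * (w 1 ^ 2 * w 2 + w 1 * w 2 ^ 2) - w 0 * w 1 * w 2,
    (1 / 2) * (w 1 * w 2 ^ 2 - w 1 ^ 2 * w 2),
    w 0 * w 1 * w 2], ?_⟩
  intro R _ _ A B
  obtain ⟨c0, c1, c2, c3, c4, c5, c6, c7, c8, c9, hc⟩ := TT_cubic A B
  have hh : (2 : R) * algebraMap ℂ R (1 / 2) = 1 := by
    have h1 : algebraMap ℂ R 2 * algebraMap ℂ R (1 / 2) = 1 := by
      rw [← map_mul]; norm_num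
    rwa [map_ofNat] at h1
  have v : ∀ j a, (vec j a : R) = ((vecs j a : ℤ) : R) := fun _ _ => rfl
  rw [hc, Fin.sum_univ_succ, Fin.sum_univ_succ, Fin.sum_univ_succ, Fin.sum_univ_succ,
    Fin.sum_univ_succ, Fin.sum_univ_succ, Fin.sum_univ_succ, Fin.sum_univ_succ,
    Fin.sum_univ_succ, Fin.sum_univ_succ]
  simp only [hc, v]
  simp [vecs]
  rw [one_div] at hh
  generalize algebraMap ℂ R (w 0) = x at *
  generalize algebraMap ℂ R (w 1) = y at *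
  generalize algebraMap ℂ R (w 2) = z at *
  generalize algebraMap ℂ R 2⁻¹ = h at *
  linear_combination (-(x ^ 2 * y * (c1 + c3) + x * y ^ 2 * (c0 + c4) + x ^ 2 * z * (c2 + c5) +
    x * z ^ 2 * (c0 + c6) + y ^ 2 * z * (c2 + c7) + y * z ^ 2 * (c1 + c8))) * hh

end Pool.Agent.Helper142.Lp.TT_interp
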