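import Mathlib
import Pool.Agent.Helper142.Lp.Defs2

/-! Helper lemma y_lin for MP_b7b3c1_ag. -/

set_option linter.all false

namespace Pool.Agent.Helper142.Lp.Y_lin

open MvPolynomial Pool.Agent.Helper142.Lp

theorem y_lin_0 (R : Type) [CommRing R] (y : Fin 6 → R) :
    ∑ a, (((Sum.elim ![0, -4, 0, 2, -2, 0, 0, 0, 0, 0] ![0, 2, 0, 0, 0, 0, 0, -1, -1, 0] : Fin 10 ⊕ Fin 10 → ℤ) a : ℤ) : R) * tt (NA y) (NB y) a = 6 * y 0 := by
  rw [Fintype.sum_sum_type]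
  simp [Fin.sum_univ_succ, tt, TT, NA, NB, vec, vecs, Matrix.mulVec, dotProduct,
    Matrix.det_fin_three, Matrix.transpose_apply]
  try ring

theorem y_lin_1 (R : Type) [CommRing R] (y : Fin 6 → R) :
    ∑ a, (((Sum.elim ![0, 0, -2, 0, 0, 1, -1, 0, 0, 0] ![0, 0, -2, 0, 0, 0, 0, 1, -1, 0] : Fin 10 ⊕ Fin 10 → ℤ) a : ℤ) : R) * tt (NA y) (NB y) a = 6 * y 1 := by
  rw [Fintype.sum_sum_type]
  simp [Fin.sum_univ_succ, tt, TT, NA, NB, vec, vecs, Matrix.mulVec, dotProduct,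
    Matrix.det_fin_three, Matrix.transpose_apply]
  try ring

theorem y_lin_2 (R : Type) [CommRing R] (y : Fin 6 → R) :
    ∑ a, (((Sum.elim ![0, 0, 0, 0, 0, 0, 0, 0, 0, 0] ![0, -6, 0, 0, 0, 0, 0, 0, 0, 0] : Fin 10 ⊕ Fin 10 → ℤ) a : ℤ) : R) * tt (NA y) (NB y) a = 6 * y 2 := by
  rw [Fintype.sum_sum_type]
  simp [Fin.sum_univ_succ, tt, TT, NA, NB, vec, vecs, Matrix.mulVec, dotProduct,
    Matrix.det_fin_three, Matrix.transpose_apply]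
  try ring

theorem y_lin_3 (R : Type) [CommRing R] (y : Fin 6 → R) :
    ∑ a, (((Sum.elim ![0, 0, 0, 0, 0, 0, 0, 0, 0, 0] ![0, 0, -6, 0, 0, 0, 0, 0, 0, 0] : Fin 10 ⊕ Fin 10 → ℤ) a : ℤ) : R) * tt (NA y) (NB y) a = 6 * y 3 := by
  rw [Fintype.sum_sum_type]
  simp [Fin.sum_univ_succ, tt, TT, NA, NB, vec, vecs, Matrix.mulVec, dotProduct,
    Matrix.det_fin_three, Matrix.transpose_apply]
  try ring

theorem y_lin_4 (R : Type) [CommRing R] (y : Fin 6 → R) :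
    ∑ a, (((Sum.elim ![0, -2, 0, 1, -1, 0, 0, 0, 0, 0] ![0, -2, 0, 0, 0, 0, 0, 1, 1, 0] : Fin 10 ⊕ Fin 10 → ℤ) a : ℤ) : R) * tt (NA y) (NB y) a = 6 * y 4 := by
  rw [Fintype.sum_sum_type]
  simp [Fin.sum_univ_succ, tt, TT, NA, NB, vec, vecs, Matrix.mulVec, dotProduct,
    Matrix.det_fin_three, Matrix.transpose_apply]
  try ring

theorem y_lin_5 (R : Type) [CommRing R] (y : Fin 6 → R) :
    ∑ a, (((Sum.elim ![0, 0, -4, 0, 0, 2, -2, 0, 0, 0] ![0, 0, 2, 0, 0, 0, 0, -1, 1, 0] : Fin 10 ⊕ Fin 10 → ℤ) a : ℤ) : R) * tt (NA y) (NB y) a = 6 * y 5 := by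
  rw [Fintype.sum_sum_type]
  simp [Fin.sum_univ_succ, tt, TT, NA, NB, vec, vecs, Matrix.mulVec, dotProduct,
    Matrix.det_fin_three, Matrix.transpose_apply]
  try ring

theorem y_lin_fin (k : Fin 6) (n : Fin 10 ⊕ Fin 10 → ℤ)
    (h : ∀ (R : Type) [CommRing R] (y : Fin 6 → R),
      ∑ a, ((n a : ℤ) : R) * tt (NA y) (NB y) a = 6 * y k) :
    ∃ c : Fin 10 ⊕ Fin 10 → ℂ, ∀ (R : Type) [CommRing R] [Algebra ℂ R]
    (y : Fin 6 → R), y k = ∑ a, algebraMap ℂ R (c a) * tt (NA y) (NB y) a := by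
  refine ⟨fun a => (1 / 6) * (n a : ℂ), ?_⟩
  intro R _ _ y
  have h6 : algebraMap ℂ R (1 / 6) * 6 = 1 := by
    have : (6 : R) = algebraMap ℂ R 6 := (map_ofNat (algebraMap ℂ R) 6).symm
    rw [this, ← map_mul]
    norm_num
  simp only [map_mul, map_intCast, mul_assoc]
  rw [← Finset.mul_sum, h R y, ← mul_assoc, h6, one_mul]

/-- TARGET: prove this. -/
theorem y_lin (k : Fin 6) : ∃ c : Fin 10 ⊕ Fin 10 → ℂ, ∀ (R : Type) [CommRing R] [Algebra ℂ R]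
    (y : Fin 6 → R), y k = ∑ a, algebraMap ℂ R (c a) * tt (NA y) (NB y) a := by
  fin_cases k
  · exact y_lin_fin 0 _ (fun R _ y => y_lin_0 R y)
  · exact y_lin_fin 1 _ (fun R _ y => y_lin_1 R y)
  · exact y_lin_fin 2 _ (fun R _ y => y_lin_2 R y)
  · exact y_lin_fin 3 _ (fun R _ y => y_lin_3 R y)
  · exact y_lin_fin 4 _ (fun R _ y => y_lin_4 R y)
  · exact y_lin_fin 5 _ (fun R _ y => y_lin_5 R y)

end Pool.Agent.Helper142.Lp.Y_lin
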