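import Mathlib
import Pool.Agent.Helper142.Lp.Defs2
import Pool.Agent.Helper142.Lp.Frame
import Pool.Agent.Helper142.Lp.TT_interp
import Pool.Agent.Helper142.Lp.Y_lin
import Pool.Agent.Helper142.Lp.TT_conj
import Pool.Agent.Helper142.Lp.Aeval_Pp_inl
import Pool.Agent.Helper142.Lp.Aeval_Pp_inr

/-! Helper lemma chartData_inl for MP_b7b3c1_ag. -/

set_option linter.all false

namespace Pool.Agent.Helper142.Lp.ChartData_inl

open MvPolynomial Pool.Agent.Helper142.Lp
open Pool.Agent.Helper142.Lp.Frame Pool.Agent.Helper142.Lp.TT_interp Pool.Agent.Helper142.Lp.Y_lin Pool.Agent.Helper142.Lp.TT_conj Pool.Agent.Helper142.Lp.Aeval_Pp_inl Pool.Agent.Helper142.Lp.Aeval_Pp_inr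

theorem chartData_inl_vec (R : Type) [CommRing R] [Algebra ℂ R] (j : Fin 10) :
    (fun a => algebraMap ℂ R ((vec j : Fin 3 → ℂ) a)) = (vec j : Fin 3 → R) := by
  funext a
  simp [vec]

theorem chartData_inl_mulVec {R : Type} [CommRing R] [Algebra ℂ R]
    (p : Matrix (Fin 3) (Fin 3) ℂ) (v : Fin 3 → ℂ) :
    (p.map (algebraMap ℂ R)).mulVec (fun a => algebraMap ℂ R (v a)) =
      fun a => algebraMap ℂ R (p.mulVec v a) := by
  funext a
  simp [Matrix.mulVec, dotProduct, Matrix.map_apply]

theorem chartData_inl_mul {R : Type} [CommRing R] [Algebra ℂ R]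
    (p q : Matrix (Fin 3) (Fin 3) ℂ) (h : p * q = 1) :
    p.map (algebraMap ℂ R) * q.map (algebraMap ℂ R) = 1 := by
  rw [← Matrix.map_mul, h]
  exact Matrix.map_one _ (map_zero _) (map_one _)

theorem chartData_inl_interp (p q : Matrix (Fin 3) (Fin 3) ℂ) (hpq : p * q = 1)
    (v : Fin 3 → ℂ) : ∃ l : Fin 10 → ℂ, ∀ (R : Type) [CommRing R] [Algebra ℂ R]
    (A B : Matrix (Fin 3) (Fin 3) R),
    TT A B (fun a => algebraMap ℂ R (v a)) =
      ∑ j, algebraMap ℂ R (l j) * TT A B ((q.map (algebraMap ℂ R)).mulVec (vec j)) := by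
  obtain ⟨l, hl⟩ := TT_interp (p.mulVec v)
  refine ⟨l, fun R _ _ A B => ?_⟩
  have hpq' : p.map (algebraMap ℂ R) * q.map (algebraMap ℂ R) = 1 := chartData_inl_mul p q hpq
  have hqp' : q.map (algebraMap ℂ R) * p.map (algebraMap ℂ R) = 1 :=
    chartData_inl_mul q p (mul_eq_one_comm.mp hpq)
  have hconj : ∀ M : Matrix (Fin 3) (Fin 3) R, q.map (algebraMap ℂ R) *
      (p.map (algebraMap ℂ R) * M * q.map (algebraMap ℂ R)) * p.map (algebraMap ℂ R) = M := by
    intro M
    calc q.map (algebraMap ℂ R) *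
        (p.map (algebraMap ℂ R) * M * q.map (algebraMap ℂ R)) * p.map (algebraMap ℂ R)
        = (q.map (algebraMap ℂ R) * p.map (algebraMap ℂ R)) * M *
          (q.map (algebraMap ℂ R) * p.map (algebraMap ℂ R)) := by
          simp only [Matrix.mul_assoc]
      _ = M := by rw [hqp', Matrix.one_mul, Matrix.mul_one]
  have key : ∀ w : Fin 3 → R, TT A B ((q.map (algebraMap ℂ R)).mulVec w) =
      (q.map (algebraMap ℂ R)).det *
        TT (p.map (algebraMap ℂ R) * A * q.map (algebraMap ℂ R))
          (p.map (algebraMap ℂ R) * B * q.map (algebraMap ℂ R)) w := by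
    intro w
    have h1 := TT_conj (p.map (algebraMap ℂ R) * A * q.map (algebraMap ℂ R))
      (p.map (algebraMap ℂ R) * B * q.map (algebraMap ℂ R)) (p.map (algebraMap ℂ R))
      (q.map (algebraMap ℂ R)) hpq' w
    rw [hconj, hconj] at h1
    exact h1
  have hv : (fun a => algebraMap ℂ R (v a)) = (q.map (algebraMap ℂ R)).mulVec
      (fun a => algebraMap ℂ R (p.mulVec v a)) := by
    rw [← chartData_inl_mulVec, Matrix.mulVec_mulVec, hqp', Matrix.one_mulVec]
  rw [hv, key, hl R, Finset.mul_sum]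
  refine Finset.sum_congr rfl fun j _ => ?_
  rw [key]
  ring

/-- TARGET: prove this. -/
theorem chartData_inl (g h : Matrix (Fin 3) (Fin 3) ℂ) (hgh : g * h = 1) (i : Fin 10)
    (hi : g.mulVec ![1, 0, 0] = vec i) : ∃ c, ChartData (Sum.inl i) (Pp g h) c := by
  have hdet : h.det ≠ 0 := by
    intro h0
    have h1 := congrArg Matrix.det hgh
    rw [Matrix.det_mul, h0, mul_zero, Matrix.det_one] at h1
    exact zero_ne_one h1
  choose l hl using fun j : Fin 10 => chartData_inl_interp g h hgh (vec j)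
  have hgh' : h.transpose * g.transpose = 1 := by
    rw [← Matrix.transpose_mul, hgh, Matrix.transpose_one]
  choose l' hl' using fun j : Fin 10 =>
    chartData_inl_interp h.transpose g.transpose hgh' (vec j)
  choose c0 hc0 using y_lin
  refine ⟨fun k => Sum.elim (fun m => ∑ j, c0 k (Sum.inl j) * l j m)
    (fun m => ∑ j, c0 k (Sum.inr j) * l' j m * (h.det ^ 2)⁻¹), ?_, ?_⟩
  · intro K _ _ A B hc h0
    have hgK : (g.map (algebraMap ℂ K)).mulVec ![1, 0, 0] = vec i := by
      have h1 := chartData_inl_mulVec (R := K) g ![1, 0, 0]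
      rw [hi, chartData_inl_vec] at h1
      rw [← h1]
      congr 1
      funext a
      fin_cases a <;> simp
    have h0' : TT A B ((g.map (algebraMap ℂ K)).mulVec ![1, 0, 0]) ≠ 0 := by
      rw [hgK]; exact h0
    obtain ⟨y, hy1, hy2⟩ := frame A B (g.map (algebraMap ℂ K)) (h.map (algebraMap ℂ K)) hc
      (chartData_inl_mul g h hgh) h0'
    rw [hgK] at hy1 hy2
    refine ⟨y, ?_⟩
    rintro (j | j)
    · rw [aeval_Pp_inl]
      exact hy1 (vec j)
    · rw [aeval_Pp_inr, map_pow, RingHom.map_det]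
      exact hy2 (vec j)
  · intro R _ _ y k
    rw [hc0 k R y, Fintype.sum_sum_type, Fintype.sum_sum_type]
    simp only [Sum.elim_inl, Sum.elim_inr, aeval_Pp_inl, aeval_Pp_inr]
    congr 1
    · have e1 : ∀ j : Fin 10, tt (NA y) (NB y) (Sum.inl j) =
          ∑ m, algebraMap ℂ R (l j m) *
            TT (NA y) (NB y) ((h.map (algebraMap ℂ R)).mulVec (vec m)) := by
        intro j
        rw [← hl j R (NA y) (NB y), chartData_inl_vec]
        rfl
      simp only [e1, Finset.mul_sum, map_sum, Finset.sum_mul]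
      rw [Finset.sum_comm]
      refine Finset.sum_congr rfl fun m _ => Finset.sum_congr rfl fun j _ => ?_
      rw [map_mul]
      ring
    · have e1 : ∀ j : Fin 10, tt (NA y) (NB y) (Sum.inr j) =
          ∑ m, algebraMap ℂ R (l' j m) *
            TT (NA y).transpose (NB y).transpose
              ((g.map (algebraMap ℂ R)).transpose.mulVec (vec m)) := by
        intro j
        have h1 := hl' j R (NA y).transpose (NB y).transpose
        rw [chartData_inl_vec] at h1
        exact h1
      simp only [e1, Finset.mul_sum, map_sum, Finset.sum_mul]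
      rw [Finset.sum_comm]
      refine Finset.sum_congr rfl fun m _ => Finset.sum_congr rfl fun j _ => ?_
      have h2 : algebraMap ℂ R ((h.det ^ 2)⁻¹) * algebraMap ℂ R (h.det ^ 2) = 1 := by
        rw [← map_mul, inv_mul_cancel₀ (pow_ne_zero 2 hdet), map_one]
      rw [map_mul, map_mul]
      linear_combination (-(algebraMap ℂ R (c0 k (Sum.inr j)) * algebraMap ℂ R (l' j m) *
        TT (NA y).transpose (NB y).transpose
          ((g.map (algebraMap ℂ R)).transpose.mulVec (vec m)))) * h2

end Pool.Agent.Helper142.Lp.ChartData_inl
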