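import Mathlib
import Pool.Agent.Helper142.Lp.Defs2
import Pool.Agent.Helper142.Lp.ChartData_inl

/-! Helper lemma exists_link for MP_b7b3c1_ag. -/

set_option linter.all false

namespace Pool.Agent.Helper142.Lp.Exists_link

open MvPolynomial Pool.Agent.Helper142.Lp
open Pool.Agent.Helper142.Lp.ChartData_inl

theorem j19303_TT_map {R S : Type} [CommRing R] [CommRing S] (f : R →+* S)
    (A B : Matrix (Fin 3) (Fin 3) R) (w : Fin 3 → R) :
    f (TT A B w) = TT (A.map f) (B.map f) (fun a => f (w a)) := by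
  simp [TT, Matrix.det_fin_three, Matrix.mulVec, dotProduct, Fin.sum_univ_three]

theorem j19303_NA_map {R S : Type} [CommRing R] [CommRing S] (f : R →+* S) (y : Fin 6 → R) :
    (NA y).map f = NA (fun k => f (y k)) := by
  ext i j
  fin_cases i <;> fin_cases j <;> simp [NA]

theorem j19303_NB_map {R S : Type} [CommRing R] [CommRing S] (f : R →+* S) (y : Fin 6 → R) :
    (NB y).map f = NB (fun k => f (y k)) := by
  ext i j
  fin_cases i <;> fin_cases j <;> simp [NB]

theorem j19303_vec_map {R S : Type} [CommRing R] [CommRing S] (f : R →+* S) (j : Fin 10) :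
    (fun a => f ((vec j : Fin 3 → R) a)) = vec j := by
  funext a
  simp [vec]

theorem j19303_one : (1 : Matrix (Fin 3) (Fin 3) ℂ).map
    (C : ℂ → MvPolynomial (Fin 6) ℂ) = 1 :=
  Matrix.map_one _ C_0 C_1

theorem j19303_Pl (j : Fin 10) : Pp 1 1 (Sum.inl j) = TT (NA X) (NB X) (vec j) := by
  simp only [Pp, Sum.elim_inl]
  rw [j19303_one, Matrix.one_mulVec]

theorem j19303_Pr (j : Fin 10) :
    Pp 1 1 (Sum.inr j) = TT (NA X).transpose (NB X).transpose (vec j) := by
  simp only [Pp, Sum.elim_inr]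
  rw [j19303_one, Matrix.transpose_one, Matrix.one_mulVec, Matrix.det_one, one_pow, C_1, one_mul]

/-- TARGET: prove this. -/
theorem exists_link : ∃ P c, ChartData (Sum.inl 0) P c ∧ P (Sum.inr 1) = - X 2 ∧
    (∀ a, aeval yy (P a) = t0 a) := by
  obtain ⟨c, hc⟩ := chartData_inl 1 1 (one_mul 1) 0 (by
    ext a
    fin_cases a <;> simp [vec, vecs])
  refine ⟨Pp 1 1, c, hc, ?_, ?_⟩
  · rw [j19303_Pr]
    simp [TT, Matrix.det_fin_three, Matrix.mulVec, dotProduct, Fin.sum_univ_three, NA, NB, vec,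
      vecs]
  · intro a
    have hX : ∀ k, (aeval yy : MvPolynomial (Fin 6) ℂ →ₐ[ℂ] KK) (X k) = yy k := fun k =>
      aeval_X _ _
    have h1 := j19303_NA_map ((aeval yy : MvPolynomial (Fin 6) ℂ →ₐ[ℂ] KK) :
      MvPolynomial (Fin 6) ℂ →+* KK) X
    have h2 := j19303_NB_map ((aeval yy : MvPolynomial (Fin 6) ℂ →ₐ[ℂ] KK) :
      MvPolynomial (Fin 6) ℂ →+* KK) X
    have h3 : (fun k => ((aeval yy : MvPolynomial (Fin 6) ℂ →ₐ[ℂ] KK) :
      MvPolynomial (Fin 6) ℂ →+* KK) (X k)) = yy := funext hX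
    rw [h3] at h1 h2
    rcases a with j | j
    · rw [j19303_Pl]
      have h4 := j19303_TT_map ((aeval yy : MvPolynomial (Fin 6) ℂ →ₐ[ℂ] KK) :
        MvPolynomial (Fin 6) ℂ →+* KK) (NA X) (NB X) (vec j)
      rw [h1, h2, j19303_vec_map] at h4
      exact h4
    · rw [j19303_Pr]
      have h4 := j19303_TT_map ((aeval yy : MvPolynomial (Fin 6) ℂ →ₐ[ℂ] KK) :
        MvPolynomial (Fin 6) ℂ →+* KK) (NA X).transpose (NB X).transpose (vec j)
      rw [Matrix.transpose_map, Matrix.transpose_map, h1, h2, j19303_vec_map] at h4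
      exact h4

end Pool.Agent.Helper142.Lp.Exists_link
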