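import Mathlib
import Pool.Agent.Helper142.Lp.Defs2

/-! Helper lemma t0_vals for MP_b7b3c1_ag. -/

set_option linter.all false

namespace Pool.Agent.Helper142.Lp.T0_vals

open MvPolynomial Pool.Agent.Helper142.Lp

/-- TARGET: prove this. -/
theorem t0_vals : t0 (Sum.inl 0) = 1 ∧ t0 (Sum.inr 1) = - yy 2 := by
  constructor
  · simp [t0, tt, TT, NA, NB, vec, vecs, Matrix.det_fin_three, Matrix.mulVec, dotProduct,
      Fin.sum_univ_three]
  · simp [t0, tt, TT, NA, NB, vec, vecs, Matrix.det_fin_three, Matrix.mulVec, dotProduct,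
      Fin.sum_univ_three]

end Pool.Agent.Helper142.Lp.T0_vals
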