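import Mathlib
import Pool.Agent.Helper142.Lp.Defs2
import Pool.Agent.Helper142.Lp.T0_vals
import Pool.Agent.Helper142.Lp.Y_lin
import Pool.Agent.Helper142.Lp.Exists_link

/-! Helper lemma chart0 for MP_b7b3c1_ag. -/

set_option linter.all false

namespace Pool.Agent.Helper142.Lp.Chart0

open MvPolynomial Pool.Agent.Helper142.Lp
open Pool.Agent.Helper142.Lp.T0_vals Pool.Agent.Helper142.Lp.Y_lin Pool.Agent.Helper142.Lp.Exists_link

/-- TARGET: prove this. -/
theorem chart0 : chart t0 (Sum.inl 0) = Algebra.adjoin ℂ (Set.range yy) := by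
  have h0 : (fun j => t0 j / t0 (Sum.inl 0)) = t0 := by
    funext j
    rw [t0_vals.1, div_one]
  unfold chart
  rw [h0]
  apply le_antisymm
  · refine Algebra.adjoin_le ?_
    rintro _ ⟨a, rfl⟩
    obtain ⟨P, _, _, _, h⟩ := exists_link
    show t0 a ∈ Algebra.adjoin ℂ (Set.range yy)
    rw [Algebra.adjoin_range_eq_range_aeval]
    exact ⟨P a, h a⟩
  · refine Algebra.adjoin_le ?_
    rintro _ ⟨k, rfl⟩
    obtain ⟨c, hc⟩ := y_lin k
    show yy k ∈ Algebra.adjoin ℂ (Set.range t0)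
    rw [hc KK yy]
    refine sum_mem fun a _ => mul_mem (Subalgebra.algebraMap_mem _ _) ?_
    exact Algebra.subset_adjoin ⟨a, rfl⟩

end Pool.Agent.Helper142.Lp.Chart0
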