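import Mathlib
import Pool.Agent.Helper142.Lp.Defs2

/-! Helper lemma chartData_swap for MP_b7b3c1_ag. -/

set_option linter.all false

namespace Pool.Agent.Helper142.Lp.ChartData_swap

open MvPolynomial Pool.Agent.Helper142.Lp

theorem tt_swap {R : Type} [CommRing R] (A B : Matrix (Fin 3) (Fin 3) R) (a : Fin 10 ⊕ Fin 10) :
    tt A B a = tt A.transpose B.transpose a.swap := by
  rcases a with a | a
  · simp [tt]
  · simp [tt]

/-- TARGET: prove this. -/
theorem chartData_swap (i : Fin 10) (P : Fin 10 ⊕ Fin 10 → MvPolynomial (Fin 6) ℂ)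
    (c : Fin 6 → Fin 10 ⊕ Fin 10 → ℂ) (h : ChartData (Sum.inl i) P c) :
    ChartData (Sum.inr i) (fun a => P a.swap) (fun k a => c k a.swap) := by
  refine ⟨?_, ?_⟩
  · intro K _ _ A B hAB hne
    have hcomm : A.transpose * B.transpose = B.transpose * A.transpose := by
      rw [← Matrix.transpose_mul, ← Matrix.transpose_mul, hAB]
    rw [tt_swap] at hne
    obtain ⟨y, hy⟩ := h.1 K A.transpose B.transpose hcomm hne
    refine ⟨y, fun a => ?_⟩
    rw [tt_swap A B a, tt_swap A B (Sum.inr i)]
    exact hy a.swap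
  · intro R _ _ y k
    rw [h.2 R y k]
    exact (Equiv.sum_comp (Equiv.sumComm (Fin 10) (Fin 10))
      (fun a => algebraMap ℂ R (c k a) * aeval y (P a))).symm

end Pool.Agent.Helper142.Lp.ChartData_swap
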