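import Mathlib
import Pool.Agent.Helper142.Lp.Defs2

/-! Helper lemma NA_NB_comm for MP_b7b3c1_ag. -/

set_option linter.all false

namespace Pool.Agent.Helper142.Lp.NA_NB_comm

open MvPolynomial Pool.Agent.Helper142.Lp

/-- TARGET: prove this. -/
theorem NA_NB_comm {R : Type} [CommRing R] (y : Fin 6 → R) : NA y * NB y = NB y * NA y := by
  unfold NA NB
  ext i j
  fin_cases i <;> fin_cases j <;>
    simp [Matrix.mul_apply, Fin.sum_univ_three] <;> ring

end Pool.Agent.Helper142.Lp.NA_NB_comm
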