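import Mathlib
import Pool.Agent.Helper142.Lp.Defs2
import Pool.Agent.Helper142.Lp.T0_vals
import Pool.Agent.Helper142.Lp.Y_lin

/-! Helper lemma t0_gen for MP_b7b3c1_ag. -/

set_option linter.all false

namespace Pool.Agent.Helper142.Lp.T0_gen

open MvPolynomial Pool.Agent.Helper142.Lp
open Pool.Agent.Helper142.Lp.T0_vals Pool.Agent.Helper142.Lp.Y_lin

/-- TARGET: prove this. -/
theorem t0_gen : IntermediateField.adjoin ℂ
    (Set.range fun p : (Fin 10 ⊕ Fin 10) × (Fin 10 ⊕ Fin 10) => t0 p.1 / t0 p.2) = ⊤ := by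
  have ht : ∀ a, t0 a ∈ IntermediateField.adjoin ℂ
      (Set.range fun p : (Fin 10 ⊕ Fin 10) × (Fin 10 ⊕ Fin 10) => t0 p.1 / t0 p.2) := by
    intro a
    apply IntermediateField.subset_adjoin
    exact ⟨(a, Sum.inl 0), by simp only [t0_vals.1, div_one]⟩
  have hy : ∀ k, yy k ∈ IntermediateField.adjoin ℂ
      (Set.range fun p : (Fin 10 ⊕ Fin 10) × (Fin 10 ⊕ Fin 10) => t0 p.1 / t0 p.2) := by
    intro k
    obtain ⟨c, hc⟩ := y_lin k
    rw [hc KK yy]
    refine sum_mem fun a _ => mul_mem ?_ (ht a)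
    exact IntermediateField.algebraMap_mem _ _
  have hp : ∀ p : MvPolynomial (Fin 6) ℂ, algebraMap (MvPolynomial (Fin 6) ℂ) KK p ∈
      IntermediateField.adjoin ℂ
      (Set.range fun p : (Fin 10 ⊕ Fin 10) × (Fin 10 ⊕ Fin 10) => t0 p.1 / t0 p.2) := by
    intro p
    induction p using MvPolynomial.induction_on with
    | C a =>
      have : algebraMap (MvPolynomial (Fin 6) ℂ) KK (C a) = algebraMap ℂ KK a := by
        rw [IsScalarTower.algebraMap_apply ℂ (MvPolynomial (Fin 6) ℂ) KK]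
        rfl
      rw [this]
      exact IntermediateField.algebraMap_mem _ _
    | add p q hp hq =>
      rw [map_add]
      exact add_mem hp hq
    | mul_X p n hp =>
      rw [map_mul]
      exact mul_mem hp (hy n)
  rw [eq_top_iff]
  intro z _
  obtain ⟨p, q, hq, rfl⟩ := IsFractionRing.div_surjective (A := MvPolynomial (Fin 6) ℂ) z
  exact div_mem (hp p) (hp q)

end Pool.Agent.Helper142.Lp.T0_gen
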