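import Mathlib
import Pool.Agent.Helper142.Lp.Defs2

/-! Helper lemma t0_ne for MP_b7b3c1_ag. -/

set_option linter.all false

namespace Pool.Agent.Helper142.Lp.T0_ne

open MvPolynomial Pool.Agent.Helper142.Lp

theorem t0_ne_map {R S : Type} [CommRing R] [CommRing S] (f : R →+* S) (y : Fin 6 → R)
    (a : Fin 10 ⊕ Fin 10) :
    f (tt (NA y) (NB y) a) = tt (NA (fun i => f (y i))) (NB (fun i => f (y i))) a := by
  rcases a with j | j
  · simp only [tt, TT, Sum.elim_inl, Matrix.det_fin_three, NA, NB, vec, Matrix.mulVec, dotProduct,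
      Fin.sum_univ_three, Matrix.of_apply, Matrix.cons_val_zero, Matrix.cons_val_one,
      Matrix.cons_val, Matrix.cons_val', Matrix.transpose_apply,
      map_sub, map_add, map_mul, map_pow, map_intCast, map_zero, map_one]
  · simp only [tt, TT, Sum.elim_inr, Matrix.det_fin_three, NA, NB, vec, Matrix.mulVec, dotProduct,
      Fin.sum_univ_three, Matrix.of_apply, Matrix.cons_val_zero, Matrix.cons_val_one,
      Matrix.cons_val, Matrix.cons_val', Matrix.transpose_apply,
      map_sub, map_add, map_mul, map_pow, map_intCast, map_zero, map_one]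

theorem t0_ne_int (a : Fin 10 ⊕ Fin 10) :
    tt (NA (![-1, 0, -1, -1, 0, 0] : Fin 6 → ℤ)) (NB (![-1, 0, -1, -1, 0, 0] : Fin 6 → ℤ)) a ≠ 0 := by
  rcases a with j | j
  · simp only [tt, TT, Sum.elim_inl, Matrix.det_fin_three]
    revert j
    decide
  · simp only [tt, TT, Sum.elim_inr, Matrix.det_fin_three]
    revert j
    decide

/-- TARGET: prove this. -/
theorem t0_ne (a : Fin 10 ⊕ Fin 10) : t0 a ≠ 0 := by
  have h1 : t0 a = algebraMap (MvPolynomial (Fin 6) ℂ) KK (tt (NA X) (NB X) a) := by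
    rw [t0_ne_map (algebraMap (MvPolynomial (Fin 6) ℂ) KK) X a]
    rfl
  have h2 : (tt (NA X) (NB X) a : MvPolynomial (Fin 6) ℂ) ≠ 0 := by
    intro h
    have h3 := t0_ne_map (MvPolynomial.eval (fun i => (((![-1, 0, -1, -1, 0, 0] : Fin 6 → ℤ) i : ℤ) : ℂ)))
      X a
    rw [h, map_zero] at h3
    have h4 := t0_ne_map (Int.castRingHom ℂ) (![-1, 0, -1, -1, 0, 0] : Fin 6 → ℤ) a
    have h5 : (fun i : Fin 6 => MvPolynomial.eval
        (fun i => (((![-1, 0, -1, -1, 0, 0] : Fin 6 → ℤ) i : ℤ) : ℂ)) (X i)) =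
        fun i => (Int.castRingHom ℂ) ((![-1, 0, -1, -1, 0, 0] : Fin 6 → ℤ) i) := by
      funext i
      rw [MvPolynomial.eval_X]
      rfl
    rw [h5, ← h4] at h3
    have h6 : ((tt (NA (![-1, 0, -1, -1, 0, 0] : Fin 6 → ℤ))
        (NB (![-1, 0, -1, -1, 0, 0] : Fin 6 → ℤ)) a : ℤ) : ℂ) = 0 := h3.symm
    exact t0_ne_int a (by exact_mod_cast h6)
  rw [h1]
  intro h
  exact h2 ((IsFractionRing.injective (MvPolynomial (Fin 6) ℂ) KK) (by rw [h, map_zero]))

end Pool.Agent.Helper142.Lp.T0_ne
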