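import Mathlib
import Pool.Agent.Helper142.Lp.Defs2
import Pool.Agent.Helper142.Lp.T0_ne
import Pool.Agent.Helper142.Lp.T0_gen
import Pool.Agent.Helper142.Lp.AlgInd_of_gen
import Pool.Agent.Helper142.Lp.NA_NB_comm

/-! Helper lemma chart_eq for MP_b7b3c1_ag. -/

set_option linter.all false

namespace Pool.Agent.Helper142.Lp.Chart_eq

open MvPolynomial Pool.Agent.Helper142.Lp
open Pool.Agent.Helper142.Lp.T0_ne Pool.Agent.Helper142.Lp.T0_gen Pool.Agent.Helper142.Lp.AlgInd_of_gen Pool.Agent.Helper142.Lp.NA_NB_comm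

/-- TARGET: prove this. -/
theorem chart_eq (i : Fin 10 ⊕ Fin 10) (P : Fin 10 ⊕ Fin 10 → MvPolynomial (Fin 6) ℂ)
    (c : Fin 6 → Fin 10 ⊕ Fin 10 → ℂ) (h : ChartData i P c) :
    ∃ y : Fin 6 → KK, AlgebraicIndependent ℂ y ∧ (∀ a, t0 a / t0 i = aeval y (P a)) ∧
      chart t0 i = Algebra.adjoin ℂ (Set.range y) ∧
      IntermediateField.adjoin ℂ (Set.range y) = ⊤ := by
  obtain ⟨h1, h2⟩ := h
  obtain ⟨y, hy⟩ := h1 KK (NA yy) (NB yy) (NA_NB_comm yy) (t0_ne i)
  have hr : ∀ a, t0 a / t0 i = aeval y (P a) := by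
    intro a
    have h3 : t0 a = t0 i * aeval y (P a) := hy a
    rw [h3, mul_div_cancel_left₀ _ (t0_ne i)]
  have hc : chart t0 i = Algebra.adjoin ℂ (Set.range y) := by
    unfold chart
    apply le_antisymm
    · rw [Algebra.adjoin_le_iff]
      rintro _ ⟨a, rfl⟩
      show t0 a / t0 i ∈ Algebra.adjoin ℂ (Set.range y)
      rw [hr a, Algebra.adjoin_range_eq_range_aeval]
      exact ⟨P a, rfl⟩
    · rw [Algebra.adjoin_le_iff]
      rintro _ ⟨k, rfl⟩
      show y k ∈ Algebra.adjoin ℂ (Set.range fun j => t0 j / t0 i)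
      rw [h2 KK y k]
      refine Subalgebra.sum_mem _ fun a _ => Subalgebra.mul_mem _ (Subalgebra.algebraMap_mem _ _) ?_
      rw [← hr a]
      exact Algebra.subset_adjoin ⟨a, rfl⟩
  have hm : ∀ a, t0 a / t0 i ∈ IntermediateField.adjoin ℂ (Set.range y) := by
    intro a
    have h3 : t0 a / t0 i ∈ Algebra.adjoin ℂ (Set.range y) := by
      rw [← hc]
      exact Algebra.subset_adjoin ⟨a, rfl⟩
    exact IntermediateField.algebra_adjoin_le_adjoin ℂ _ h3
  have ht : IntermediateField.adjoin ℂ (Set.range y) = ⊤ := by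
    rw [← top_le_iff, ← t0_gen, IntermediateField.adjoin_le_iff]
    rintro _ ⟨p, rfl⟩
    show t0 p.1 / t0 p.2 ∈ IntermediateField.adjoin ℂ (Set.range y)
    have h4 : t0 p.1 / t0 p.2 = (t0 p.1 / t0 i) / (t0 p.2 / t0 i) := by
      rw [div_div_div_cancel_right₀ (t0_ne i)]
    rw [h4]
    exact div_mem (hm _) (hm _)
  exact ⟨y, algInd_of_gen y ht, hr, hc, ht⟩

end Pool.Agent.Helper142.Lp.Chart_eq
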