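import Mathlib
import Pool.Agent.Helper142.Lp.Defs2
import Pool.Agent.Helper142.Lp.ChartData_inl

/-! Helper lemma exists_pair for MP_b7b3c1_ag. -/

set_option linter.all false

namespace Pool.Agent.Helper142.Lp.Exists_pair

open MvPolynomial Pool.Agent.Helper142.Lp
open Pool.Agent.Helper142.Lp.ChartData_inl

theorem cross_ne : ∀ i j : Fin 10, i ≠ j →
    (vecs i 1 * vecs j 2 - vecs i 2 * vecs j 1 ≠ 0) ∨
    (vecs i 2 * vecs j 0 - vecs i 0 * vecs j 2 ≠ 0) ∨
    (vecs i 0 * vecs j 1 - vecs i 1 * vecs j 0 ≠ 0) := by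
  decide

theorem exists_g (i j : Fin 10) (hij : i ≠ j) : ∃ g : Matrix (Fin 3) (Fin 3) ℂ,
    g.det ≠ 0 ∧ g.mulVec ![1, 0, 0] = vec i ∧ g.mulVec ![0, 1, 0] = vec j := by
  rcases cross_ne i j hij with h | h | h
  · refine ⟨!![vec i 0, vec j 0, 1; vec i 1, vec j 1, 0; vec i 2, vec j 2, 0], ?_, ?_, ?_⟩
    · rw [Matrix.det_fin_three]
      intro h'
      apply h
      have : ((vecs i 1 * vecs j 2 - vecs i 2 * vecs j 1 : ℤ) : ℂ) = 0 := by
        push_cast
        simp [vec] at h'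
        linear_combination h'
      exact_mod_cast this
    · funext a; fin_cases a <;> simp [Matrix.mulVec, dotProduct, Fin.sum_univ_three]
    · funext a; fin_cases a <;> simp [Matrix.mulVec, dotProduct, Fin.sum_univ_three]
  · refine ⟨!![vec i 0, vec j 0, 0; vec i 1, vec j 1, 1; vec i 2, vec j 2, 0], ?_, ?_, ?_⟩
    · rw [Matrix.det_fin_three]
      intro h'
      apply h
      have : ((vecs i 2 * vecs j 0 - vecs i 0 * vecs j 2 : ℤ) : ℂ) = 0 := by
        push_cast
        simp [vec] at h'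
        linear_combination h'
      exact_mod_cast this
    · funext a; fin_cases a <;> simp [Matrix.mulVec, dotProduct, Fin.sum_univ_three]
    · funext a; fin_cases a <;> simp [Matrix.mulVec, dotProduct, Fin.sum_univ_three]
  · refine ⟨!![vec i 0, vec j 0, 0; vec i 1, vec j 1, 0; vec i 2, vec j 2, 1], ?_, ?_, ?_⟩
    · rw [Matrix.det_fin_three]
      intro h'
      apply h
      have : ((vecs i 0 * vecs j 1 - vecs i 1 * vecs j 0 : ℤ) : ℂ) = 0 := by
        push_cast
        simp [vec] at h'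
        linear_combination h'
      exact_mod_cast this
    · funext a; fin_cases a <;> simp [Matrix.mulVec, dotProduct, Fin.sum_univ_three]
    · funext a; fin_cases a <;> simp [Matrix.mulVec, dotProduct, Fin.sum_univ_three]

theorem TT_e2 : TT (NA (X : Fin 6 → MvPolynomial (Fin 6) ℂ)) (NB X) ![0, 1, 0] = q0 := by
  unfold TT NA NB q0
  rw [Matrix.det_fin_three]
  simp [Matrix.mulVec, dotProduct, Fin.sum_univ_three]
  ring

theorem exists_pair (i j : Fin 10) (hij : i ≠ j) :
    ∃ P c, ChartData (Sum.inl i) P c ∧ P (Sum.inl j) = q0 := by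
  obtain ⟨g, hd, h1, h2⟩ := exists_g i j hij
  have hu : IsUnit g.det := isUnit_iff_ne_zero.mpr hd
  have hgh : g * g⁻¹ = 1 := Matrix.mul_nonsing_inv g hu
  have hhg : g⁻¹ * g = 1 := Matrix.nonsing_inv_mul g hu
  obtain ⟨c, hc⟩ := chartData_inl g g⁻¹ hgh i h1
  refine ⟨Pp g g⁻¹, c, hc, ?_⟩
  have h3 : g⁻¹.mulVec (vec j) = ![0, 1, 0] := by
    rw [← h2, Matrix.mulVec_mulVec, hhg, Matrix.one_mulVec]
  have h4 : (g⁻¹.map (C : ℂ →+* MvPolynomial (Fin 6) ℂ)).mulVec (vec j) = ![0, 1, 0] := by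
    have h5 : ∀ a, (g⁻¹.map (C : ℂ →+* MvPolynomial (Fin 6) ℂ)).mulVec (vec j) a
        = C ((g⁻¹.mulVec (vec j)) a) := by
      intro a
      simp only [Matrix.mulVec, dotProduct, map_sum, map_mul, Matrix.map_apply]
      refine Finset.sum_congr rfl fun b _ => ?_
      simp [vec]
    funext a
    rw [h5, h3]
    fin_cases a <;> simp
  show TT (NA X) (NB X) ((g⁻¹.map C).mulVec (vec j)) = q0
  rw [h4, TT_e2]

end Pool.Agent.Helper142.Lp.Exists_pair
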