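import Mathlib
import Pool.Agent.Helper142.Lp.Defs2
import Pool.Agent.Helper142.Lp.Exists_pair
import Pool.Agent.Helper142.Lp.ChartData_swap

/-! Helper lemma chart_exists for MP_b7b3c1_ag. -/

set_option linter.all false

namespace Pool.Agent.Helper142.Lp.Chart_exists

open MvPolynomial Pool.Agent.Helper142.Lp
open Pool.Agent.Helper142.Lp.Exists_pair Pool.Agent.Helper142.Lp.ChartData_swap

/-- TARGET: prove this. -/
theorem chart_exists (i : Fin 10 ⊕ Fin 10) : ∃ P c, ChartData i P c := by
  have key : ∀ i : Fin 10, ∃ P c, ChartData (Sum.inl i) P c := by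
    intro i
    obtain ⟨j, hj⟩ := exists_ne i
    obtain ⟨P, c, h, -⟩ := exists_pair i j hj.symm
    exact ⟨P, c, h⟩
  cases i with
  | inl i => exact key i
  | inr i =>
    obtain ⟨P, c, h⟩ := key i
    exact ⟨_, _, chartData_swap i P c h⟩

end Pool.Agent.Helper142.Lp.Chart_exists
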