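import Mathlib
import Pool.Agent.Helper142.Lp.Defs2

/-! Helper lemma der_exists for MP_b7b3c1_ag. -/

set_option linter.all false

namespace Pool.Agent.Helper142.Lp.Der_exists

open MvPolynomial Pool.Agent.Helper142.Lp

/-- TARGET: prove this. -/
theorem der_exists : ∃ D : Fin 6 → Derivation ℂ KK KK,
    ∀ k j, D k (yy j) = if k = j then 1 else 0 := by
  have het : Algebra.FormallyEtale (MvPolynomial (Fin 6) ℂ) KK :=
    Algebra.FormallyEtale.of_isLocalization (nonZeroDivisors (MvPolynomial (Fin 6) ℂ))
  have hb := KaehlerDifferential.isBaseChange_of_formallyEtale ℂ (MvPolynomial (Fin 6) ℂ) KK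
  refine ⟨fun k => (hb.lift (mkDerivation ℂ
    (fun j => if k = j then (1 : KK) else 0)).liftKaehlerDifferential).compDer
      (KaehlerDifferential.D ℂ KK), fun k j => ?_⟩
  show hb.lift (mkDerivation ℂ
    (fun j => if k = j then (1 : KK) else 0)).liftKaehlerDifferential
      (KaehlerDifferential.D ℂ KK (algebraMap (MvPolynomial (Fin 6) ℂ) KK (X j))) = _
  rw [← KaehlerDifferential.map_D ℂ ℂ (MvPolynomial (Fin 6) ℂ) KK, hb.lift_eq,
    Derivation.liftKaehlerDifferential_comp_D, mkDerivation_X]

end Pool.Agent.Helper142.Lp.Der_exists
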