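import Mathlib
import Pool.Agent.Helper142.Lp.Defs2

/-! Helper lemma det_form for MP_b7b3c1_ag. -/

set_option linter.all false

namespace Pool.Agent.Helper142.Lp.Det_form

open MvPolynomial Pool.Agent.Helper142.Lp

/-- TARGET: prove this. -/
theorem det_form {K : Type} [Field K] [Algebra ℂ K] {n : ℕ} (D : Fin n → Derivation ℂ K K) :
    ∃ φ : (⋀[K]^n (Ω[K⁄ℂ])) →ₗ[K] K, ∀ f : Fin n → K,
      φ (exteriorPower.ιMulti K n (fun a => KaehlerDifferential.D ℂ K (f a))) =
        Matrix.det (Matrix.of fun k a => D k (f a)) := by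
  let L : Ω[K⁄ℂ] →ₗ[K] (Fin n → K) := LinearMap.pi fun k => (D k).liftKaehlerDifferential
  refine ⟨exteriorPower.alternatingMapLinearEquiv
    ((Matrix.detRowAlternating (n := Fin n) (R := K)).compLinearMap L), fun f => ?_⟩
  rw [exteriorPower.alternatingMapLinearEquiv_apply_ιMulti, AlternatingMap.compLinearMap_apply]
  change Matrix.det (Matrix.of fun i => L (KaehlerDifferential.D ℂ K (f i))) = _
  rw [← Matrix.det_transpose]
  congr 1
  ext k a
  simp only [Matrix.transpose_apply, Matrix.of_apply, L, LinearMap.pi_apply,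
    Derivation.liftKaehlerDifferential_comp_D]

end Pool.Agent.Helper142.Lp.Det_form
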