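import Mathlib
import Pool.Agent.Helper142.Lp.Defs2

/-! Helper lemma overlap_eq for MP_b7b3c1_ag. -/

set_option linter.all false

namespace Pool.Agent.Helper142.Lp.Overlap_eq

open MvPolynomial Pool.Agent.Helper142.Lp

/-- TARGET: prove this. -/
theorem overlap_eq {ι K : Type} [Field K] [Algebra ℂ K] (t : ι → K) (ht : ∀ i, t i ≠ 0)
    (i j : ι) : chart t i ⊔ chart t j =
      Algebra.adjoin ℂ ((chart t i : Set K) ∪ {(t j / t i)⁻¹}) := by
  apply le_antisymm
  · apply sup_le
    · intro x hx
      exact Algebra.subset_adjoin (Or.inl hx)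
    · apply Algebra.adjoin_le
      rintro _ ⟨l, rfl⟩
      have h1 : t l / t j = (t l / t i) * (t j / t i)⁻¹ := by
        have hi := ht i
        have hj := ht j
        field_simp
      show t l / t j ∈ _
      rw [h1]
      exact mul_mem (Algebra.subset_adjoin (Or.inl (Algebra.subset_adjoin ⟨l, rfl⟩)))
        (Algebra.subset_adjoin (Or.inr rfl))
  · apply Algebra.adjoin_le
    rintro x (hx | hx)
    · exact (le_sup_left : chart t i ≤ chart t i ⊔ chart t j) hx
    · rw [Set.mem_singleton_iff] at hx
      rw [hx, inv_div]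
      exact (le_sup_right : chart t j ≤ chart t i ⊔ chart t j)
        (Algebra.subset_adjoin ⟨i, rfl⟩)

end Pool.Agent.Helper142.Lp.Overlap_eq
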