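import Mathlib
import Pool.Agent.Helper142.Lp.Defs2

/-! Helper lemma unit_form for MP_b7b3c1_ag. -/

set_option linter.all false

namespace Pool.Agent.Helper142.Lp.Unit_form

open MvPolynomial Pool.Agent.Helper142.Lp

theorem unit_form_aux {K : Type} [Field K] [Algebra ℂ K] (y : Fin 6 → K)
    (q : MvPolynomial (Fin 6) ℂ) (hf : aeval y q ≠ 0) (u : K)
    (h1 : u ∈ Algebra.adjoin ℂ (Set.range y ∪ {(aeval y q)⁻¹})) :
    ∃ (a : MvPolynomial (Fin 6) ℂ) (n : ℕ), u * (aeval y q) ^ n = aeval y a := by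
  refine Algebra.adjoin_induction (p := fun u _ => ∃ (a : MvPolynomial (Fin 6) ℂ) (n : ℕ),
    u * (aeval y q) ^ n = aeval y a) ?_ ?_ ?_ ?_ h1
  · rintro x (⟨i, rfl⟩ | hx)
    · exact ⟨X i, 0, by simp⟩
    · rw [Set.mem_singleton_iff] at hx
      refine ⟨1, 1, ?_⟩
      rw [hx, pow_one, inv_mul_cancel₀ hf, map_one]
  · intro r
    exact ⟨C r, 0, by simp⟩
  · rintro x z _ _ ⟨a, n, ha⟩ ⟨b, m, hb⟩
    refine ⟨a * q ^ m + b * q ^ n, n + m, ?_⟩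
    rw [map_add, map_mul, map_mul, map_pow, map_pow, ← ha, ← hb]
    ring
  · rintro x z _ _ ⟨a, n, ha⟩ ⟨b, m, hb⟩
    refine ⟨a * b, n + m, ?_⟩
    rw [map_mul, ← ha, ← hb]
    ring

/-- TARGET: prove this. -/
theorem unit_form {K : Type} [Field K] [Algebra ℂ K] (y : Fin 6 → K)
    (hy : AlgebraicIndependent ℂ y) (q : MvPolynomial (Fin 6) ℂ) (hq : Irreducible q)
    (u : K) (hu : u ≠ 0)
    (h1 : u ∈ Algebra.adjoin ℂ (Set.range y ∪ {(aeval y q)⁻¹}))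
    (h2 : u⁻¹ ∈ Algebra.adjoin ℂ (Set.range y ∪ {(aeval y q)⁻¹})) :
    ∃ (c : ℂ) (k : ℤ), c ≠ 0 ∧ u = algebraMap ℂ K c * (aeval y q) ^ k := by
  have hinj : Function.Injective (aeval y : MvPolynomial (Fin 6) ℂ →ₐ[ℂ] K) := hy
  have hf : aeval y q ≠ 0 := by
    intro h
    apply hq.ne_zero
    apply hinj
    rw [h, map_zero]
  obtain ⟨a, n, ha⟩ := unit_form_aux y q hf u h1
  obtain ⟨b, m, hb⟩ := unit_form_aux y q hf u⁻¹ h2
  have hab : a * b = q ^ (n + m) := by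
    apply hinj
    rw [map_mul, map_pow, ← ha, ← hb, pow_add]
    field_simp
  have hdvd : a ∣ q ^ (n + m) := ⟨b, hab.symm⟩
  obtain ⟨k0, -, hk⟩ := (dvd_prime_pow hq.prime _).1 hdvd
  obtain ⟨v, hv⟩ := hk.symm
  -- hv : q ^ k0 * v = a
  obtain ⟨c, hc, hvc⟩ := MvPolynomial.isUnit_iff_eq_C_of_isReduced.1 v.isUnit
  refine ⟨c, (k0 : ℤ) - n, hc.ne_zero, ?_⟩
  have h3 : u * (aeval y q) ^ n = (aeval y q) ^ k0 * algebraMap ℂ K c := by
    rw [ha, ← hv, hvc, map_mul, map_pow]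
    congr 1
    simp
  rw [zpow_sub₀ hf, zpow_natCast, zpow_natCast, ← mul_div_assoc, eq_div_iff (pow_ne_zero n hf), h3,
    mul_comm]

end Pool.Agent.Helper142.Lp.Unit_form
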