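import Mathlib
import Pool.Agent.Helper142.Lp.Defs2
import Pool.Agent.Helper142.Lp.Chart_eq
import Pool.Agent.Helper142.Lp.T0_ne
import Pool.Agent.Helper142.Lp.Overlap_eq
import Pool.Agent.Helper142.Lp.Unit_form

/-! Helper lemma edge for MP_b7b3c1_ag. -/

set_option linter.all false

namespace Pool.Agent.Helper142.Lp.Edge

open MvPolynomial Pool.Agent.Helper142.Lp
open Pool.Agent.Helper142.Lp.Chart_eq Pool.Agent.Helper142.Lp.T0_ne Pool.Agent.Helper142.Lp.Overlap_eq Pool.Agent.Helper142.Lp.Unit_form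

/-- TARGET: prove this. -/
theorem edge (i j : Fin 10 ⊕ Fin 10) (P : Fin 10 ⊕ Fin 10 → MvPolynomial (Fin 6) ℂ)
    (c : Fin 6 → Fin 10 ⊕ Fin 10 → ℂ) (h : ChartData i P c) (hq : Irreducible (P j))
    (u : KK) (hu : u ≠ 0) (h1 : u ∈ chart t0 i ⊔ chart t0 j)
    (h2 : u⁻¹ ∈ chart t0 i ⊔ chart t0 j) :
    ∃ (b : ℂ) (k : ℤ), b ≠ 0 ∧ u = algebraMap ℂ KK b * (t0 j / t0 i) ^ k := by
  obtain ⟨y, hy, hP, hch, -⟩ := chart_eq i P c h
  have e : chart t0 i ⊔ chart t0 j = Algebra.adjoin ℂ (Set.range y ∪ {(aeval y (P j))⁻¹}) := by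
    rw [overlap_eq t0 t0_ne i j, hch, Algebra.adjoin_union, Algebra.adjoin_eq,
      Algebra.adjoin_union, hP j]
  rw [e] at h1 h2
  obtain ⟨b, k, hb, hk⟩ := unit_form y hy (P j) hq u hu h1 h2
  exact ⟨b, k, hb, by rw [hP j]; exact hk⟩

end Pool.Agent.Helper142.Lp.Edge
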