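import Mathlib
import Pool.Agent.Helper142.Lp.Defs2

/-! Helper lemma homog_scale for MP_b7b3c1_ag. -/

set_option linter.all false

namespace Pool.Agent.Helper142.Lp.Homog_scale

open MvPolynomial Pool.Agent.Helper142.Lp

/-- TARGET: prove this. -/
theorem homog_scale {ι : Type} (F : MvPolynomial ι ℂ) (d : ℕ) (hF : F.IsHomogeneous d)
    (S : Type) [CommRing S] [Algebra ℂ S] (s : S) (z : ι → S) :
    aeval (fun j => s * z j) F = s ^ d * aeval z F := by
  classical
  rw [MvPolynomial.aeval_def, MvPolynomial.aeval_def, MvPolynomial.eval₂_eq, MvPolynomial.eval₂_eq,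
    Finset.mul_sum]
  refine Finset.sum_congr rfl fun m hm => ?_
  have hd : ∑ j ∈ m.support, m j = d := by
    have h1 : m.degree = d := by
      by_contra hne
      exact (MvPolynomial.mem_support_iff.1 hm) (hF.coeff_eq_zero hne)
    rw [← h1]; rfl
  have : ∏ j ∈ m.support, (s * z j) ^ m j = s ^ d * ∏ j ∈ m.support, z j ^ m j := by
    simp only [mul_pow]
    rw [Finset.prod_mul_distrib, Finset.prod_pow_eq_pow_sum, hd]
  rw [this]
  ring

end Pool.Agent.Helper142.Lp.Homog_scale
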