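import Mathlib
import Pool.Agent.Helper142.Lp.Defs2

/-! Helper lemma homogenize for MP_b7b3c1_ag. -/

set_option linter.all false

namespace Pool.Agent.Helper142.Lp.Homogenize

open MvPolynomial Pool.Agent.Helper142.Lp

/-- TARGET: prove this. -/
theorem homogenize {ι : Type} (G : MvPolynomial ι ℂ) (i : ι) :
    ∃ (d : ℕ) (F : MvPolynomial ι ℂ), F.IsHomogeneous d ∧
      ∀ (S : Type) [CommRing S] [Algebra ℂ S] (s : S) (z : ι → S), z i = 1 →
        aeval (fun j => s * z j) F = s ^ d * aeval z G := by
  classical
  have hdeg : ∀ m ∈ G.support, m.degree ≤ G.totalDegree := fun m hm => MvPolynomial.le_totalDegree hm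
  refine ⟨G.totalDegree, ∑ m ∈ G.support,
    monomial (m + Finsupp.single i (G.totalDegree - m.degree)) (coeff m G), ?_, ?_⟩
  · apply MvPolynomial.IsHomogeneous.sum
    intro m hm
    apply MvPolynomial.isHomogeneous_monomial
    rw [map_add, Finsupp.degree_single]
    have := hdeg m hm
    omega
  · intro S _ _ s z hz
    have hG : aeval z G = ∑ m ∈ G.support, aeval z (monomial m (coeff m G)) := by
      conv_lhs => rw [G.as_sum]
      rw [map_sum]
    rw [hG, map_sum, Finset.mul_sum]
    apply Finset.sum_congr rfl
    intro m hm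
    have h0 : ((Finsupp.single i (G.totalDegree - m.degree)).prod fun j e => (s * z j) ^ e) =
        (s * z i) ^ (G.totalDegree - m.degree) := Finsupp.prod_single_index (pow_zero _)
    rw [aeval_monomial, aeval_monomial, Finsupp.prod_add_index' (fun _ => pow_zero _)
      (fun _ _ _ => pow_add _ _ _), h0, hz, mul_one]
    have h1 : (m.prod fun j e => (s * z j) ^ e) = s ^ m.degree * m.prod fun j e => z j ^ e := by
      simp only [mul_pow]
      rw [Finsupp.prod_mul]
      congr 1
      rw [Finsupp.prod, Finset.prod_pow_eq_pow_sum]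
      rfl
    have h2 : s ^ m.degree * s ^ (G.totalDegree - m.degree) = s ^ G.totalDegree := by
      rw [← pow_add]
      congr 1
      have := hdeg m hm
      omega
    rw [h1, ← h2]
    ring

end Pool.Agent.Helper142.Lp.Homogenize
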