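import Mathlib
import Pool.Agent.Helper142.Lp.Defs2
import Pool.Agent.Helper142.Lp.Homogenize
import Pool.Agent.Helper142.Lp.Homog_scale

/-! Helper lemma evalHom for MP_b7b3c1_ag. -/

set_option linter.all false

namespace Pool.Agent.Helper142.Lp.EvalHom

open MvPolynomial Pool.Agent.Helper142.Lp
open Pool.Agent.Helper142.Lp.Homogenize Pool.Agent.Helper142.Lp.Homog_scale

/-- TARGET: prove this. -/
theorem evalHom {ι K : Type} [Field K] [Algebra ℂ K] (t : ι → K) (i : ι) (hi : t i ≠ 0)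
    (x : ι → ℂ) (hx : x ∈ cone t) (hxi : x i ≠ 0) :
    ∃ ψ : chart t i →ₐ[ℂ] ℂ, ∀ (j : ι) (hj : t j / t i ∈ chart t i),
      ψ ⟨t j / t i, hj⟩ = x j / x i := by
  classical
  set φ : MvPolynomial ι ℂ →ₐ[ℂ] K := aeval (fun j => t j / t i) with hφ
  set e : MvPolynomial ι ℂ →ₐ[ℂ] ℂ := aeval (fun j => x j / x i) with he
  have hrange : chart t i = φ.range := Algebra.adjoin_range_eq_range_aeval ℂ _
  have hmem : ∀ G, φ G ∈ chart t i := by
    intro G
    rw [hrange]
    exact ⟨G, rfl⟩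
  let φ' : MvPolynomial ι ℂ →ₐ[ℂ] chart t i := φ.codRestrict (chart t i) hmem
  have hsurj : Function.Surjective φ' := by
    rintro ⟨a, ha⟩
    have ha' : a ∈ φ.range := hrange ▸ ha
    obtain ⟨G, hG⟩ := ha'
    exact ⟨G, Subtype.ext hG⟩
  have hker : ∀ G : MvPolynomial ι ℂ, φ' G = 0 → e G = 0 := by
    intro G hG
    have hG' : φ G = 0 := by
      have := congrArg Subtype.val hG
      exact this
    obtain ⟨d, F, hF, hom⟩ := homogenize G i
    have h1 := hom K (t i) (fun j => t j / t i) (div_self hi)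
    have e1 : (fun j => t i * (t j / t i)) = t := by
      funext j
      field_simp
    rw [e1] at h1
    have h2 : aeval t F = 0 := by
      rw [h1]
      show t i ^ d * φ G = 0
      rw [hG', mul_zero]
    have h3 : eval x F = 0 := hx F ⟨⟨d, hF⟩, h2⟩
    have h4 := hom ℂ (x i) (fun j => x j / x i) (div_self hxi)
    have e2 : (fun j => x i * (x j / x i)) = x := by
      funext j
      field_simp
    rw [e2] at h4
    have h5 : aeval x F = eval x F := by
      rw [MvPolynomial.aeval_eq_eval]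
    rw [h5, h3] at h4
    have h6 : x i ^ d ≠ 0 := pow_ne_zero _ hxi
    exact (mul_eq_zero.1 h4.symm).resolve_left h6
  have hle : ∀ a : MvPolynomial ι ℂ, a ∈ RingHom.ker φ' → e a = 0 := fun a ha => hker a ha
  let q := Ideal.quotientKerAlgEquivOfSurjective hsurj
  let ψ : chart t i →ₐ[ℂ] ℂ := (Ideal.Quotient.liftₐ (RingHom.ker φ') e hle).comp q.symm.toAlgHom
  have hψ : ∀ G, ψ (φ' G) = e G := by
    intro G
    have h1 : q.symm (φ' G) = Ideal.Quotient.mk (RingHom.ker φ') G := by
      rw [AlgEquiv.symm_apply_eq]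
      rfl
    show (Ideal.Quotient.liftₐ (RingHom.ker φ') e hle) (q.symm (φ' G)) = e G
    rw [h1]
    rfl
  refine ⟨ψ, ?_⟩
  intro j hj
  have h1 : (⟨t j / t i, hj⟩ : chart t i) = φ' (X j) := by
    apply Subtype.ext
    show t j / t i = φ (X j)
    rw [hφ, aeval_X]
  rw [h1, hψ, he, aeval_X]

end Pool.Agent.Helper142.Lp.EvalHom
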