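import Mathlib
import Pool.Agent.Helper142.Lp.Defs2
import Pool.Agent.Helper142.Lp.T0_ne
import Pool.Agent.Helper142.Lp.Overlap_eq
import Pool.Agent.Helper142.Lp.EvalHom

/-! Helper lemma node for MP_b7b3c1_ag. -/

set_option linter.all false

namespace Pool.Agent.Helper142.Lp.Node

open MvPolynomial Pool.Agent.Helper142.Lp
open Pool.Agent.Helper142.Lp.T0_ne Pool.Agent.Helper142.Lp.Overlap_eq Pool.Agent.Helper142.Lp.EvalHom

theorem aux_loc {K : Type} [Field K] [Algebra ℂ K] (S : Subalgebra ℂ K) (e : K) (he : e ≠ 0)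
    (heS : e ∈ S) (v : K) (hv : v ∈ Algebra.adjoin ℂ ((S : Set K) ∪ {e⁻¹})) :
    ∃ N : ℕ, v * e ^ N ∈ S := by
  induction hv using Algebra.adjoin_induction with
  | mem x hx =>
    rcases hx with hx | hx
    · exact ⟨0, by simpa using hx⟩
    · rw [Set.mem_singleton_iff] at hx
      subst hx
      exact ⟨1, by rw [pow_one, inv_mul_cancel₀ he]; exact S.one_mem⟩
  | algebraMap r => exact ⟨0, by simpa using S.algebraMap_mem r⟩
  | add x y _ _ hx hy =>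
    obtain ⟨N, hN⟩ := hx
    obtain ⟨M, hM⟩ := hy
    refine ⟨N + M, ?_⟩
    have : (x + y) * e ^ (N + M) = (x * e ^ N) * e ^ M + (y * e ^ M) * e ^ N := by ring
    rw [this]
    exact S.add_mem (S.mul_mem hN (S.pow_mem heS M)) (S.mul_mem hM (S.pow_mem heS N))
  | mul x y _ _ hx hy =>
    obtain ⟨N, hN⟩ := hx
    obtain ⟨M, hM⟩ := hy
    refine ⟨N + M, ?_⟩
    have : (x * y) * e ^ (N + M) = (x * e ^ N) * (y * e ^ M) := by ring
    rw [this]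
    exact S.mul_mem hN hM

/-- TARGET: prove this. -/
theorem node (h i l : Fin 10 ⊕ Fin 10) (x : Fin 10 ⊕ Fin 10 → ℂ) (hx : x ∈ cone t0)
    (h0 : x h = 0) (hi : x i ≠ 0) (hl : x l ≠ 0) (m : ℤ)
    (h1 : (t0 h / t0 i) ^ m ∈ chart t0 i ⊔ chart t0 l)
    (h2 : ((t0 h / t0 i) ^ m)⁻¹ ∈ chart t0 i ⊔ chart t0 l) : m = 0 := by
  by_contra hm
  have hf0 : t0 h / t0 i ≠ 0 := div_ne_zero (t0_ne h) (t0_ne i)
  have he0 : t0 l / t0 i ≠ 0 := div_ne_zero (t0_ne l) (t0_ne i)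
  have hfS : t0 h / t0 i ∈ chart t0 i := Algebra.subset_adjoin ⟨h, rfl⟩
  have heS : t0 l / t0 i ∈ chart t0 i := Algebra.subset_adjoin ⟨l, rfl⟩
  obtain ⟨n, hn, hv⟩ : ∃ n : ℕ, n ≠ 0 ∧ ((t0 h / t0 i) ^ n)⁻¹ ∈ chart t0 i ⊔ chart t0 l := by
    rcases lt_or_gt_of_ne hm with hneg | hpos
    · refine ⟨m.natAbs, by omega, ?_⟩
      have : m = -(m.natAbs : ℤ) := by omega
      rw [this, zpow_neg, zpow_natCast] at h1
      exact h1
    · refine ⟨m.natAbs, by omega, ?_⟩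
      have : m = (m.natAbs : ℤ) := by omega
      rw [this, zpow_natCast] at h2
      exact h2
  rw [overlap_eq t0 t0_ne i l] at hv
  obtain ⟨N, hN⟩ := aux_loc (chart t0 i) (t0 l / t0 i) he0 heS _ hv
  obtain ⟨ψ, hψ⟩ := evalHom t0 i (t0_ne i) x hx hi
  have hkey : (⟨t0 h / t0 i, hfS⟩ : chart t0 i) ^ n *
      ⟨((t0 h / t0 i) ^ n)⁻¹ * (t0 l / t0 i) ^ N, hN⟩ = (⟨t0 l / t0 i, heS⟩ : chart t0 i) ^ N := by
    apply Subtype.ext
    show (t0 h / t0 i) ^ n * (((t0 h / t0 i) ^ n)⁻¹ * (t0 l / t0 i) ^ N) = (t0 l / t0 i) ^ N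
    rw [← mul_assoc, mul_inv_cancel₀ (pow_ne_zero _ hf0), one_mul]
  have h3 := congrArg ψ hkey
  rw [map_mul, map_pow, map_pow, hψ h hfS, hψ l heS, h0, zero_div, zero_pow hn, zero_mul] at h3
  exact (pow_ne_zero N (div_ne_zero hl hi)) h3.symm

end Pool.Agent.Helper142.Lp.Node
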