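import Mathlib
import Pool.Agent.Helper142.Lp.Defs2
import Pool.Agent.Helper142.Lp.Chart_exists
import Pool.Agent.Helper142.Lp.Chart_eq
import Pool.Agent.Helper142.Lp.T0_ne
import Pool.Agent.Helper142.Lp.Homog_scale

/-! Helper lemma pts_cone for MP_b7b3c1_ag. -/

set_option linter.all false

namespace Pool.Agent.Helper142.Lp.Pts_cone

open MvPolynomial Pool.Agent.Helper142.Lp
open Pool.Agent.Helper142.Lp.Chart_exists Pool.Agent.Helper142.Lp.Chart_eq Pool.Agent.Helper142.Lp.T0_ne Pool.Agent.Helper142.Lp.Homog_scale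

/-- TARGET: prove this. -/
theorem pts_cone (A B : Matrix (Fin 3) (Fin 3) ℂ) (hc : A * B = B * A)
    (i : Fin 10 ⊕ Fin 10) (hi : tt A B i ≠ 0) : tt A B ∈ cone t0 := by
  obtain ⟨P, c, h⟩ := chart_exists i
  obtain ⟨yK, hind, heq, -, -⟩ := chart_eq i P c h
  obtain ⟨y, hy⟩ := h.1 ℂ A B hc hi
  rintro F ⟨⟨d, hd⟩, hF⟩
  have hi0 := t0_ne i
  have ht : t0 = fun a => t0 i * aeval yK (P a) := by
    funext a
    rw [← heq a, mul_div_cancel₀ _ hi0]
  have h1 : aeval t0 F = t0 i ^ d * aeval (fun a => aeval yK (P a)) F := by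
    have h2 := homog_scale F d hd KK (t0 i) (fun a => aeval yK (P a))
    rw [← h2, ← ht]
  rw [h1] at hF
  have h3 : aeval (fun a => aeval yK (P a)) F = 0 :=
    (mul_eq_zero.1 hF).resolve_left (pow_ne_zero _ hi0)
  have h4 : aeval yK (bind₁ P F) = 0 := by
    rw [aeval_bind₁]
    exact h3
  have h5 : bind₁ P F = 0 := hind.eq_zero_of_aeval_eq_zero _ h4
  have ht' : tt A B = fun a => tt A B i * aeval y (P a) := funext hy
  have h6 : aeval (tt A B) F = tt A B i ^ d * aeval (fun a => aeval y (P a)) F := by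
    have h2 := homog_scale F d hd ℂ (tt A B i) (fun a => aeval y (P a))
    rw [← h2, ← ht']
  have h7 : eval (tt A B) F = aeval (tt A B) F := by
    rw [← coe_aeval_eq_eval]
    rfl
  rw [h7, h6, ← aeval_bind₁, h5, map_zero, mul_zero]

end Pool.Agent.Helper142.Lp.Pts_cone
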