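import Mathlib
import Pool.Agent.Helper142.Lp.Defs2
import Pool.Agent.Helper142.Lp.Pts_cone

/-! Helper lemma point1 for MP_b7b3c1_ag. -/

set_option linter.all false

namespace Pool.Agent.Helper142.Lp.Point1

open MvPolynomial Pool.Agent.Helper142.Lp
open Pool.Agent.Helper142.Lp.Pts_cone

theorem h208_TT (w : Fin 3 → ℂ) : TT (!![0, 1, -2; 1, 0, 0; 2, 0, 0] : Matrix (Fin 3) (Fin 3) ℂ)
    (!![-3, 0, 0; 0, 1, -2; 0, 2, -4]) w =
    w 0 * (w 0 * (2 * w 1 - 4 * w 2) - (2 * w 0) * (w 1 - 2 * w 2)) -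
    w 1 * ((w 1 - 2 * w 2) * (2 * w 1 - 4 * w 2) - (2 * w 0) * (-3 * w 0)) +
    w 2 * ((w 1 - 2 * w 2) * (w 1 - 2 * w 2) - w 0 * (-3 * w 0)) := by
  unfold TT
  rw [Matrix.det_fin_three]
  simp [dotProduct, Fin.sum_univ_three]
  ring

/-- TARGET: prove this. -/
theorem point1 : ∃ x ∈ cone t0, x (Sum.inl 0) = 0 ∧ x (Sum.inr 1) ≠ 0 ∧
    ∀ j : Fin 10, j ≠ 0 → x (Sum.inl j) ≠ 0 := by
  have hc : (!![0, 1, -2; 1, 0, 0; 2, 0, 0] : Matrix (Fin 3) (Fin 3) ℂ) *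
      !![-3, 0, 0; 0, 1, -2; 0, 2, -4] = !![-3, 0, 0; 0, 1, -2; 0, 2, -4] *
      (!![0, 1, -2; 1, 0, 0; 2, 0, 0] : Matrix (Fin 3) (Fin 3) ℂ) := by
    ext i j
    fin_cases i <;> fin_cases j <;> simp [Matrix.mul_apply, Fin.sum_univ_three] <;> norm_num
  have h1 : tt (!![0, 1, -2; 1, 0, 0; 2, 0, 0] : Matrix (Fin 3) (Fin 3) ℂ)
      (!![-3, 0, 0; 0, 1, -2; 0, 2, -4]) (Sum.inr 1) ≠ 0 := by
    unfold tt TT
    simp only [Sum.elim_inr]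
    rw [Matrix.det_fin_three]
    simp [Matrix.mulVec, dotProduct, Fin.sum_univ_three, vec, vecs]
  refine ⟨_, pts_cone _ _ hc (Sum.inr 1) h1, ?_, h1, ?_⟩
  · unfold tt
    simp only [Sum.elim_inl]
    rw [h208_TT]
    simp [vec, vecs]
  · intro j hj
    unfold tt
    simp only [Sum.elim_inl]
    rw [h208_TT]
    fin_cases j
    · exact absurd rfl hj
    all_goals (simp [vec, vecs]; try norm_num)

end Pool.Agent.Helper142.Lp.Point1
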