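import Mathlib
import Pool.Agent.Helper142.Lp.Defs2
import Pool.Agent.Helper142.Lp.Pts_cone

/-! Helper lemma point2 for MP_b7b3c1_ag. -/

set_option linter.all false

namespace Pool.Agent.Helper142.Lp.Point2

open MvPolynomial Pool.Agent.Helper142.Lp
open Pool.Agent.Helper142.Lp.Pts_cone

/-- the matrix of the special point -/
def A315 : Matrix (Fin 3) (Fin 3) ℂ := !![0, -1, 0; 1, 0, 2; 0, -2, 0]

theorem A315_sq : A315 * A315 = !![-1, 0, -2; 0, -5, 0; -2, 0, -4] := by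
  unfold A315
  ext i j
  fin_cases i <;> fin_cases j <;> simp [Matrix.mul_apply, Fin.sum_univ_three] <;> norm_num

theorem TT315 (A B : Matrix (Fin 3) (Fin 3) ℂ) (w : Fin 3 → ℂ) : TT A B w =
    w 0 * ((A 1 0 * w 0 + A 1 1 * w 1 + A 1 2 * w 2) * (B 2 0 * w 0 + B 2 1 * w 1 + B 2 2 * w 2) -
      (A 2 0 * w 0 + A 2 1 * w 1 + A 2 2 * w 2) * (B 1 0 * w 0 + B 1 1 * w 1 + B 1 2 * w 2)) -
    w 1 * ((A 0 0 * w 0 + A 0 1 * w 1 + A 0 2 * w 2) * (B 2 0 * w 0 + B 2 1 * w 1 + B 2 2 * w 2) -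
      (A 2 0 * w 0 + A 2 1 * w 1 + A 2 2 * w 2) * (B 0 0 * w 0 + B 0 1 * w 1 + B 0 2 * w 2)) +
    w 2 * ((A 0 0 * w 0 + A 0 1 * w 1 + A 0 2 * w 2) * (B 1 0 * w 0 + B 1 1 * w 1 + B 1 2 * w 2) -
      (A 1 0 * w 0 + A 1 1 * w 1 + A 1 2 * w 2) * (B 0 0 * w 0 + B 0 1 * w 1 + B 0 2 * w 2)) := by
  unfold TT
  rw [Matrix.det_fin_three]
  simp [Matrix.mulVec, dotProduct, Fin.sum_univ_three]
  ring

/-- TARGET: prove this. -/
theorem point2 : ∃ x ∈ cone t0, x (Sum.inr 1) = 0 ∧ x (Sum.inl 0) ≠ 0 ∧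
    ∀ j : Fin 10, j ≠ 1 → x (Sum.inr j) ≠ 0 := by
  have hl : tt A315 (A315 * A315) (Sum.inl 0) = -2 := by
    show TT A315 (A315 * A315) (vec 0) = -2
    rw [TT315, A315_sq]
    simp [A315, vec, vecs]
  have hr : ∀ j, tt A315 (A315 * A315) (Sum.inr j) =
      (![2, 0, -4, 12, 12, 9, 3, -9, 9, 14] : Fin 10 → ℂ) j := by
    intro j
    show TT A315.transpose (A315 * A315).transpose (vec j) = _
    rw [TT315, A315_sq]
    fin_cases j <;> simp [A315, vec, vecs] <;> norm_num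
  refine ⟨tt A315 (A315 * A315), pts_cone A315 (A315 * A315) (by rw [mul_assoc]) (Sum.inl 0)
    (by rw [hl]; norm_num), ?_, ?_, ?_⟩
  · rw [hr]
    rfl
  · rw [hl]; norm_num
  · intro j hj
    rw [hr]
    fin_cases j <;> simp at hj ⊢

end Pool.Agent.Helper142.Lp.Point2
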