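import Mathlib
import Pool.Agent.Helper142.Lp.Defs2

/-! Helper lemma q0_irred for MP_b7b3c1_ag. -/

set_option linter.all false

namespace Pool.Agent.Helper142.Lp.Q0_irred

open MvPolynomial Pool.Agent.Helper142.Lp

/-- general form, independent of how `q0` is defined -/
theorem q0_irred' : Irreducible (X 3 ^ 2 * X 2 +
    (-X 4 ^ 3 + X 0 * X 4 ^ 2 - 2 * X 1 * X 3 * X 4 + X 3 * X 4 * X 5) :
      MvPolynomial (Fin 6) ℂ) := by
  have hX : ∀ j : Fin 6, j ≠ 2 → (X j : MvPolynomial (Fin 6) ℂ) ∈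
      supported ℂ ({j : Fin 6 | j ≠ 2}) := fun j hj => X_mem_supported.2 hj
  have h0 := hX 0 (by decide)
  have h1 := hX 1 (by decide)
  have h3 := hX 3 (by decide)
  have h4 := hX 4 (by decide)
  have h5 := hX 5 (by decide)
  have h2' : (2 : MvPolynomial (Fin 6) ℂ) ∈ supported ℂ ({j : Fin 6 | j ≠ 2}) :=
    natCast_mem (supported ℂ ({j : Fin 6 | j ≠ 2})) 2
  apply irreducible_mul_X_add
  · exact pow_ne_zero _ (X_ne_zero _)
  · have : (X 3 ^ 2 : MvPolynomial (Fin 6) ℂ) ∈ supported ℂ ({j : Fin 6 | j ≠ 2}) :=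
      pow_mem h3 2
    rw [mem_supported] at this
    intro h
    exact this h rfl
  · have : (-X 4 ^ 3 + X 0 * X 4 ^ 2 - 2 * X 1 * X 3 * X 4 + X 3 * X 4 * X 5 :
        MvPolynomial (Fin 6) ℂ) ∈ supported ℂ ({j : Fin 6 | j ≠ 2}) :=
      add_mem (sub_mem (add_mem (neg_mem (pow_mem h4 3)) (mul_mem h0 (pow_mem h4 2)))
        (mul_mem (mul_mem (mul_mem h2' h1) h3) h4)) (mul_mem (mul_mem h3 h4) h5)
    rw [mem_supported] at this
    intro h
    exact this h rfl
  · apply IsRelPrime.pow_left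
    rw [(X_prime (R := ℂ) (i := (3 : Fin 6))).irreducible.isRelPrime_iff_not_dvd]
    rintro ⟨c, hc⟩
    have h6 := congrArg (eval (fun j : Fin 6 => if j = 4 then (1 : ℂ) else 0)) hc
    simp at h6

/-- TARGET: prove this. -/
theorem q0_irred : Irreducible q0 := by
  have h := q0_irred'
  have e : q0 = (X 3 ^ 2 * X 2 +
    (-X 4 ^ 3 + X 0 * X 4 ^ 2 - 2 * X 1 * X 3 * X 4 + X 3 * X 4 * X 5) :
      MvPolynomial (Fin 6) ℂ) := by
    unfold q0; ring
  rw [e]
  exact h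

end Pool.Agent.Helper142.Lp.Q0_irred
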