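import Mathlib
import Pool.Agent.Helper142.Lp.Defs2
import Pool.Agent.Helper142.Lp.Q0_irred
import Pool.Agent.Helper142.Lp.Exists_pair
import Pool.Agent.Helper142.Lp.Exists_link
import Pool.Agent.Helper142.Lp.ChartData_swap
import Pool.Agent.Helper142.Lp.Edge
import Pool.Agent.Helper142.Lp.Node
import Pool.Agent.Helper142.Lp.Point1
import Pool.Agent.Helper142.Lp.Point2
import Pool.Agent.Helper142.Lp.T0_ne

/-! Helper lemma gens_agree for MP_b7b3c1_ag. -/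

set_option linter.all false

namespace Pool.Agent.Helper142.Lp.Gens_agree

open MvPolynomial Pool.Agent.Helper142.Lp
open Pool.Agent.Helper142.Lp.Q0_irred Pool.Agent.Helper142.Lp.Exists_pair Pool.Agent.Helper142.Lp.Exists_link Pool.Agent.Helper142.Lp.ChartData_swap Pool.Agent.Helper142.Lp.Edge Pool.Agent.Helper142.Lp.Node Pool.Agent.Helper142.Lp.Point1 Pool.Agent.Helper142.Lp.Point2 Pool.Agent.Helper142.Lp.T0_ne

/-- `x` and its inverse are in `A` -/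
def UA (A : Subalgebra ℂ KK) (x : KK) : Prop := x ∈ A ∧ x⁻¹ ∈ A

theorem UA.mul {A : Subalgebra ℂ KK} {x y : KK} (hx : UA A x) (hy : UA A y) : UA A (x * y) :=
  ⟨A.mul_mem hx.1 hy.1, by rw [mul_inv]; exact A.mul_mem hx.2 hy.2⟩

theorem UA.zpow' {A : Subalgebra ℂ KK} {x : KK} (hx : UA A x) (k : ℤ) : x ^ k ∈ A := by
  cases k with
  | ofNat n => rw [Int.ofNat_eq_natCast, zpow_natCast]; exact A.pow_mem hx.1 n
  | negSucc n => rw [zpow_negSucc, ← inv_pow]; exact A.pow_mem hx.2 _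

theorem UA.zpow {A : Subalgebra ℂ KK} {x : KK} (hx : UA A x) (k : ℤ) : UA A (x ^ k) :=
  ⟨hx.zpow' k, by rw [← zpow_neg]; exact hx.zpow' _⟩

theorem UA.alg (A : Subalgebra ℂ KK) (b : ℂ) : UA A (algebraMap ℂ KK b) :=
  ⟨A.algebraMap_mem b, by rw [← map_inv₀]; exact A.algebraMap_mem _⟩

theorem UA.t (i l : Fin 10 ⊕ Fin 10) : UA (chart t0 i ⊔ chart t0 l) (t0 i / t0 l) := by
  constructor
  · exact (le_sup_right : chart t0 l ≤ chart t0 i ⊔ chart t0 l) (Algebra.subset_adjoin ⟨i, rfl⟩)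
  · rw [inv_div]
    exact (le_sup_left : chart t0 i ≤ chart t0 i ⊔ chart t0 l) (Algebra.subset_adjoin ⟨l, rfl⟩)

theorem ga_node (g : Fin 10 ⊕ Fin 10 → KK) (hg : ∀ i, g i ≠ 0)
    (h1 : ∀ i j, g i / g j ∈ chart t0 i ⊔ chart t0 j) (h i l : Fin 10 ⊕ Fin 10)
    (x : Fin 10 ⊕ Fin 10 → ℂ) (hx : x ∈ cone t0) (h0 : x h = 0) (hi : x i ≠ 0) (hl : x l ≠ 0)
    (k1 k2 : ℤ) (b1 b2 : ℂ) (hb1 : b1 ≠ 0) (hb2 : b2 ≠ 0)
    (e1 : g h * t0 h ^ k1 = algebraMap ℂ KK b1 * (g i * t0 i ^ k1))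
    (e2 : g h * t0 h ^ k2 = algebraMap ℂ KK b2 * (g l * t0 l ^ k2)) : k1 = k2 := by
  have hB1 : algebraMap ℂ KK b1 ≠ 0 := by rwa [Ne, map_eq_zero]
  have hB2 : algebraMap ℂ KK b2 ≠ 0 := by rwa [Ne, map_eq_zero]
  have hkey : (t0 h / t0 i) ^ (k1 - k2) =
      algebraMap ℂ KK (b1 / b2) * (g i / g l) * (t0 i / t0 l) ^ k2 := by
    have n1 : t0 h ^ k1 ≠ 0 := zpow_ne_zero _ (t0_ne h)
    have n2 : t0 h ^ k2 ≠ 0 := zpow_ne_zero _ (t0_ne h)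
    have n3 : t0 i ^ k1 ≠ 0 := zpow_ne_zero _ (t0_ne i)
    have n4 : t0 i ^ k2 ≠ 0 := zpow_ne_zero _ (t0_ne i)
    have n5 : t0 l ^ k2 ≠ 0 := zpow_ne_zero _ (t0_ne l)
    rw [zpow_sub₀ (div_ne_zero (t0_ne h) (t0_ne i)), div_zpow, div_zpow, div_zpow, map_div₀]
    generalize t0 h ^ k1 = a1 at *
    generalize t0 h ^ k2 = a2 at *
    generalize t0 i ^ k1 = c1 at *
    generalize t0 i ^ k2 = c2 at *
    generalize t0 l ^ k2 = d2 at *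
    generalize algebraMap ℂ KK b1 = B1 at *
    generalize algebraMap ℂ KK b2 = B2 at *
    have hgh := hg h
    have hgi := hg i
    have hgl := hg l
    have key : a1 * (B2 * g l * d2) = a2 * (B1 * g i * c1) := by
      apply mul_left_cancel₀ hgh
      linear_combination (B2 * g l * d2) * e1 - (B1 * g i * c1) * e2
    rw [div_div_div_eq, div_mul_div_comm, div_mul_div_comm,
      div_eq_div_iff (mul_ne_zero n3 n2) (mul_ne_zero (mul_ne_zero hB2 hgl) n5)]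
    linear_combination c2 * key
  have hU : UA (chart t0 i ⊔ chart t0 l) ((t0 h / t0 i) ^ (k1 - k2)) := by
    rw [hkey]
    refine ((UA.alg _ _).mul ⟨h1 i l, ?_⟩).mul ((UA.t i l).zpow k2)
    rw [inv_div, sup_comm]
    exact h1 l i
  have := node h i l x hx h0 hi hl (k1 - k2) hU.1 hU.2
  omega

theorem ga_edge (g : Fin 10 ⊕ Fin 10 → KK) (hg : ∀ i, g i ≠ 0)
    (h1 : ∀ i j, g i / g j ∈ chart t0 i ⊔ chart t0 j) (i j : Fin 10 ⊕ Fin 10)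
    (P : Fin 10 ⊕ Fin 10 → MvPolynomial (Fin 6) ℂ)
    (c : Fin 6 → Fin 10 ⊕ Fin 10 → ℂ) (h : ChartData i P c) (hq : Irreducible (P j)) :
    ∃ (b : ℂ) (k : ℤ), b ≠ 0 ∧ g i * t0 i ^ k = algebraMap ℂ KK b * (g j * t0 j ^ k) := by
  obtain ⟨b, k, hb, hu⟩ := edge i j P c h hq (g i / g j) (div_ne_zero (hg i) (hg j)) (h1 i j)
    (by rw [inv_div, sup_comm]; exact h1 j i)
  refine ⟨b, k, hb, ?_⟩
  have n1 : t0 i ^ k ≠ 0 := zpow_ne_zero _ (t0_ne i)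
  rw [div_zpow, div_eq_iff (hg j)] at hu
  rw [hu]
  field_simp

/-- TARGET: prove this. -/
theorem gens_agree (g : Fin 10 ⊕ Fin 10 → KK) (hg : ∀ i, g i ≠ 0)
    (h1 : ∀ i j, g i / g j ∈ chart t0 i ⊔ chart t0 j) :
    ∃ (g' : KK) (k : ℤ), g' ≠ 0 ∧ ∀ i, ∃ b : ℂ, b ≠ 0 ∧ g i = algebraMap ℂ KK b * (g' * t0 i ^ k) := by
  -- link
  obtain ⟨b', k', hb', e'⟩ : ∃ (b : ℂ) (k : ℤ), b ≠ 0 ∧
      g (Sum.inl 0) * t0 (Sum.inl 0) ^ k = algebraMap ℂ KK b * (g (Sum.inr 1) * t0 (Sum.inr 1) ^ k) := by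
    obtain ⟨P, c, hP, hP1, -⟩ := exists_link
    refine ga_edge g hg h1 _ _ P c hP ?_
    rw [hP1]
    have hX : Irreducible (X 2 : MvPolynomial (Fin 6) ℂ) := (MvPolynomial.X_prime).irreducible
    exact (MvPolynomial.X_prime).neg.irreducible
  have hB' : algebraMap ℂ KK b' ≠ 0 := by rwa [Ne, map_eq_zero]
  have e'' : g (Sum.inr 1) * t0 (Sum.inr 1) ^ k' =
      algebraMap ℂ KK b'⁻¹ * (g (Sum.inl 0) * t0 (Sum.inl 0) ^ k') := by
    rw [e', ← mul_assoc, ← map_mul, inv_mul_cancel₀ hb', map_one, one_mul]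
  have hl : ∀ j : Fin 10, j ≠ 0 → ∃ b : ℂ, b ≠ 0 ∧ g (Sum.inl 0) * t0 (Sum.inl 0) ^ k' =
      algebraMap ℂ KK b * (g (Sum.inl j) * t0 (Sum.inl j) ^ k') := by
    intro j hj
    obtain ⟨P, c, hP, hP1⟩ := exists_pair 0 j hj.symm
    obtain ⟨b, k, hb, e⟩ := ga_edge g hg h1 _ (Sum.inl j) P c hP (by rw [hP1]; exact q0_irred)
    obtain ⟨x, hx, x0, x1, x2⟩ := point1
    have hk : k = k' := ga_node g hg h1 _ _ _ x hx x0 (x2 j hj) x1 k k' b b' hb hb' e e'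
    subst hk
    exact ⟨b, hb, e⟩
  have hr : ∀ j : Fin 10, j ≠ 1 → ∃ b : ℂ, b ≠ 0 ∧ g (Sum.inr 1) * t0 (Sum.inr 1) ^ k' =
      algebraMap ℂ KK b * (g (Sum.inr j) * t0 (Sum.inr j) ^ k') := by
    intro j hj
    obtain ⟨P, c, hP, hP1⟩ := exists_pair 1 j hj.symm
    obtain ⟨b, k, hb, e⟩ := ga_edge g hg h1 _ (Sum.inr j) _ _ (chartData_swap 1 P c hP)
      (by show Irreducible (P (Sum.inl j)); rw [hP1]; exact q0_irred)
    obtain ⟨x, hx, x0, x1, x2⟩ := point2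
    have hk : k = k' := ga_node g hg h1 _ _ _ x hx x0 (x2 j hj) x1 k k' b b'⁻¹ hb
      (inv_ne_zero hb') e e''
    subst hk
    exact ⟨b, hb, e⟩
  refine ⟨g (Sum.inl 0) * t0 (Sum.inl 0) ^ k', -k', mul_ne_zero (hg _)
    (zpow_ne_zero _ (t0_ne _)), ?_⟩
  have hfin : ∀ i : Fin 10 ⊕ Fin 10, (∃ B : ℂ, B ≠ 0 ∧ g (Sum.inl 0) * t0 (Sum.inl 0) ^ k' =
      algebraMap ℂ KK B * (g i * t0 i ^ k')) →
      ∃ b : ℂ, b ≠ 0 ∧ g i = algebraMap ℂ KK b *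
        (g (Sum.inl 0) * t0 (Sum.inl 0) ^ k' * t0 i ^ (-k')) := by
    rintro i ⟨B, hB, e⟩
    refine ⟨B⁻¹, inv_ne_zero hB, ?_⟩
    have n1 : t0 i ^ k' ≠ 0 := zpow_ne_zero _ (t0_ne i)
    have n2 : algebraMap ℂ KK B ≠ 0 := by rwa [Ne, map_eq_zero]
    rw [e, zpow_neg, map_inv₀]
    field_simp
  rintro (j | j)
  · by_cases hj : j = 0
    · subst hj
      exact hfin _ ⟨1, one_ne_zero, by rw [map_one, one_mul]⟩
    · exact hfin _ (hl j hj)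
  · by_cases hj : j = 1
    · subst hj
      exact hfin _ ⟨b', hb', e'⟩
    · obtain ⟨b, hb, e⟩ := hr j hj
      refine hfin _ ⟨b' * b, mul_ne_zero hb' hb, ?_⟩
      rw [e', e, map_mul, mul_assoc]

end Pool.Agent.Helper142.Lp.Gens_agree
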