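import Mathlib
import Pool.Agent.Helper142.Lp.Defs2
import Pool.Agent.Helper142.Lp.Iota_det

/-! Helper lemma link_vol for MP_b7b3c1_ag. -/

set_option linter.all false

namespace Pool.Agent.Helper142.Lp.Link_vol

open MvPolynomial Pool.Agent.Helper142.Lp
open Pool.Agent.Helper142.Lp.Iota_det

/-- the Jacobian matrix -/
def jac19 {K : Type} [Field K] (y : Fin 6 → K) : Matrix (Fin 6) (Fin 6) K :=
  !![-1, 2 * y 1 / y 2, - (y 1 ^ 2 / y 2 ^ 2), 0, 0, 0;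
     0, - (1 / y 2), y 1 / y 2 ^ 2, 0, 0, 0;
     0, 0, - (1 / y 2 ^ 2), 0, 0, 0;
     y 1, -2 * y 4 - 3 * y 1 ^ 2 / y 2 + y 0 + 2 * y 1 * y 5 / y 2,
       y 3 + y 1 ^ 3 / y 2 ^ 2 - y 1 ^ 2 * y 5 / y 2 ^ 2, y 2, -2 * y 1, y 1 ^ 2 / y 2;
     -1, 2 * y 1 / y 2 - y 5 / y 2, - (y 1 ^ 2 / y 2 ^ 2) + y 1 * y 5 / y 2 ^ 2, 0, 1,
       - (y 1 / y 2);
     0, - (1 / y 2), y 1 / y 2 ^ 2 - y 5 / y 2 ^ 2, 0, 0, 1 / y 2]

/-- the order making the Jacobian matrix lower triangular -/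
def ord19 : Fin 6 ≃ Fin 6 where
  toFun := ![2, 1, 0, 5, 4, 3]
  invFun := ![2, 1, 0, 5, 4, 3]
  left_inv := by decide
  right_inv := by decide

theorem jac19_det {K : Type} [Field K] (y : Fin 6 → K) (h2 : y 2 ≠ 0) :
    (jac19 y).det = ((- y 2) ^ 3)⁻¹ := by
  rw [← Matrix.det_submatrix_equiv_self ord19 (jac19 y)]
  rw [Matrix.det_of_lowerTriangular]
  · simp only [Fin.prod_univ_six, Matrix.submatrix_apply]
    have e0 : ord19 0 = 2 := rfl
    have e1 : ord19 1 = 1 := rfl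
    have e2 : ord19 2 = 0 := rfl
    have e3 : ord19 3 = 5 := rfl
    have e4 : ord19 4 = 4 := rfl
    have e5 : ord19 5 = 3 := rfl
    rw [e0, e1, e2, e3, e4, e5]
    have d0 : jac19 y 0 0 = -1 := rfl
    have d1 : jac19 y 1 1 = - (1 / y 2) := rfl
    have d2 : jac19 y 2 2 = - (1 / y 2 ^ 2) := rfl
    have d3 : jac19 y 3 3 = y 2 := rfl
    have d4 : jac19 y 4 4 = 1 := rfl
    have d5 : jac19 y 5 5 = 1 / y 2 := rfl
    rw [d0, d1, d2, d3, d4, d5]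
    rw [show ((- y 2) ^ 3)⁻¹ = - (y 2 ^ 3)⁻¹ by rw [Odd.neg_pow (by decide), inv_neg]]
    field_simp
  · intro i j hij
    have hij' : i < j := hij
    fin_cases i <;> fin_cases j <;> first | (exfalso; revert hij'; decide) | rfl

theorem jac19_D {K M : Type} [Field K] [Algebra ℂ K] [AddCommGroup M] [Module K M] [Module ℂ M]
    [IsScalarTower ℂ K M] (D : Derivation ℂ K M) (y : Fin 6 → K) (h2 : y 2 ≠ 0) (a : Fin 6) :
    D ((![- y 0 + y 1 ^ 2 / y 2, - y 1 / y 2, 1 / y 2,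
    (y 2 * y 3 - y 1 * y 4)
      - y 1 / y 2 * (y 1 ^ 2 + y 4 * y 2 - y 0 * y 2 - y 1 * y 5),
    - y 0 + y 1 ^ 2 / y 2 + y 4 - y 1 / y 2 * y 5,
    - y 1 / y 2 + y 5 / y 2] : Fin 6 → K) a) = ∑ j, jac19 y a j • D (y j) := by
  have hinv : D ((y 2)⁻¹) = - ((y 2)⁻¹ ^ 2) • D (y 2) := by
    rw [Derivation.leibniz_inv]
  rw [Fin.sum_univ_six]
  fin_cases a
  · show D (- y 0 + y 1 ^ 2 / y 2) = (-1 : K) • D (y 0) + (2 * y 1 / y 2) • D (y 1)
      + (- (y 1 ^ 2 / y 2 ^ 2)) • D (y 2) + (0 : K) • D (y 3) + (0 : K) • D (y 4)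
      + (0 : K) • D (y 5)
    rw [div_eq_mul_inv, pow_two]
    simp only [map_add, map_neg, Derivation.leibniz, hinv]
    match_scalars <;> field_simp <;> ring
  · show D (- y 1 / y 2) = (0 : K) • D (y 0) + (- (1 / y 2)) • D (y 1)
      + (y 1 / y 2 ^ 2) • D (y 2) + (0 : K) • D (y 3) + (0 : K) • D (y 4)
      + (0 : K) • D (y 5)
    rw [div_eq_mul_inv]
    simp only [map_add, map_neg, Derivation.leibniz, hinv]
    match_scalars <;> field_simp <;> ring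
  · show D (1 / y 2) = (0 : K) • D (y 0) + (0 : K) • D (y 1)
      + (- (1 / y 2 ^ 2)) • D (y 2) + (0 : K) • D (y 3) + (0 : K) • D (y 4)
      + (0 : K) • D (y 5)
    rw [one_div, hinv]
    match_scalars <;> field_simp <;> ring
  · show D ((y 2 * y 3 - y 1 * y 4)
      - y 1 / y 2 * (y 1 ^ 2 + y 4 * y 2 - y 0 * y 2 - y 1 * y 5)) = (y 1) • D (y 0)
      + (-2 * y 4 - 3 * y 1 ^ 2 / y 2 + y 0 + 2 * y 1 * y 5 / y 2) • D (y 1)
      + (y 3 + y 1 ^ 3 / y 2 ^ 2 - y 1 ^ 2 * y 5 / y 2 ^ 2) • D (y 2) + (y 2) • D (y 3)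
      + (-2 * y 1) • D (y 4) + (y 1 ^ 2 / y 2) • D (y 5)
    rw [div_eq_mul_inv, pow_two]
    simp only [map_add, map_sub, map_neg, Derivation.leibniz, hinv]
    match_scalars <;> field_simp <;> ring
  · show D (- y 0 + y 1 ^ 2 / y 2 + y 4 - y 1 / y 2 * y 5) = (-1 : K) • D (y 0)
      + (2 * y 1 / y 2 - y 5 / y 2) • D (y 1)
      + (- (y 1 ^ 2 / y 2 ^ 2) + y 1 * y 5 / y 2 ^ 2) • D (y 2) + (0 : K) • D (y 3)
      + (1 : K) • D (y 4) + (- (y 1 / y 2)) • D (y 5)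
    rw [div_eq_mul_inv, div_eq_mul_inv, pow_two]
    simp only [map_add, map_sub, map_neg, Derivation.leibniz, hinv]
    match_scalars <;> field_simp <;> ring
  · show D (- y 1 / y 2 + y 5 / y 2) = (0 : K) • D (y 0) + (- (1 / y 2)) • D (y 1)
      + (y 1 / y 2 ^ 2 - y 5 / y 2 ^ 2) • D (y 2) + (0 : K) • D (y 3) + (0 : K) • D (y 4)
      + (1 / y 2) • D (y 5)
    rw [div_eq_mul_inv, div_eq_mul_inv]
    simp only [map_add, map_sub, map_neg, Derivation.leibniz, hinv]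
    match_scalars <;> field_simp <;> ring

theorem yy19_ne : yy 2 ≠ 0 := by
  unfold yy
  intro h
  have h1 := (IsFractionRing.injective (MvPolynomial (Fin 6) ℂ) KK) (h.trans (map_zero _).symm)
  exact MvPolynomial.X_ne_zero (R := ℂ) (2 : Fin 6) h1

/-- TARGET: prove this. -/
theorem link_vol : exteriorPower.ιMulti KK 6 (fun a => KaehlerDifferential.D ℂ KK (zlink a)) =
      ((- yy 2) ^ 3)⁻¹ •
        exteriorPower.ιMulti KK 6 (fun a => KaehlerDifferential.D ℂ KK (yy a)) := by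
  have h1 : (fun a => KaehlerDifferential.D ℂ KK (zlink a)) =
      fun a => ∑ j, jac19 yy a j • KaehlerDifferential.D ℂ KK (yy j) := by
    funext a
    exact jac19_D (KaehlerDifferential.D ℂ KK) yy yy19_ne a
  rw [h1, iota_det 6 (fun j => KaehlerDifferential.D ℂ KK (yy j)) (jac19 yy),
    jac19_det yy yy19_ne]

end Pool.Agent.Helper142.Lp.Link_vol
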