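import Mathlib
import Pool.Agent.Helper142.Lp.Defs2

/-! Helper lemma yy_basic for MP_b7b3c1_ag. -/

set_option linter.all false

namespace Pool.Agent.Helper142.Lp.Yy_basic

open MvPolynomial Pool.Agent.Helper142.Lp

/-- TARGET: prove this. -/
theorem yy_basic : AlgebraicIndependent ℂ yy ∧
    IntermediateField.adjoin ℂ (Set.range yy) = ⊤ := by
  constructor
  · have h := (MvPolynomial.algebraicIndependent_X (Fin 6) ℂ).map'
      (f := IsScalarTower.toAlgHom ℂ (MvPolynomial (Fin 6) ℂ) KK)
      (IsFractionRing.injective (MvPolynomial (Fin 6) ℂ) KK)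
    exact h
  · rw [eq_top_iff]
    intro x _
    have hmem : ∀ a : MvPolynomial (Fin 6) ℂ, algebraMap (MvPolynomial (Fin 6) ℂ) KK a ∈
        IntermediateField.adjoin ℂ (Set.range yy) := by
      intro a
      induction a using MvPolynomial.induction_on with
      | C c =>
        have h1 : algebraMap (MvPolynomial (Fin 6) ℂ) KK (MvPolynomial.C c) = algebraMap ℂ KK c := by
          rw [IsScalarTower.algebraMap_apply ℂ (MvPolynomial (Fin 6) ℂ) KK]
          rfl
        rw [h1]
        exact IntermediateField.algebraMap_mem _ c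
      | add p q hp hq =>
        rw [map_add]
        exact add_mem hp hq
      | mul_X p i hp =>
        rw [map_mul]
        exact mul_mem hp (IntermediateField.subset_adjoin ℂ _ ⟨i, rfl⟩)
    obtain ⟨a, b, hb, rfl⟩ := IsFractionRing.div_surjective (A := MvPolynomial (Fin 6) ℂ) x
    exact div_mem (hmem a) (hmem b)

end Pool.Agent.Helper142.Lp.Yy_basic
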