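import Mathlib
import Pool.Agent.Helper142.Lp.Defs2
import Pool.Agent.Helper142.Lp.Yy_basic

/-! Helper lemma vol_ne for MP_b7b3c1_ag. -/

set_option linter.all false

namespace Pool.Agent.Helper142.Lp.Vol_ne

open MvPolynomial Pool.Agent.Helper142.Lp
open Pool.Agent.Helper142.Lp.Yy_basic

open TensorProduct in
theorem j19139_basis : Nonempty (Module.Basis (Fin 6) KK (Ω[KK⁄ℂ])) := by
  haveI : Algebra.FormallyEtale (MvPolynomial (Fin 6) ℂ) KK :=
    Algebra.FormallyEtale.of_isLocalization (nonZeroDivisors (MvPolynomial (Fin 6) ℂ))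
  exact ⟨((KaehlerDifferential.mvPolynomialBasis ℂ (Fin 6)).baseChange KK).map
    (KaehlerDifferential.tensorKaehlerEquivOfFormallyEtale ℂ (MvPolynomial (Fin 6) ℂ) KK)⟩

/-- the elements whose differential lies in a given subspace form a field -/
noncomputable def j19139_IF (N : Submodule KK (Ω[KK⁄ℂ])) : IntermediateField ℂ KK where
  carrier := {z | KaehlerDifferential.D ℂ KK z ∈ N}
  mul_mem' := by
    intro a b ha hb
    show KaehlerDifferential.D ℂ KK (a * b) ∈ N
    rw [Derivation.leibniz]
    exact N.add_mem (N.smul_mem _ hb) (N.smul_mem _ ha)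
  add_mem' := by
    intro a b ha hb
    show KaehlerDifferential.D ℂ KK (a + b) ∈ N
    rw [map_add]
    exact N.add_mem ha hb
  algebraMap_mem' := by
    intro r
    show KaehlerDifferential.D ℂ KK (algebraMap ℂ KK r) ∈ N
    rw [Derivation.map_algebraMap]
    exact N.zero_mem
  inv_mem' := by
    intro a ha
    show KaehlerDifferential.D ℂ KK a⁻¹ ∈ N
    rw [Derivation.leibniz_inv]
    exact N.smul_mem _ ha

/-- TARGET: prove this. -/
theorem vol_ne (y : Fin 6 → KK) (hy : AlgebraicIndependent ℂ y)
    (hg : IntermediateField.adjoin ℂ (Set.range y) = ⊤) :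
    exteriorPower.ιMulti KK 6 (fun a => KaehlerDifferential.D ℂ KK (y a)) ≠ 0 := by
  obtain ⟨b⟩ := j19139_basis
  have hfin : Module.Finite KK (Ω[KK⁄ℂ]) := Module.Finite.of_basis b
  have hrank : Module.finrank KK (Ω[KK⁄ℂ]) = 6 := by
    rw [Module.finrank_eq_card_basis b, Fintype.card_fin]
  have hspan : ⊤ ≤ Submodule.span KK
      (Set.range (fun a => KaehlerDifferential.D ℂ KK (y a))) := by
    rw [← KaehlerDifferential.span_range_derivation ℂ KK, Submodule.span_le]
    rintro _ ⟨z, rfl⟩
    have h1 : IntermediateField.adjoin ℂ (Set.range y) ≤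
        j19139_IF (Submodule.span KK
          (Set.range (fun a => KaehlerDifferential.D ℂ KK (y a)))) := by
      rw [IntermediateField.adjoin_le_iff]
      rintro _ ⟨i, rfl⟩
      exact Submodule.subset_span ⟨i, rfl⟩
    rw [hg] at h1
    exact h1 (IntermediateField.mem_top (F := ℂ) (x := z))
  have hli : LinearIndependent KK (fun a => KaehlerDifferential.D ℂ KK (y a)) :=
    linearIndependent_of_top_le_span_of_card_eq_finrank hspan (by rw [hrank, Fintype.card_fin])
  let c : Module.Basis (Fin 6) KK (Ω[KK⁄ℂ]) := Module.Basis.mk hli hspan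
  have hc : (fun a => KaehlerDifferential.D ℂ KK (y a)) = c := by
    funext a
    exact (Module.Basis.mk_apply hli hspan a).symm
  intro h0
  have h1 := congrArg (exteriorPower.alternatingMapLinearEquiv c.det) h0
  rw [exteriorPower.alternatingMapLinearEquiv_apply_ιMulti, map_zero, hc,
    Module.Basis.det_self] at h1
  exact one_ne_zero h1

end Pool.Agent.Helper142.Lp.Vol_ne
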