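import Mathlib
import Pool.Agent.Helper142.Lp.Defs2
import Pool.Agent.Helper142.Lp.Iota_det
import Pool.Agent.Helper142.Lp.D_aeval

/-! Helper lemma vol_overlap for MP_b7b3c1_ag. -/

set_option linter.all false

namespace Pool.Agent.Helper142.Lp.Vol_overlap

open MvPolynomial Pool.Agent.Helper142.Lp
open Pool.Agent.Helper142.Lp.Iota_det Pool.Agent.Helper142.Lp.D_aeval

/-- TARGET: prove this. -/
theorem vol_overlap {K : Type} [Field K] [Algebra ℂ K] {n : ℕ} (y z : Fin n → K)
    (U : Subalgebra ℂ K) (f : K) (hf : f ≠ 0) (hfy : f ∈ Algebra.adjoin ℂ (Set.range y))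
    (hU : U = Algebra.adjoin ℂ ((Algebra.adjoin ℂ (Set.range y) : Set K) ∪ {f⁻¹}))
    (hz : ∀ a, z a ∈ U) : ∃ u ∈ U,
      exteriorPower.ιMulti K n (fun a => KaehlerDifferential.D ℂ K (z a)) =
        u • exteriorPower.ιMulti K n (fun a => KaehlerDifferential.D ℂ K (y a)) := by
  have hRU : ∀ x ∈ Algebra.adjoin ℂ (Set.range y), x ∈ U := by
    intro x hx
    rw [hU]
    exact Algebra.subset_adjoin (Or.inl hx)
  have hfU : f⁻¹ ∈ U := by
    rw [hU]
    exact Algebra.subset_adjoin (Or.inr rfl)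
  have hR : ∀ x ∈ Algebra.adjoin ℂ (Set.range y), ∃ u : Fin n → K, (∀ k, u k ∈ U) ∧
      KaehlerDifferential.D ℂ K x = ∑ k, u k • KaehlerDifferential.D ℂ K (y k) := by
    intro x hx
    rw [Algebra.adjoin_range_eq_range_aeval] at hx
    obtain ⟨q, hq⟩ := hx
    refine ⟨fun k => aeval y (pderiv k q), fun k => hRU _ ?_, ?_⟩
    · rw [Algebra.adjoin_range_eq_range_aeval]
      exact ⟨_, rfl⟩
    · rw [← hq]
      exact D_aeval y q
  have hall : ∀ x ∈ U, ∃ u : Fin n → K, (∀ k, u k ∈ U) ∧
      KaehlerDifferential.D ℂ K x = ∑ k, u k • KaehlerDifferential.D ℂ K (y k) := by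
    intro x hx
    rw [hU] at hx
    induction hx using Algebra.adjoin_induction with
    | mem x hx =>
      rcases hx with hx | hx
      · exact hR x hx
      · rw [Set.mem_singleton_iff] at hx
        subst hx
        obtain ⟨u, hu, hDu⟩ := hR f hfy
        refine ⟨fun k => -(f⁻¹) ^ 2 * u k, fun k => ?_, ?_⟩
        · exact U.mul_mem (U.neg_mem (U.pow_mem hfU 2)) (hu k)
        · rw [Derivation.leibniz_inv, hDu, Finset.smul_sum]
          exact Finset.sum_congr rfl fun k _ => by rw [smul_smul]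
    | algebraMap c =>
      refine ⟨fun _ => 0, fun _ => U.zero_mem, ?_⟩
      rw [Derivation.map_algebraMap]
      simp
    | add a b _ _ iha ihb =>
      obtain ⟨u, hu, hDu⟩ := iha
      obtain ⟨v, hv, hDv⟩ := ihb
      refine ⟨fun k => u k + v k, fun k => U.add_mem (hu k) (hv k), ?_⟩
      rw [map_add, hDu, hDv, ← Finset.sum_add_distrib]
      exact Finset.sum_congr rfl fun k _ => by rw [add_smul]
    | mul a b ha hb iha ihb =>
      obtain ⟨u, hu, hDu⟩ := iha
      obtain ⟨v, hv, hDv⟩ := ihb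
      rw [← hU] at ha hb
      refine ⟨fun k => a * v k + b * u k, fun k => U.add_mem (U.mul_mem ha (hv k))
        (U.mul_mem hb (hu k)), ?_⟩
      rw [Derivation.leibniz, hDu, hDv, Finset.smul_sum, Finset.smul_sum,
        ← Finset.sum_add_distrib]
      exact Finset.sum_congr rfl fun k _ => by rw [add_smul, smul_smul, smul_smul]
  choose u hu hDu using fun a => hall (z a) (hz a)
  refine ⟨(Matrix.of u).det, ?_, ?_⟩
  · have h1 := (U.val.toRingHom).map_det (Matrix.of fun a k => (⟨u a k, hu a k⟩ : U))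
    have h2 : (U.val.toRingHom).mapMatrix (Matrix.of fun a k => (⟨u a k, hu a k⟩ : U)) =
        Matrix.of u := by
      ext a k
      rfl
    rw [h2] at h1
    rw [← h1]
    exact Subtype.property _
  · have h1 : (fun a => KaehlerDifferential.D ℂ K (z a)) =
        fun a => ∑ k, (Matrix.of u) a k • KaehlerDifferential.D ℂ K (y k) := by
      funext a
      exact hDu a
    rw [h1]
    exact iota_det n _ _

end Pool.Agent.Helper142.Lp.Vol_overlap
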