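import Mathlib
import Pool.Agent.Helper142.Lp.Defs2
import Pool.Agent.Helper142.Lp.Chart_exists
import Pool.Agent.Helper142.Lp.Chart_eq
import Pool.Agent.Helper142.Lp.Chart0
import Pool.Agent.Helper142.Lp.T0_vals
import Pool.Agent.Helper142.Lp.T0_ne
import Pool.Agent.Helper142.Lp.Overlap_eq
import Pool.Agent.Helper142.Lp.Canon_span
import Pool.Agent.Helper142.Lp.Vol_overlap
import Pool.Agent.Helper142.Lp.Vol_ne
import Pool.Agent.Helper142.Lp.Yy_basic
import Pool.Agent.Helper142.Lp.Link_chart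
import Pool.Agent.Helper142.Lp.Link_vol
import Pool.Agent.Helper142.Lp.Gens_agree

/-! Helper lemma fano_t0 for MP_b7b3c1_ag. -/

set_option linter.all false

namespace Pool.Agent.Helper142.Lp.Fano_t0

open MvPolynomial Pool.Agent.Helper142.Lp
open Pool.Agent.Helper142.Lp.Chart_exists Pool.Agent.Helper142.Lp.Chart_eq Pool.Agent.Helper142.Lp.Chart0 Pool.Agent.Helper142.Lp.T0_vals Pool.Agent.Helper142.Lp.T0_ne Pool.Agent.Helper142.Lp.Overlap_eq Pool.Agent.Helper142.Lp.Canon_span Pool.Agent.Helper142.Lp.Vol_overlap Pool.Agent.Helper142.Lp.Vol_ne Pool.Agent.Helper142.Lp.Yy_basic Pool.Agent.Helper142.Lp.Link_chart Pool.Agent.Helper142.Lp.Link_vol Pool.Agent.Helper142.Lp.Gens_agree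

/-- the volume form of a system of coordinates -/
noncomputable def vol6 (y : Fin 6 → KK) : ⋀[KK]^6 (Ω[KK⁄ℂ]) :=
  exteriorPower.ιMulti KK 6 (fun a => KaehlerDifferential.D ℂ KK (y a))

theorem smul_cancel_gen {K M : Type*} [Field K] [AddCommGroup M] [Module K M] (V : M)
    (hV : V ≠ 0) (a b : K) (h : a • V = b • V) : a = b := by
  have h1 : (a - b) • V = 0 := by rw [sub_smul, h, sub_self]
  rcases smul_eq_zero.1 h1 with h2 | h2
  · exact sub_eq_zero.1 h2
  · exact absurd h2 hV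

theorem smul_cancel_aux (V : ⋀[KK]^6 (Ω[KK⁄ℂ])) (hV : V ≠ 0) (a b : KK) (h : a • V = b • V) :
    a = b := smul_cancel_gen V hV a b h

theorem zpow_const_aux (m : ℤ) (c : ℂ) (h : (- yy 2) ^ m = algebraMap ℂ KK c) : m = 0 := by
  have htr : Transcendental ℂ (yy 2) := yy_basic.1.transcendental 2
  have hpos : ∀ (m : ℕ) (c : ℂ), 0 < m → (- yy 2) ^ m = algebraMap ℂ KK c → False := by
    intro m c hm h
    apply htr
    have h1 : IsAlgebraic ℂ ((- yy 2) ^ m) := by rw [h]; exact isAlgebraic_algebraMap c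
    have h2 : IsAlgebraic ℂ (- yy 2) := IsAlgebraic.of_pow hm h1
    have h3 := h2.neg
    rw [neg_neg] at h3
    exact h3
  rcases lt_trichotomy m 0 with h1 | h1 | h1
  · exfalso
    obtain ⟨k, hk⟩ := Int.exists_eq_neg_ofNat h1.le
    subst hk
    rw [zpow_neg, zpow_natCast] at h
    have h2 : (- yy 2) ^ k = algebraMap ℂ KK c⁻¹ := by
      rw [map_inv₀, ← h, inv_inv]
    exact hpos k c⁻¹ (by omega) h2
  · exact h1
  · exfalso
    obtain ⟨k, hk⟩ := Int.eq_ofNat_of_zero_le h1.le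
    subst hk
    rw [zpow_natCast] at h
    exact hpos k c (by omega) h

theorem mem_chart_aux (i j : Fin 10 ⊕ Fin 10) : t0 j / t0 i ∈ chart t0 i :=
  Algebra.subset_adjoin ⟨j, rfl⟩

theorem overlap_aux (i j : Fin 10 ⊕ Fin 10) (y z : Fin 6 → KK)
    (hy : chart t0 i = Algebra.adjoin ℂ (Set.range y))
    (hz : chart t0 j = Algebra.adjoin ℂ (Set.range z)) :
    ∃ u ∈ chart t0 i ⊔ chart t0 j, vol6 z = u • vol6 y := by
  refine vol_overlap y z (chart t0 i ⊔ chart t0 j) (t0 j / t0 i)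
    (div_ne_zero (t0_ne j) (t0_ne i)) ?_ ?_ ?_
  · rw [← hy]
    exact mem_chart_aux i j
  · rw [← hy]
    exact overlap_eq t0 t0_ne i j
  · intro a
    have h1 : z a ∈ chart t0 j := by
      rw [hz]
      exact Algebra.subset_adjoin ⟨a, rfl⟩
    exact (le_sup_right : chart t0 j ≤ chart t0 i ⊔ chart t0 j) h1

/-- TARGET: prove this. -/
theorem fano_t0 : FanoVar t0 6 := by
  have hex : ∀ i, ∃ y : Fin 6 → KK, chart t0 i = Algebra.adjoin ℂ (Set.range y) ∧
      (i = Sum.inl 0 → y = yy) ∧ (i = Sum.inr 1 → y = zlink) := by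
    intro i
    by_cases h0 : i = Sum.inl 0
    · refine ⟨yy, ?_, fun _ => rfl, ?_⟩
      · rw [h0]; exact chart0
      · intro h1
        rw [h0] at h1
        exact absurd h1 (by simp)
    · by_cases h1 : i = Sum.inr 1
      · refine ⟨zlink, ?_, fun h => absurd h h0, fun _ => rfl⟩
        rw [h1]; exact link_chart
      · obtain ⟨P, c, h⟩ := chart_exists i
        obtain ⟨y, _, _, h2, _⟩ := chart_eq i P c h
        exact ⟨y, h2, fun h => absurd h h0, fun h => absurd h h1⟩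
  choose Y hY hY0 hY1 using hex
  have hV : vol6 yy ≠ 0 := vol_ne yy yy_basic.1 yy_basic.2
  have huv : ∀ i j, ∃ u ∈ chart t0 i ⊔ chart t0 j, vol6 (Y j) = u • vol6 (Y i) :=
    fun i j => overlap_aux i j (Y i) (Y j) (hY i) (hY j)
  have hY00 : Y (Sum.inl 0) = yy := hY0 _ rfl
  have hY11 : Y (Sum.inr 1) = zlink := hY1 _ rfl
  have hg : ∀ i, ∃ g : KK, vol6 (Y i) = g • vol6 yy := by
    intro i
    obtain ⟨u, _, hu⟩ := huv (Sum.inl 0) i
    rw [hY00] at hu
    exact ⟨u, hu⟩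
  choose g hg using hg
  have hg0 : ∀ i, g i ≠ 0 := by
    intro i h
    obtain ⟨u, _, hu⟩ := huv i (Sum.inl 0)
    rw [hY00, hg i, h, zero_smul, smul_zero] at hu
    exact hV hu
  have hgg : ∀ i j, g i / g j ∈ chart t0 i ⊔ chart t0 j := by
    intro i j
    obtain ⟨u, hu, hu2⟩ := huv j i
    rw [hg i, hg j, smul_smul] at hu2
    have h1 := smul_cancel_aux _ hV _ _ hu2
    rw [h1, mul_div_assoc, div_self (hg0 j), mul_one, sup_comm]
    exact hu
  obtain ⟨g', k, hg', hb⟩ := gens_agree g hg0 hgg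
  have hk : k = -3 := by
    obtain ⟨b0, hb0, e0⟩ := hb (Sum.inl 0)
    obtain ⟨b1, hb1, e1⟩ := hb (Sum.inr 1)
    have g0 : g (Sum.inl 0) = 1 := by
      apply smul_cancel_aux _ hV
      rw [← hg, hY00, one_smul]
    have g1 : g (Sum.inr 1) = ((- yy 2) ^ 3)⁻¹ := by
      apply smul_cancel_aux _ hV
      rw [← hg, hY11]
      exact link_vol
    rw [g0, t0_vals.1, one_zpow, mul_one] at e0
    rw [g1, t0_vals.2] at e1
    have hy2 : (- yy 2) ≠ 0 := by
      rw [← t0_vals.2]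
      exact t0_ne _
    have hb0' : algebraMap ℂ KK b0 ≠ 0 := by
      rw [map_ne_zero]
      exact hb0
    have hb1' : algebraMap ℂ KK b1 ≠ 0 := by
      rw [map_ne_zero]
      exact hb1
    have hz : (- yy 2) ^ (k + 3) = algebraMap ℂ KK (b0 / b1) := by
      rw [map_div₀, eq_div_iff hb1', zpow_add₀ hy2]
      have h3 : (- yy 2) ^ (3 : ℤ) = (- yy 2) ^ 3 := by
        exact_mod_cast zpow_natCast (- yy 2) 3
      rw [h3]
      have h4 : ((- yy 2) ^ 3)⁻¹ * (- yy 2) ^ 3 = 1 := inv_mul_cancel₀ (pow_ne_zero _ hy2)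
      rw [e1] at h4
      linear_combination (algebraMap ℂ KK b0) * h4 +
        (algebraMap ℂ KK b1 * ((- yy 2) ^ k) * (- yy 2) ^ 3) * e0
    have := zpow_const_aux _ _ hz
    omega
  refine ⟨3, by norm_num, g' • vol6 yy, smul_ne_zero hg' hV, ?_⟩
  intro i
  obtain ⟨b, hb0, e⟩ := hb i
  have h1 : canon t0 6 i = Submodule.span (chart t0 i) {vol6 (Y i)} :=
    canon_span (Y i) (chart t0 i) (hY i)
  have hu : IsUnit (algebraMap ℂ (chart t0 i) b) := by
    apply IsUnit.map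
    exact isUnit_iff_ne_zero.2 hb0
  have e2 : vol6 (Y i) = (algebraMap ℂ (chart t0 i) b) • ((t0 i ^ 3)⁻¹ • g' • vol6 yy) := by
    have e3 : (algebraMap ℂ (chart t0 i) b) • ((t0 i ^ 3)⁻¹ • g' • vol6 yy) =
        (algebraMap ℂ KK b) • ((t0 i ^ 3)⁻¹ • g' • vol6 yy) := rfl
    rw [e3, hg i, e, hk, smul_smul, smul_smul]
    congr 1
    have h3 : t0 i ^ (-3 : ℤ) = (t0 i ^ 3)⁻¹ := by
      rw [zpow_neg]
      congr 1
    rw [h3]
    ring
  rw [h1, e2, Submodule.span_singleton_smul_eq hu]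

end Pool.Agent.Helper142.Lp.Fano_t0
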