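import Mathlib
import Pool.Agent.Helper142.Lp.Defs2

/-! Helper lemma zero_cone for MP_b7b3c1_ag. -/

set_option linter.all false

namespace Pool.Agent.Helper142.Lp.Zero_cone

open MvPolynomial Pool.Agent.Helper142.Lp

/-- TARGET: prove this. -/
theorem zero_cone : (0 : Fin 10 ⊕ Fin 10 → ℂ) ∈ cone t0 := by
  rintro F ⟨⟨d, hd⟩, hF⟩
  have h0 : MvPolynomial.eval (0 : Fin 10 ⊕ Fin 10 → ℂ) F = MvPolynomial.coeff 0 F := by
    rw [MvPolynomial.eval_zero, MvPolynomial.constantCoeff_eq]
  rw [h0]
  rcases Nat.eq_zero_or_pos d with rfl | hpos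
  · have h1 : F.totalDegree = 0 := (MvPolynomial.totalDegree_zero_iff_isHomogeneous _).2 hd
    rw [MvPolynomial.totalDegree_eq_zero_iff_eq_C] at h1
    rw [h1] at hF
    rw [MvPolynomial.aeval_C] at hF
    have hinj : Function.Injective (algebraMap ℂ KK) := (algebraMap ℂ KK).injective
    exact (map_eq_zero_iff _ hinj).1 hF
  · by_contra hne
    have := hd hne
    simp at this
    omega

end Pool.Agent.Helper142.Lp.Zero_cone
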