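import Mathlib
import Pool.Agent.Helper142.Lp.Defs2
import Pool.Agent.Helper142.Lp.Pts_cone
import Pool.Agent.Helper142.Lp.Zero_cone

/-! Helper lemma lam_cone for MP_b7b3c1_ag. -/

set_option linter.all false

namespace Pool.Agent.Helper142.Lp.Lam_cone

open MvPolynomial Pool.Agent.Helper142.Lp
open Pool.Agent.Helper142.Lp.Pts_cone Pool.Agent.Helper142.Lp.Zero_cone

theorem lam_cone_tt (p : Fin 3 → ℂ) :
    tt (!![0, p 0, 0; -p 2, p 1, 0; 0, 0, 0] : Matrix (Fin 3) (Fin 3) ℂ)
      (!![0, 0, 0; 0, 0, 0; 0, 0, 1]) = lam p := by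
  funext a
  rcases a with j | j
  · simp only [tt, lam, Sum.elim_inl, TT, Matrix.det_fin_three]
    simp [Matrix.mulVec, dotProduct, Fin.sum_univ_three]
    ring
  · simp only [tt, lam, Sum.elim_inr, TT, Matrix.det_fin_three]
    simp [Matrix.mulVec, dotProduct, Fin.sum_univ_three]
    ring

/-- TARGET: prove this. -/
theorem lam_cone (p : Fin 3 → ℂ) : lam p ∈ cone t0 := by
  by_cases hp : ∃ i, lam p i ≠ 0
  · obtain ⟨i, hi⟩ := hp
    rw [← lam_cone_tt]
    apply pts_cone _ _ _ i
    · rw [lam_cone_tt]; exact hi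
    · ext a b
      fin_cases a <;> fin_cases b <;> simp [Matrix.mul_apply, Fin.sum_univ_three]
  · push Not at hp
    have : lam p = 0 := funext hp
    rw [this]
    exact zero_cone

end Pool.Agent.Helper142.Lp.Lam_cone
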