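import Mathlib
import Pool.Agent.Helper142.Lp.Defs2

/-! Helper lemma lam_inj for MP_b7b3c1_ag. -/

set_option linter.all false

namespace Pool.Agent.Helper142.Lp.Lam_inj

open MvPolynomial Pool.Agent.Helper142.Lp

/-- TARGET: prove this. -/
theorem lam_inj : Function.Injective lamL := by
  intro p q h
  have key : ∀ j, lam p j = lam q j := fun j => congrFun h j
  have h5 := key (Sum.inl 5)
  have h7 := key (Sum.inl 7)
  have h9 := key (Sum.inl 9)
  simp [lam, vec, vecs] at h5 h7 h9
  funext i
  fin_cases i
  · simpa using h7
  · simp only [Fin.mk_one]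
    simp [h5, h7] at h9
    first
      | exact h9
      | (linear_combination h9)
  · simpa using h5

end Pool.Agent.Helper142.Lp.Lam_inj
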