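import Mathlib
import Pool.Agent.Helper142.Lp.Defs2

/-! Helper lemma tangent_curve for MP_b7b3c1_ag. -/

set_option linter.all false

namespace Pool.Agent.Helper142.Lp.Tangent_curve

open MvPolynomial Pool.Agent.Helper142.Lp

theorem tc_eval {ι : Type} (p : ι → Polynomial ℂ) (F : MvPolynomial ι ℂ) (s : ℂ) :
    (MvPolynomial.aeval p F).eval s = MvPolynomial.eval (fun j => (p j).eval s) F := by
  induction F using MvPolynomial.induction_on with
  | C a =>
    rw [MvPolynomial.aeval_C, MvPolynomial.eval_C]
    exact Polynomial.eval_C
  | add F G hF hG => rw [map_add, map_add, Polynomial.eval_add, hF, hG]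
  | mul_X F i hF =>
    rw [map_mul, map_mul, Polynomial.eval_mul, hF, MvPolynomial.aeval_X, MvPolynomial.eval_X]

theorem tc_deriv {ι : Type} [Fintype ι] (p : ι → Polynomial ℂ) (F : MvPolynomial ι ℂ) :
    Polynomial.derivative (MvPolynomial.aeval p F)
      = ∑ i, MvPolynomial.aeval p (MvPolynomial.pderiv i F) * Polynomial.derivative (p i) := by
  classical
  induction F using MvPolynomial.induction_on with
  | C a =>
    rw [MvPolynomial.aeval_C]
    have h : ∀ i : ι, MvPolynomial.aeval p (MvPolynomial.pderiv i (MvPolynomial.C a : MvPolynomial ι ℂ))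
        * Polynomial.derivative (p i) = 0 := by
      intro i
      rw [MvPolynomial.pderiv_C, map_zero, zero_mul]
    simp only [h, Finset.sum_const_zero]
    exact Polynomial.derivative_C
  | add F G hF hG =>
    simp only [map_add, hF, hG, add_mul, Finset.sum_add_distrib]
  | mul_X F j hF =>
    rw [map_mul, MvPolynomial.aeval_X, Polynomial.derivative_mul, hF, Finset.sum_mul]
    have h : ∀ i : ι, MvPolynomial.aeval p (MvPolynomial.pderiv i (F * MvPolynomial.X j))
        * Polynomial.derivative (p i)
        = MvPolynomial.aeval p (MvPolynomial.pderiv i F) * Polynomial.derivative (p i) * p j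
          + (if i = j then MvPolynomial.aeval p F * Polynomial.derivative (p j) else 0) := by
      intro i
      rw [Derivation.leibniz, MvPolynomial.pderiv_X]
      simp only [smul_eq_mul, map_add, map_mul, MvPolynomial.aeval_X]
      by_cases hij : i = j
      · subst hij
        rw [if_pos rfl, Pi.single_eq_same, map_one]
        ring
      · rw [if_neg hij, Pi.single_eq_of_ne (fun h' => hij h'.symm), map_zero]
        ring
    simp only [h, Finset.sum_add_distrib, Finset.sum_ite_eq', Finset.mem_univ, if_true]

/-- TARGET: prove this. -/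
theorem tangent_curve {ι K : Type} [Fintype ι] [Field K] [Algebra ℂ K] (t : ι → K)
    (p : ι → Polynomial ℂ) (hp : ∀ s : ℂ, (fun j => (p j).eval s) ∈ cone t) :
    (fun j => (p j).derivative.eval 0) ∈ tangent t (fun j => (p j).eval 0) := by
  intro F hF
  have hQ : MvPolynomial.aeval p F = 0 := by
    refine Polynomial.funext fun s => ?_
    rw [tc_eval, Polynomial.eval_zero]
    exact hp s F hF
  have h1 := tc_deriv p F
  rw [hQ, Polynomial.derivative_zero] at h1
  have h2 := congrArg (Polynomial.eval (0 : ℂ)) h1
  rw [Polynomial.eval_zero, Polynomial.eval_finsetSum] at h2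
  refine Eq.trans ?_ h2.symm
  refine Finset.sum_congr rfl fun i _ => ?_
  rw [Polynomial.eval_mul, tc_eval]

end Pool.Agent.Helper142.Lp.Tangent_curve
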