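import Mathlib
import Pool.Agent.Helper142.Lp.Defs2
import Pool.Agent.Helper142.Lp.Lam_cone
import Pool.Agent.Helper142.Lp.Tangent_curve

/-! Helper lemma lam_tangent for MP_b7b3c1_ag. -/

set_option linter.all false

namespace Pool.Agent.Helper142.Lp.Lam_tangent

open MvPolynomial Pool.Agent.Helper142.Lp
open Pool.Agent.Helper142.Lp.Lam_cone Pool.Agent.Helper142.Lp.Tangent_curve

/-- TARGET: prove this. -/
theorem lam_tangent (p r : Fin 3 → ℂ) : lam r ∈ tangent t0 (lam p) := by
  have hadd : ∀ s : ℂ, lam (p + s • r) = lam p + s • lam r := by
    intro s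
    have h := lamL.map_add p (s • r)
    rw [lamL.map_smul] at h
    exact h
  have h1 := tangent_curve t0
    (fun j => Polynomial.C (lam p j) + Polynomial.X * Polynomial.C (lam r j)) (by
      intro s
      have h2 : (fun j => (Polynomial.C (lam p j) + Polynomial.X * Polynomial.C (lam r j)).eval s)
          = lam (p + s • r) := by
        rw [hadd]
        funext j
        simp
        ring
      rw [h2]
      exact lam_cone _)
  have h3 : (fun j => (Polynomial.C (lam p j) + Polynomial.X * Polynomial.C (lam r j)).derivative.eval 0)
      = lam r := by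
    funext j
    simp
  have h4 : (fun j => (Polynomial.C (lam p j) + Polynomial.X * Polynomial.C (lam r j)).eval 0)
      = lam p := by
    funext j
    simp
  rw [h3, h4] at h1
  exact h1

end Pool.Agent.Helper142.Lp.Lam_tangent
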