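import Mathlib
import Pool.Agent.Helper142.Lp.Defs2
import Pool.Agent.Helper142.Lp.Chart_exists
import Pool.Agent.Helper142.Lp.Chart_eq
import Pool.Agent.Helper142.Lp.T0_ne
import Pool.Agent.Helper142.Lp.Homogenize
import Pool.Agent.Helper142.Lp.NA_NB_comm

/-! Helper lemma tangent_le for MP_b7b3c1_ag. -/

set_option linter.all false

namespace Pool.Agent.Helper142.Lp.Tangent_le

open MvPolynomial Pool.Agent.Helper142.Lp
open Pool.Agent.Helper142.Lp.Chart_exists Pool.Agent.Helper142.Lp.Chart_eq Pool.Agent.Helper142.Lp.T0_ne Pool.Agent.Helper142.Lp.Homogenize Pool.Agent.Helper142.Lp.NA_NB_comm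

theorem tl_dual {σ : Type} [Fintype σ] (F : MvPolynomial σ ℂ) (x u : σ → ℂ) :
    aeval (fun j => (TrivSqZeroExt.inl (x j) + TrivSqZeroExt.inr (u j) : DualNumber ℂ)) F
      = TrivSqZeroExt.inl (MvPolynomial.eval x F)
        + TrivSqZeroExt.inr (∑ i, MvPolynomial.eval x (MvPolynomial.pderiv i F) * u i) := by
  classical
  induction F using MvPolynomial.induction_on with
  | C a =>
    have ha : (algebraMap ℂ (DualNumber ℂ)) a = TrivSqZeroExt.inl a := rfl
    apply TrivSqZeroExt.ext
    · simp [ha]
    · simp [ha]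
  | add p q hp hq =>
    rw [map_add, hp, hq]
    apply TrivSqZeroExt.ext
    · simp
    · simp [add_mul, Finset.sum_add_distrib]
  | mul_X p n hp =>
    rw [map_mul, hp, aeval_X]
    apply TrivSqZeroExt.ext
    · simp
    · have h1 : ∀ i, MvPolynomial.eval x (pderiv i (p * X n)) * u i
          = x n * (MvPolynomial.eval x (pderiv i p) * u i)
            + (if i = n then MvPolynomial.eval x p * u i else 0) := by
        intro i
        rw [Derivation.leibniz, pderiv_X]
        by_cases h : i = n
        · subst h; simp; ring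
        · rw [if_neg h, Pi.single_eq_of_ne (Ne.symm h)]
          simp
          ring
      simp only [h1, Finset.sum_add_distrib, ← Finset.mul_sum, Finset.sum_ite_eq', Finset.mem_univ,
        if_true]
      simp
      ring

/-- TARGET: prove this. -/
theorem tangent_le (x : Fin 10 ⊕ Fin 10 → ℂ) (hx : x ∈ cone t0) (h0 : x ≠ 0) :
    Module.finrank ℂ (tangent t0 x) ≤ 7 := by
  classical
  obtain ⟨i, hi⟩ : ∃ i, x i ≠ 0 := by
    by_contra hcon
    push Not at hcon
    exact h0 (funext hcon)
  obtain ⟨P, c, hPc⟩ := chart_exists i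
  obtain ⟨y, hy1, hy2, hy3, hy4⟩ := chart_eq i P c hPc
  have hyk : ∀ k, y k = ∑ a, algebraMap ℂ KK (c k a) * aeval y (P a) := fun k => hPc.2 KK y k
  let W0 : Fin 6 → ℂ := fun k => ∑ b, c k b * (x b * (x i)⁻¹)
  let Φ : (Fin 6 → ℂ) × ℂ →ₗ[ℂ] (Fin 10 ⊕ Fin 10 → ℂ) :=
    { toFun := fun p a => p.2 * MvPolynomial.eval W0 (P a)
          + x i * ∑ k, MvPolynomial.eval W0 (pderiv k (P a)) * p.1 k
      map_add' := by
        intro p q; funext a
        simp only [Prod.snd_add, Prod.fst_add, Pi.add_apply, mul_add, add_mul, Finset.sum_add_distrib]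
        ring
      map_smul' := by
        intro r p; funext a
        simp only [Prod.smul_fst, Prod.smul_snd, Pi.smul_apply, smul_eq_mul, RingHom.id_apply]
        have : ∀ k, MvPolynomial.eval W0 (pderiv k (P a)) * (r * p.1 k)
            = r * (MvPolynomial.eval W0 (pderiv k (P a)) * p.1 k) := by intro k; ring
        simp only [this, ← Finset.mul_sum]
        ring }
  have hle : tangent t0 x ≤ LinearMap.range Φ := by
    intro u hu
    -- dual numbers
    let sd : DualNumber ℂ := TrivSqZeroExt.inl (x i) + TrivSqZeroExt.inr (u i)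
    let sd' : DualNumber ℂ := TrivSqZeroExt.inl ((x i)⁻¹) + TrivSqZeroExt.inr (-(u i) * ((x i)⁻¹ * (x i)⁻¹))
    have hss : sd * sd' = 1 := by
      apply TrivSqZeroExt.ext
      · simp [sd, sd', hi]
      · simp [sd, sd']
        field_simp
        ring
    let xe : Fin 10 ⊕ Fin 10 → DualNumber ℂ := fun j => TrivSqZeroExt.inl (x j) + TrivSqZeroExt.inr (u j)
    let z : Fin 10 ⊕ Fin 10 → DualNumber ℂ := fun j => xe j * sd'
    have hzi : z i = 1 := hss
    have hsz : (fun j => sd * z j) = xe := by
      funext j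
      show sd * (xe j * sd') = xe j
      calc sd * (xe j * sd') = (sd * sd') * xe j := by ring
        _ = xe j := by rw [hss, one_mul]
    let w : Fin 6 → DualNumber ℂ := fun k => ∑ b, algebraMap ℂ (DualNumber ℂ) (c k b) * z b
    have hw0 : ∀ k, (w k).fst = W0 k := by
      intro k
      simp only [w, W0, TrivSqZeroExt.fst_sum]
      refine Finset.sum_congr rfl fun b _ => ?_
      have ha : (algebraMap ℂ (DualNumber ℂ)) (c k b) = TrivSqZeroExt.inl (c k b) := rfl
      simp [z, xe, sd', ha]
    have hw : w = fun k => (TrivSqZeroExt.inl (W0 k) + TrivSqZeroExt.inr ((w k).snd) : DualNumber ℂ) := by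
      funext k
      apply TrivSqZeroExt.ext
      · simp [hw0]
      · simp
    have hza : ∀ a, z a = aeval w (P a) := by
      intro a
      let G : MvPolynomial (Fin 10 ⊕ Fin 10) ℂ :=
        X a - aeval (fun k => ∑ b, C (c k b) * X b) (P a)
      have hGe : ∀ (S : Type) [CommRing S] [Algebra ℂ S] (z : Fin 10 ⊕ Fin 10 → S),
          aeval z G = z a - aeval (fun k => ∑ b, algebraMap ℂ S (c k b) * z b) (P a) := by
        intro S _ _ z
        simp only [G, map_sub, aeval_X]
        congr 1
        rw [← AlgHom.comp_apply, MvPolynomial.comp_aeval]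
        congr 2
        funext k
        simp [map_sum, aeval_C]
      obtain ⟨d, F, hF, hFe⟩ := homogenize G i
      have hFv : F ∈ vanish t0 := by
        refine ⟨⟨d, hF⟩, ?_⟩
        have h1 := hFe KK (t0 i) (fun j => t0 j / t0 i) (div_self (t0_ne i))
        have h2 : (fun j => t0 i * (t0 j / t0 i)) = t0 := by
          funext j; rw [mul_div_cancel₀ _ (t0_ne i)]
        rw [h2] at h1
        rw [h1, hGe]
        have h3 : (fun k => ∑ b, algebraMap ℂ KK (c k b) * (t0 b / t0 i)) = y := by
          funext k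
          rw [hyk k]
          refine Finset.sum_congr rfl fun b _ => ?_
          rw [hy2]
        rw [h3, hy2, sub_self, mul_zero]
      have h4 : aeval xe F = 0 := by
        show aeval (fun j => (TrivSqZeroExt.inl (x j) + TrivSqZeroExt.inr (u j) : DualNumber ℂ)) F = 0
        rw [tl_dual, hx F hFv, hu F hFv]
        simp
      have h5 := hFe (DualNumber ℂ) sd z hzi
      rw [hsz, h4] at h5
      have h6 : aeval z G = 0 := by
        have : sd' ^ d * (sd ^ d * aeval z G) = 0 := by rw [← h5, mul_zero]
        have h7 : sd' ^ d * (sd ^ d * aeval z G) = aeval z G := by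
          rw [← mul_assoc, ← mul_pow, mul_comm sd' sd, hss, one_pow, one_mul]
        rw [← h7]; exact this
      rw [hGe] at h6
      exact sub_eq_zero.mp h6
    refine ⟨(fun k => (w k).snd, u i), ?_⟩
    funext a
    show u i * MvPolynomial.eval W0 (P a)
          + x i * ∑ k, MvPolynomial.eval W0 (pderiv k (P a)) * (w k).snd = u a
    have h8 : xe a = sd * aeval w (P a) := by
      rw [← hza a]; exact (congrFun hsz a).symm
    rw [hw, tl_dual] at h8
    have h9 := congrArg TrivSqZeroExt.snd h8
    simp [xe, sd] at h9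
    rw [h9]
    ring
  have h1 : Module.finrank ℂ (tangent t0 x) ≤ Module.finrank ℂ (LinearMap.range Φ) :=
    Submodule.finrank_mono hle
  have h2 : Module.finrank ℂ (LinearMap.range Φ) ≤ Module.finrank ℂ ((Fin 6 → ℂ) × ℂ) :=
    LinearMap.finrank_range_le Φ
  have h3 : Module.finrank ℂ ((Fin 6 → ℂ) × ℂ) = 7 := by simp
  omega

end Pool.Agent.Helper142.Lp.Tangent_le
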