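import Mathlib
import Pool.Agent.Helper142.Lp.Defs2

/-! Helper lemma xi_indep for MP_b7b3c1_ag. -/

set_option linter.all false

namespace Pool.Agent.Helper142.Lp.Xi_indep

open MvPolynomial Pool.Agent.Helper142.Lp

theorem xi_aux (x y p q s : ℂ) (h1 : x = 0 ∨ s = 0) (h2 : y = 0 ∨ p = 0)
    (h3 : (x + y) * (p + s - q) = 0) (h4 : (x - y) * (p + q + s) = 0)
    (h5 : ¬ (p = 0 ∧ q = 0 ∧ s = 0)) : x = 0 ∧ y = 0 := by
  by_cases hx : x = 0
  · refine ⟨hx, ?_⟩
    by_contra hy
    have hp := h2.resolve_left hy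
    subst hx hp
    have e3 := (mul_eq_zero.1 h3).resolve_left (by simpa using hy)
    have e4 := (mul_eq_zero.1 h4).resolve_left (by simpa using hy)
    exact h5 ⟨rfl, by linear_combination (e4 - e3) / 2, by linear_combination (e4 + e3) / 2⟩
  · exfalso
    have hs := h1.resolve_left hx
    subst hs
    by_cases hy : y = 0
    · subst hy
      have e3 := (mul_eq_zero.1 h3).resolve_left (by simpa using hx)
      have e4 := (mul_eq_zero.1 h4).resolve_left (by simpa using hx)
      exact h5 ⟨by linear_combination (e4 + e3) / 2, by linear_combination (e4 - e3) / 2, rfl⟩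
    · have hp := h2.resolve_left hy
      subst hp
      have hq : q ≠ 0 := fun hq => h5 ⟨rfl, hq, rfl⟩
      have e3 := (mul_eq_zero.1 h3).resolve_right (by simpa using hq)
      have e4 := (mul_eq_zero.1 h4).resolve_right (by simpa using hq)
      exact hx (by linear_combination (e3 + e4) / 2)

/-- TARGET: prove this. -/
theorem xi_indep (p : Fin 3 → ℂ) (hp : p ≠ 0) (b : Fin 4 → ℂ) (r : Fin 3 → ℂ)
    (h : ∑ e, b e • xi e p = lam r) : b = 0 := by
  have a0 := congrFun h (Sum.inl 0)
  have a1 := congrFun h (Sum.inl 1)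
  have a3 := congrFun h (Sum.inl 3)
  have a4 := congrFun h (Sum.inl 4)
  have c0 := congrFun h (Sum.inr 0)
  have c1 := congrFun h (Sum.inr 1)
  have c3 := congrFun h (Sum.inr 3)
  have c4 := congrFun h (Sum.inr 4)
  simp [xi, lam, vec, vecs, Fin.sum_univ_four] at a0 a1 a3 a4 c0 c1 c3 c4
  have hp' : ¬ (p 0 = 0 ∧ p 1 = 0 ∧ p 2 = 0) := by
    rintro ⟨h0, h1, h2⟩
    apply hp
    funext i
    fin_cases i
    · exact h0
    · exact h1
    · exact h2
  obtain ⟨e2, e3⟩ := xi_aux (b 2) (b 3) (p 0) (p 1) (p 2) a0 a1 (by linear_combination a3)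
    (by linear_combination a4) hp'
  obtain ⟨e0, e1⟩ := xi_aux (b 0) (b 1) (p 2) (-p 1) (p 0) c0 c1 (by linear_combination c3)
    (by linear_combination c4) (fun hh => hp' ⟨hh.2.2, neg_eq_zero.1 hh.2.1, hh.1⟩)
  funext i
  fin_cases i
  · exact e0
  · exact e1
  · exact e2
  · exact e3

end Pool.Agent.Helper142.Lp.Xi_indep
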