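import Mathlib
import Pool.Agent.Helper142.Lp.Defs2
import Pool.Agent.Helper142.Lp.Pts_cone
import Pool.Agent.Helper142.Lp.Zero_cone
import Pool.Agent.Helper142.Lp.Tangent_curve
import Pool.Agent.Helper142.Lp.TT_conj
import Pool.Agent.Helper142.Lp.TT_interp

/-! Helper lemma xi_tangent for MP_b7b3c1_ag. -/

set_option linter.all false

namespace Pool.Agent.Helper142.Lp.Xi_tangent

open MvPolynomial Pool.Agent.Helper142.Lp
open Pool.Agent.Helper142.Lp.Pts_cone Pool.Agent.Helper142.Lp.Zero_cone Pool.Agent.Helper142.Lp.Tangent_curve Pool.Agent.Helper142.Lp.TT_conj Pool.Agent.Helper142.Lp.TT_interp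

/-- matrix units -/
def XEm : Fin 4 → Matrix (Fin 3) (Fin 3) ℂ :=
  ![!![0, 0, 1; 0, 0, 0; 0, 0, 0], !![0, 0, 0; 0, 0, 1; 0, 0, 0], !![0, 0, 0; 0, 0, 0; 1, 0, 0],
    !![0, 0, 0; 0, 0, 0; 0, 1, 0]]

theorem XEm_sq (e : Fin 4) : XEm e * XEm e = 0 := by
  fin_cases e <;>
    (ext i j; fin_cases i <;> fin_cases j <;> simp [XEm, Matrix.mul_apply, Fin.sum_univ_three])

theorem XEm_det (e : Fin 4) (s : ℂ) : (1 + s • XEm e).det = 1 := by
  fin_cases e <;> simp [XEm, Matrix.det_fin_three]

theorem XEm_det' (e : Fin 4) (s : ℂ) : (1 - s • XEm e).det = 1 := by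
  have h := XEm_det e (-s)
  rwa [neg_smul, ← sub_eq_add_neg] at h

theorem XEm_mul (e : Fin 4) (s : ℂ) : (1 + s • XEm e) * (1 - s • XEm e) = 1 := by
  have h : (1 + s • XEm e) * (1 - s • XEm e) = 1 - (s * s) • (XEm e * XEm e) := by
    simp only [mul_sub, add_mul, one_mul, mul_one, Matrix.smul_mul, Matrix.mul_smul, smul_smul]
    abel
  rw [h, XEm_sq, smul_zero, sub_zero]

theorem XEm_mul' (e : Fin 4) (s : ℂ) : (1 - s • XEm e) * (1 + s • XEm e) = 1 := by
  have h : (1 - s • XEm e) * (1 + s • XEm e) = 1 - (s * s) • (XEm e * XEm e) := by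
    simp only [mul_add, sub_mul, one_mul, mul_one, Matrix.smul_mul, Matrix.mul_smul, smul_smul]
    abel
  rw [h, XEm_sq, smul_zero, sub_zero]

/-- base pair -/
def XA (p : Fin 3 → ℂ) : Matrix (Fin 3) (Fin 3) ℂ := !![0, p 0, 0; -p 2, p 1, 0; 0, 0, 0]
/-- base pair -/
def XB : Matrix (Fin 3) (Fin 3) ℂ := !![0, 0, 0; 0, 0, 0; 0, 0, 1]

theorem XAB_comm (p : Fin 3 → ℂ) : XA p * XB = XB * XA p := by
  ext i j
  fin_cases i <;> fin_cases j <;> simp [XA, XB, Matrix.mul_apply, Fin.sum_univ_three]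

theorem XTT (p w : Fin 3 → ℂ) :
    TT (XA p) XB w = w 2 * (- p 2 * w 0 ^ 2 + p 1 * w 0 * w 1 - p 0 * w 1 ^ 2) := by
  simp [TT, XA, XB, Matrix.det_fin_three, Matrix.mulVec, dotProduct, Fin.sum_univ_three]
  ring

theorem XTT' (p w : Fin 3 → ℂ) :
    TT (XA p).transpose XB.transpose w = w 2 * (p 0 * w 0 ^ 2 + p 1 * w 0 * w 1 + p 2 * w 1 ^ 2) := by
  simp [TT, XA, XB, Matrix.det_fin_three, Matrix.mulVec, dotProduct, Fin.sum_univ_three]
  ring

/-- direction -/
noncomputable def Xdl (e : Fin 4) (j : Fin 10) : Fin 3 → ℂ := (XEm e).mulVec (vec j)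
/-- direction -/
noncomputable def Xdr (e : Fin 4) (j : Fin 10) : Fin 3 → ℂ := (XEm e).transpose.mulVec (vec j)

/-- the curve -/
noncomputable def XP (e : Fin 4) (p : Fin 3 → ℂ) : Fin 10 ⊕ Fin 10 → Polynomial ℂ :=
  Sum.elim
    (fun j => (Polynomial.C (vec j 2) - Polynomial.X * Polynomial.C (Xdl e j 2)) *
      (- Polynomial.C (p 2) * (Polynomial.C (vec j 0) - Polynomial.X * Polynomial.C (Xdl e j 0)) ^ 2
        + Polynomial.C (p 1) * (Polynomial.C (vec j 0) - Polynomial.X * Polynomial.C (Xdl e j 0)) *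
          (Polynomial.C (vec j 1) - Polynomial.X * Polynomial.C (Xdl e j 1))
        - Polynomial.C (p 0) *
          (Polynomial.C (vec j 1) - Polynomial.X * Polynomial.C (Xdl e j 1)) ^ 2))
    (fun j => (Polynomial.C (vec j 2) + Polynomial.X * Polynomial.C (Xdr e j 2)) *
      (Polynomial.C (p 0) * (Polynomial.C (vec j 0) + Polynomial.X * Polynomial.C (Xdr e j 0)) ^ 2
        + Polynomial.C (p 1) * (Polynomial.C (vec j 0) + Polynomial.X * Polynomial.C (Xdr e j 0)) *
          (Polynomial.C (vec j 1) + Polynomial.X * Polynomial.C (Xdr e j 1))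
        + Polynomial.C (p 2) *
          (Polynomial.C (vec j 1) + Polynomial.X * Polynomial.C (Xdr e j 1)) ^ 2))

theorem XP_eval (e : Fin 4) (p : Fin 3 → ℂ) (s : ℂ) :
    (fun j => (XP e p j).eval s) = tt ((1 + s • XEm e) * XA p * (1 - s • XEm e))
      ((1 + s • XEm e) * XB * (1 - s • XEm e)) := by
  funext a
  rcases a with j | j
  · have h1 := TT_conj (XA p) XB (1 - s • XEm e) (1 + s • XEm e) (XEm_mul' e s)
      ((1 - s • XEm e).mulVec (vec j))
    rw [Matrix.mulVec_mulVec, XEm_mul, Matrix.one_mulVec, XEm_det, one_mul, XTT,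
      Matrix.sub_mulVec, Matrix.one_mulVec, Matrix.smul_mulVec] at h1
    change _ = TT _ _ (vec j)
    rw [h1]
    simp [XP, Xdl]
    ring
  · have h1 := TT_conj (XA p).transpose XB.transpose (1 + s • XEm e).transpose
      (1 - s • XEm e).transpose (by rw [← Matrix.transpose_mul, XEm_mul', Matrix.transpose_one])
      ((1 + s • XEm e).transpose.mulVec (vec j))
    have htr : (1 - s • XEm e).transpose * (1 + s • XEm e).transpose = 1 := by
      rw [← Matrix.transpose_mul, XEm_mul, Matrix.transpose_one]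
    rw [Matrix.mulVec_mulVec, htr, Matrix.one_mulVec, Matrix.det_transpose, XEm_det', one_mul, XTT',
      Matrix.transpose_add, Matrix.transpose_one, Matrix.transpose_smul,
      Matrix.add_mulVec, Matrix.one_mulVec, Matrix.smul_mulVec] at h1
    have h2 : ∀ M : Matrix (Fin 3) (Fin 3) ℂ,
        ((1 + s • XEm e) * M * (1 - s • XEm e)).transpose =
        (1 - s • XEm e).transpose * M.transpose * (1 + s • (XEm e).transpose) := by
      intro M
      rw [Matrix.transpose_mul, Matrix.transpose_mul, Matrix.transpose_add, Matrix.transpose_one,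
        Matrix.transpose_smul, ← mul_assoc]
    change _ = TT ((1 + s • XEm e) * XA p * (1 - s • XEm e)).transpose
      ((1 + s • XEm e) * XB * (1 - s • XEm e)).transpose (vec j)
    rw [h2, h2, h1]
    simp [XP, Xdr]
    ring

theorem XP_zero (e : Fin 4) (p : Fin 3 → ℂ) : (fun j => (XP e p j).eval 0) = lam p := by
  funext a
  rcases a with j | j <;> simp [XP, lam]

theorem XP_deriv (e : Fin 4) (p : Fin 3 → ℂ) :
    (fun j => (XP e p j).derivative.eval 0) = xi e p := by
  funext a
  rcases a with j | j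
  · simp only [XP, xi, Sum.elim_inl]
    fin_cases e <;>
    · simp [Polynomial.derivative_pow, Xdl, XEm, Matrix.mulVec, dotProduct, Fin.sum_univ_three]
      try ring
  · simp only [XP, xi, Sum.elim_inr]
    fin_cases e <;>
    · simp [Polynomial.derivative_pow, Xdr, XEm, Matrix.mulVec, dotProduct, Fin.sum_univ_three]
      try ring

/-- TARGET: prove this. -/
theorem xi_tangent (e : Fin 4) (p : Fin 3 → ℂ) : xi e p ∈ tangent t0 (lam p) := by
  by_cases hp : p = 0
  · have h0 : xi e p = 0 := by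
      funext a
      rcases a with j | j
      · simp only [xi, hp, Sum.elim_inl]
        fin_cases e <;> simp
      · simp only [xi, hp, Sum.elim_inr]
        fin_cases e <;> simp
    rw [h0]
    exact Submodule.zero_mem _
  · rw [← XP_zero e p, ← XP_deriv e p]
    refine tangent_curve t0 (XP e p) (fun s => ?_)
    rw [XP_eval]
    have hcomm : ((1 + s • XEm e) * XA p * (1 - s • XEm e)) *
        ((1 + s • XEm e) * XB * (1 - s • XEm e)) =
        ((1 + s • XEm e) * XB * (1 - s • XEm e)) *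
        ((1 + s • XEm e) * XA p * (1 - s • XEm e)) := by
      have h1 : ∀ M N : Matrix (Fin 3) (Fin 3) ℂ,
          ((1 + s • XEm e) * M * (1 - s • XEm e)) * ((1 + s • XEm e) * N * (1 - s • XEm e)) =
          (1 + s • XEm e) * (M * N) * (1 - s • XEm e) := by
        intro M N
        calc _ = (1 + s • XEm e) * M * ((1 - s • XEm e) * (1 + s • XEm e)) * N *
              (1 - s • XEm e) := by simp only [mul_assoc]
          _ = _ := by rw [XEm_mul', mul_one]; simp only [mul_assoc]
      rw [h1, h1, XAB_comm]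
    by_cases hall : ∀ i, tt ((1 + s • XEm e) * XA p * (1 - s • XEm e))
      ((1 + s • XEm e) * XB * (1 - s • XEm e)) i = 0
    · exfalso
      apply hp
      have h2 : ∀ w : Fin 3 → ℂ, TT ((1 + s • XEm e) * XA p * (1 - s • XEm e))
          ((1 + s • XEm e) * XB * (1 - s • XEm e)) w = 0 := by
        intro w
        obtain ⟨l, hl⟩ := TT_interp w
        have h3 := hl ℂ ((1 + s • XEm e) * XA p * (1 - s • XEm e))
          ((1 + s • XEm e) * XB * (1 - s • XEm e))
        have h4 : (fun a => algebraMap ℂ ℂ (w a)) = w := rfl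
        rw [h4] at h3
        rw [h3]
        refine Finset.sum_eq_zero fun j _ => ?_
        have h5 : TT ((1 + s • XEm e) * XA p * (1 - s • XEm e))
          ((1 + s • XEm e) * XB * (1 - s • XEm e)) (vec j) = 0 := hall (Sum.inl j)
        rw [h5, mul_zero]
      have h6 : ∀ w : Fin 3 → ℂ,
          w 2 * (- p 2 * w 0 ^ 2 + p 1 * w 0 * w 1 - p 0 * w 1 ^ 2) = 0 := by
        intro w
        have h7 := TT_conj (XA p) XB (1 - s • XEm e) (1 + s • XEm e) (XEm_mul' e s) w
        rw [h2, XEm_det, one_mul, XTT] at h7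
        exact h7.symm
      have k1 := h6 ![1, 0, 1]
      have k2 := h6 ![0, 1, 1]
      have k3 := h6 ![1, 1, 1]
      simp at k1 k2 k3
      rw [k1, k2] at k3
      simp at k3
      funext i
      fin_cases i
      · exact k2
      · exact k3
      · exact k1
    · push Not at hall
      obtain ⟨i, hi⟩ := hall
      exact pts_cone _ _ hcomm i hi

end Pool.Agent.Helper142.Lp.Xi_tangent
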