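import Mathlib
import Pool.Agent.Helper142.Lp.Defs2
import Pool.Agent.Helper142.Lp.Lam_inj
import Pool.Agent.Helper142.Lp.Lam_cone
import Pool.Agent.Helper142.Lp.Lam_tangent
import Pool.Agent.Helper142.Lp.Xi_tangent
import Pool.Agent.Helper142.Lp.Xi_indep
import Pool.Agent.Helper142.Lp.Tangent_le

/-! Helper lemma normal_trivial for MP_b7b3c1_ag. -/

set_option linter.all false

namespace Pool.Agent.Helper142.Lp.Normal_trivial

open MvPolynomial Pool.Agent.Helper142.Lp
open Pool.Agent.Helper142.Lp.Lam_inj Pool.Agent.Helper142.Lp.Lam_cone Pool.Agent.Helper142.Lp.Lam_tangent Pool.Agent.Helper142.Lp.Xi_tangent Pool.Agent.Helper142.Lp.Xi_indep Pool.Agent.Helper142.Lp.Tangent_le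

/-- `xi e` as a linear map. -/
def normal_trivial_xiL (e : Fin 4) : (Fin 3 → ℂ) →ₗ[ℂ] (Fin 10 ⊕ Fin 10 → ℂ) where
  toFun := xi e
  map_add' := by
    intro p q
    funext a
    rcases a with j | j <;> fin_cases e <;> simp [xi] <;> ring
  map_smul' := by
    intro r p
    funext a
    rcases a with j | j <;> fin_cases e <;> simp [xi] <;> ring

theorem normal_trivial_dim (p : Fin 3 → ℂ) (hp : p ≠ 0) :
    Module.finrank ℂ ((tangent t0 (lam p)).map (LinearMap.range lamL).mkQ) ≤ 4 := by
  have h0 : lam p ≠ 0 := by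
    intro h
    apply hp
    apply lam_inj
    rw [map_zero]
    exact h
  have h7 := tangent_le (lam p) (lam_cone p) h0
  have hL : LinearMap.range lamL ≤ tangent t0 (lam p) := by
    rintro _ ⟨r, rfl⟩
    exact lam_tangent p r
  have h3 : Module.finrank ℂ (LinearMap.range lamL) = 3 := by
    rw [LinearMap.finrank_range_of_inj lam_inj]
    simp
  set T := tangent t0 (lam p) with hT
  set L := LinearMap.range lamL with hLd
  have h1 := LinearMap.finrank_range_add_finrank_ker (L.mkQ.domRestrict T)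
  have h2 : LinearMap.range (L.mkQ.domRestrict T) = T.map L.mkQ := LinearMap.range_domRestrict _ _
  have h4 : LinearMap.ker (L.mkQ.domRestrict T) = L.comap T.subtype := by
    ext y
    simp
  have h5 : Module.finrank ℂ (L.comap T.subtype) = 3 := by
    rw [← h3]
    exact LinearEquiv.finrank_eq (Submodule.comapSubtypeEquivOfLe hL)
  rw [h2, h4, h5] at h1
  omega


/-- TARGET: prove this. -/
theorem normal_trivial : TrivialNormal t0 (LinearMap.range lamL) 4 := by
  let ψ : (Fin 3 → ℂ) ≃ₗ[ℂ] LinearMap.range lamL := LinearEquiv.ofInjective lamL lam_inj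
  refine ⟨fun e => ((LinearMap.range lamL).mkQ ∘ₗ normal_trivial_xiL e) ∘ₗ ψ.symm.toLinearMap, ?_⟩
  intro x hx
  obtain ⟨p, rfl⟩ := ψ.surjective x
  have hp : p ≠ 0 := by
    rintro rfl
    exact hx (map_zero ψ)
  have hcoe : ((ψ p : LinearMap.range lamL) : Fin 10 ⊕ Fin 10 → ℂ) = lam p := rfl
  have hA : ∀ e, (((LinearMap.range lamL).mkQ ∘ₗ normal_trivial_xiL e) ∘ₗ ψ.symm.toLinearMap) (ψ p)
      = (LinearMap.range lamL).mkQ (xi e p) := by
    intro e
    simp only [LinearMap.coe_comp, Function.comp_apply, LinearEquiv.coe_coe,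
      LinearEquiv.symm_apply_apply]
    rfl
  simp only [hA]
  rw [hcoe]
  have hli : LinearIndependent ℂ (fun e => (LinearMap.range lamL).mkQ (xi e p)) := by
    rw [Fintype.linearIndependent_iff]
    intro g hg
    have h1 : (LinearMap.range lamL).mkQ (∑ e, g e • xi e p) = 0 := by
      rw [map_sum]
      simpa only [map_smul] using hg
    rw [Submodule.mkQ_apply, Submodule.Quotient.mk_eq_zero] at h1
    obtain ⟨r, hr⟩ := h1
    have h2 := xi_indep p hp g r hr.symm
    intro i
    rw [h2]
    rfl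
  refine ⟨hli, ?_⟩
  refine Submodule.eq_of_le_of_finrank_le ?_ ?_
  · rw [Submodule.span_le]
    rintro _ ⟨e, rfl⟩
    exact ⟨xi e p, xi_tangent e p, rfl⟩
  · rw [finrank_span_eq_card hli]
    simpa using normal_trivial_dim p hp

end Pool.Agent.Helper142.Lp.Normal_trivial
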