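import Mathlib
import Pool.Agent.Helper142.Lp.Defs2

/-! Helper lemma inv_principal for MP_b7b3c1_ag. -/

set_option linter.all false

namespace Pool.Agent.Helper142.Lp.Inv_principal

open MvPolynomial Pool.Agent.Helper142.Lp

/-- TARGET: prove this. -/
theorem inv_principal {K : Type} [Field K] [Algebra ℂ K] (y : Fin 6 → K)
    (hy : AlgebraicIndependent ℂ y) (hg : IntermediateField.adjoin ℂ (Set.range y) = ⊤)
    (S : Subalgebra ℂ K) (hS : S = Algebra.adjoin ℂ (Set.range y))
    (J : Submodule S K) (hJ : IsUnit J) : ∃ g : K, g ≠ 0 ∧ J = Submodule.span S {g} := by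
  subst hS
  haveI hufd : UniqueFactorizationMonoid (Algebra.adjoin ℂ (Set.range y)) :=
    hy.aevalEquiv.toMulEquiv.uniqueFactorizationMonoid inferInstance
  haveI hfrac : IsFractionRing (Algebra.adjoin ℂ (Set.range y)) K := by
    refine IsFractionRing.of_field _ _ fun z => ?_
    have hz : z ∈ IntermediateField.adjoin ℂ (Set.range y) := by rw [hg]; exact IntermediateField.mem_top
    obtain ⟨r, hr, s, hs, hrs⟩ := IntermediateField.mem_adjoin_iff_div.1 hz
    exact ⟨⟨r, hr⟩, ⟨s, hs⟩, hrs⟩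
  obtain ⟨u, rfl⟩ := hJ
  let I : (FractionalIdeal (nonZeroDivisors (Algebra.adjoin ℂ (Set.range y))) K)ˣ :=
    FractionalIdeal.unitsMulEquivSubmodule.symm u
  have h1 : ((I : FractionalIdeal (nonZeroDivisors (Algebra.adjoin ℂ (Set.range y))) K) :
      Submodule (Algebra.adjoin ℂ (Set.range y)) K).IsPrincipal :=
    ClassGroup.isPrincipal_coeSubmodule_of_isUnit _ I.isUnit
  have h2 : ((I : FractionalIdeal (nonZeroDivisors (Algebra.adjoin ℂ (Set.range y))) K) :
      Submodule (Algebra.adjoin ℂ (Set.range y)) K) = u := rfl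
  rw [h2] at h1
  obtain ⟨g, hg'⟩ := h1.principal
  refine ⟨g, ?_, hg'⟩
  rintro rfl
  rw [Submodule.span_zero_singleton] at hg'
  have h3 := u.mul_inv
  rw [hg', Submodule.bot_mul] at h3
  have h4 : (1 : K) ∈ (1 : Submodule (Algebra.adjoin ℂ (Set.range y)) K) := Submodule.one_le.1 le_rfl
  rw [← h3, Submodule.mem_bot] at h4
  exact one_ne_zero h4

end Pool.Agent.Helper142.Lp.Inv_principal
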