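import Mathlib
import Pool.Agent.Helper142.Lp.Defs2

/-! Helper lemma span_gen for MP_b7b3c1_ag. -/

set_option linter.all false

namespace Pool.Agent.Helper142.Lp.Span_gen

open MvPolynomial Pool.Agent.Helper142.Lp

theorem span_gen_aux {K : Type} [Field K] [Algebra ℂ K] (S T U : Subalgebra ℂ K)
    (hTU : T ≤ U) (g g' : K) (hg' : g' ≠ 0)
    (h : Submodule.span U ((Submodule.span S {g} : Submodule S K) : Set K) =
      Submodule.span U ((Submodule.span T {g'} : Submodule T K) : Set K)) :
    g / g' ∈ U := by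
  have h1 : g ∈ Submodule.span U ((Submodule.span S {g} : Submodule S K) : Set K) :=
    Submodule.subset_span (Submodule.mem_span_singleton_self g)
  rw [h] at h1
  have h2 : Submodule.span U ((Submodule.span T {g'} : Submodule T K) : Set K) ≤
      Submodule.span U {g'} := by
    rw [Submodule.span_le]
    intro x hx
    obtain ⟨t, ht⟩ := Submodule.mem_span_singleton.1 hx
    apply Submodule.mem_span_singleton.2
    refine ⟨⟨(t : K), hTU t.2⟩, ?_⟩
    rw [← ht]
    rfl
  obtain ⟨u, hu⟩ := Submodule.mem_span_singleton.1 (h2 h1)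
  have h3 : (u : K) * g' = g := hu
  rw [← h3, mul_div_cancel_right₀ _ hg']
  exact u.2

/-- TARGET: prove this. -/
theorem span_gen {K : Type} [Field K] [Algebra ℂ K] (S T U : Subalgebra ℂ K) (hST : S ≤ U)
    (hTU : T ≤ U) (g g' : K) (hg : g ≠ 0) (hg' : g' ≠ 0)
    (h : Submodule.span U ((Submodule.span S {g} : Submodule S K) : Set K) =
      Submodule.span U ((Submodule.span T {g'} : Submodule T K) : Set K)) :
    g / g' ∈ U ∧ (g / g')⁻¹ ∈ U := by
  refine ⟨span_gen_aux S T U hTU g g' hg' h, ?_⟩
  rw [inv_div]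
  exact span_gen_aux T S U hST g' g hg h.symm

end Pool.Agent.Helper142.Lp.Span_gen
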