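import Mathlib
import Pool.Agent.Helper142.Lp.Defs2
import Pool.Agent.Helper142.Lp.Chart_exists
import Pool.Agent.Helper142.Lp.Chart_eq
import Pool.Agent.Helper142.Lp.Inv_principal
import Pool.Agent.Helper142.Lp.Span_gen
import Pool.Agent.Helper142.Lp.Gens_agree

/-! Helper lemma pic_t0 for MP_b7b3c1_ag. -/

set_option linter.all false

namespace Pool.Agent.Helper142.Lp.Pic_t0

open MvPolynomial Pool.Agent.Helper142.Lp
open Pool.Agent.Helper142.Lp.Chart_exists Pool.Agent.Helper142.Lp.Chart_eq Pool.Agent.Helper142.Lp.Inv_principal Pool.Agent.Helper142.Lp.Span_gen Pool.Agent.Helper142.Lp.Gens_agree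

/-- TARGET: prove this. -/
theorem pic_t0 : PicIsZ t0 := by
  intro J hJ hcomp
  have h : ∀ i, ∃ g : KK, g ≠ 0 ∧ J i = Submodule.span (chart t0 i) {g} := by
    intro i
    obtain ⟨P, c, hd⟩ := chart_exists i
    obtain ⟨y, hy, -, hS, hg⟩ := chart_eq i P c hd
    exact inv_principal y hy hg (chart t0 i) hS (J i) (hJ i)
  choose g hg hgJ using h
  have h1 : ∀ i j, g i / g j ∈ chart t0 i ⊔ chart t0 j := by
    intro i j
    have h2 := hcomp i j
    rw [hgJ i, hgJ j] at h2
    exact (span_gen _ _ _ le_sup_left le_sup_right (g i) (g j) (hg i) (hg j) h2).1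
  obtain ⟨g', k, hg', hk⟩ := gens_agree g hg h1
  refine ⟨g', hg', k, fun i => ?_⟩
  obtain ⟨b, hb, hbi⟩ := hk i
  rw [hgJ i, hbi]
  have hu : IsUnit (algebraMap ℂ (chart t0 i) b) := (IsUnit.mk0 b hb).map _
  have h3 := Submodule.span_singleton_smul_eq hu (g' * t0 i ^ k)
  have h4 : (algebraMap ℂ (chart t0 i) b) • (g' * t0 i ^ k)
      = algebraMap ℂ KK b * (g' * t0 i ^ k) := rfl
  rw [h4] at h3
  exact h3

end Pool.Agent.Helper142.Lp.Pic_t0
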