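import Mathlib
import Pool.Agent.Helper142.Lp.Defs2
import Pool.Agent.Helper142.Lp.Chart_exists
import Pool.Agent.Helper142.Lp.Chart_eq

/-! Helper lemma smooth_t0 for MP_b7b3c1_ag. -/

set_option linter.all false

namespace Pool.Agent.Helper142.Lp.Smooth_t0

open MvPolynomial Pool.Agent.Helper142.Lp
open Pool.Agent.Helper142.Lp.Chart_exists Pool.Agent.Helper142.Lp.Chart_eq

/-- TARGET: prove this. -/
theorem smooth_t0 (i : Fin 10 ⊕ Fin 10) : Algebra.Smooth ℂ (chart t0 i) := by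
  obtain ⟨P, c, h⟩ := chart_exists i
  obtain ⟨y, hy, _, hc, _⟩ := chart_eq i P c h
  rw [hc]
  have h1 : Algebra.FormallySmooth ℂ (MvPolynomial (Fin 6) ℂ) := inferInstance
  have h2 : Algebra.FinitePresentation ℂ (MvPolynomial (Fin 6) ℂ) :=
    Algebra.FinitePresentation.mvPolynomial ℂ ℂ (Fin 6)
  have h3 : Algebra.Smooth ℂ (MvPolynomial (Fin 6) ℂ) := ⟨h1, h2⟩
  exact Algebra.Smooth.of_equiv hy.aevalEquiv

end Pool.Agent.Helper142.Lp.Smooth_t0
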