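import Mathlib
import Pool.Agent.Helper142.Lp.Defs

/-!
# Fano manifolds of Picard number one and linear subspaces with trivial normal bundle

A closed integral subvariety `X` of the projective space `ℙ^N` over `ℂ` (homogeneous coordinates
indexed by a finite type `ι`) is given by the homogeneous coordinates `t : ι → K` of its generic
point, where `K` is the function field of `X`.  `vanish t`, `cone t`, `chart t i` and
`tangent t x` are defined in `Pool.Agent.Helper142.Lp.Defs`.
-/

namespace Pool.Agent.Helper142.Lp.St

open MvPolynomial Pool.Agent.Helper142.Lp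

variable {ι K : Type} [Field K] [Algebra ℂ K]

/-- The coordinate ring of the intersection of two standard charts of `X`. -/
def overlap (t : ι → K) (i j : ι) : Subalgebra ℂ K := chart t i ⊔ chart t j

/-- The principal fractional ideal `g R_i` of the coordinate ring `R_i` of a chart. -/
def principal (t : ι → K) (i : ι) (g : K) : Submodule (chart t i) K :=
  Submodule.span (chart t i) {g}

/-- The restriction to the overlap of the charts `i`, `j` of a fractional ideal on the chart
`l` (used for `l = i` and `l = j`). -/
def restrict (t : ι → K) (i j l : ι) (J : Submodule (chart t l) K) :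
    Submodule (overlap t i j) K :=
  Submodule.span (overlap t i j) (J : Set K)

/-- A line bundle on `X`: invertible fractional ideals of the chart rings that agree on all
overlaps. -/
structure IsLineBundle (t : ι → K) (J : (i : ι) → Submodule (chart t i) K) : Prop where
  inv : ∀ i, IsUnit (J i)
  compat : ∀ i j, restrict t i j i (J i) = restrict t i j j (J j)

/-- The line bundle `J` is isomorphic to `O_X(k)`. -/
def IsoTwist (t : ι → K) (k : ℤ) (J : (i : ι) → Submodule (chart t i) K) : Prop :=
  ∃ g : K, g ≠ 0 ∧ ∀ i, J i = principal t i (g * t i ^ k)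

/-- The canonical sheaf of `X` on the chart `i`, divided by the rational `n`-form dual to the
basis `D` of the `K`-vector space of derivations of `K`: it is generated by the
`df_1 ∧ … ∧ df_n = det (D_k f_a)`, `f_a ∈ R_i`. -/
noncomputable def canonical {n : ℕ} (t : ι → K) (D : Fin n → Derivation ℂ K K) (i : ι) :
    Submodule (chart t i) K :=
  Submodule.span (chart t i) (Set.range fun f : Fin n → chart t i =>
    Matrix.det (Matrix.of fun k a => D k (f a : K)))

/-- `X` is an `n`-dimensional Fano manifold of Picard number one. -/
structure IsFanoPicOne (t : ι → K) (n : ℕ) : Prop where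
  ne_zero : ∀ i, t i ≠ 0
  functionField : IntermediateField.adjoin ℂ (Set.range fun p : ι × ι => t p.1 / t p.2) = ⊤
  dim : Algebra.trdeg ℂ K = n
  smooth : ∀ i, Algebra.Smooth ℂ (chart t i)
  pic : ∀ J : (i : ι) → Submodule (chart t i) K, IsLineBundle t J → ∃ k : ℤ, IsoTwist t k J
  fano : ∃ D : Fin n → Derivation ℂ K K, LinearIndependent K D ∧
    ∃ r : ℤ, 0 < r ∧ IsoTwist t (-r) (canonical t D)

/-- The fibre at `x` of the normal bundle of `ℙ(L)` in `X` (up to the twist by the dual of the
line `ℂ x`): the affine tangent space of `X` at `x` modulo `L`. -/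
def normalFibre [Fintype ι] (t : ι → K) (L : Submodule ℂ (ι → ℂ)) (x : ι → ℂ) :
    Submodule ℂ ((ι → ℂ) ⧸ L) :=
  (tangent t x).map L.mkQ

/-- A global section of the normal bundle of `ℙ(L)` in `X`: a linear map `L → V/L` (that is, a
global section of the normal bundle of `ℙ(L)` in the projective space `ℙ(V)`) whose value at
every point lies in the normal fibre. -/
structure NormalSection [Fintype ι] (t : ι → K) (L : Submodule ℂ (ι → ℂ)) where
  toMap : L →ₗ[ℂ] ((ι → ℂ) ⧸ L)
  mem : ∀ x : L, toMap x ∈ normalFibre t L x

/-- The vectors `v` form a basis of the fibre of the normal bundle at `x`. -/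
structure IsFrame [Fintype ι] (t : ι → K) (L : Submodule ℂ (ι → ℂ)) (x : ι → ℂ) {r : ℕ}
    (v : Fin r → (ι → ℂ) ⧸ L) : Prop where
  indep : LinearIndependent ℂ v
  span : Submodule.span ℂ (Set.range v) = normalFibre t L x

/-- The normal bundle of the linear subspace `ℙ(L)` of `X` is trivial of rank `r`: it has `r`
global sections that form a basis of the fibre at every point. -/
def TrivialNormal [Fintype ι] (t : ι → K) (L : Submodule ℂ (ι → ℂ)) (r : ℕ) : Prop :=
  ∃ A : Fin r → NormalSection t L, ∀ x : L, x ≠ 0 → IsFrame t L x (fun a => (A a).toMap x)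

end Pool.Agent.Helper142.Lp.St
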