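import Mathlib
import Pool.Agent.Helper142.Lp.Statement
import Pool.Agent.Helper142.Lp.T0_ne
import Pool.Agent.Helper142.Lp.T0_gen
import Pool.Agent.Helper142.Lp.T0_vals
import Pool.Agent.Helper142.Lp.Chart0
import Pool.Agent.Helper142.Lp.Trdeg_KK
import Pool.Agent.Helper142.Lp.Smooth_t0
import Pool.Agent.Helper142.Lp.Fano_t0
import Pool.Agent.Helper142.Lp.Pic_t0
import Pool.Agent.Helper142.Lp.Normal_trivial
import Pool.Agent.Helper142.Lp.Der_exists
import Pool.Agent.Helper142.Lp.Det_form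

/-! Assembly of the hand-in for MP_b7b3c1_ag. -/

set_option linter.all false

namespace Pool.Agent.Helper142.Lp.Final

open MvPolynomial Pool.Agent.Helper142.Lp

theorem pic' (J : (i : Fin 10 ⊕ Fin 10) → Submodule (chart t0 i) KK) (hJ : St.IsLineBundle t0 J) :
    ∃ k : ℤ, St.IsoTwist t0 k J := by
  obtain ⟨g, hg, k, hk⟩ := Pic_t0.pic_t0 J hJ.inv hJ.compat
  exact ⟨k, g, hg, hk⟩

theorem lin_indep (D : Fin 6 → Derivation ℂ KK KK)
    (hD : ∀ k j, D k (yy j) = if k = j then 1 else 0) : LinearIndependent KK D := by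
  rw [Fintype.linearIndependent_iff]
  intro c hc j
  have h := congrArg (fun E : Derivation ℂ KK KK => E (yy j)) hc
  simp only [Derivation.coe_zero, Pi.zero_apply] at h
  have h2 : (∑ k, c k • D k) (yy j) = ∑ k, c k * D k (yy j) := by
    have : ∀ s : Finset (Fin 6), (∑ k ∈ s, c k • D k) (yy j) = ∑ k ∈ s, c k * D k (yy j) := by
      intro s
      induction s using Finset.induction_on with
      | empty => simp
      | insert a s ha ih =>
        rw [Finset.sum_insert ha, Finset.sum_insert ha, Derivation.add_apply, ih,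
          Derivation.smul_apply, smul_eq_mul]
    exact this _
  rw [h2] at h
  simpa [hD] using h

theorem fano' : ∃ D : Fin 6 → Derivation ℂ KK KK, LinearIndependent KK D ∧
    ∃ r : ℤ, 0 < r ∧ St.IsoTwist t0 (-r) (St.canonical t0 D) := by
  obtain ⟨D, hD⟩ := Der_exists.der_exists
  obtain ⟨φ, hφ⟩ := Det_form.det_form D
  obtain ⟨r, hr, ω, hω, hc⟩ := Fano_t0.fano_t0
  refine ⟨D, lin_indep D hD, r, by exact_mod_cast hr, φ ω, ?_, ?_⟩
  · -- `φ ω ≠ 0`
    intro h0
    have h1 := hc (Sum.inl 0)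
    have hmem : ∀ a : Fin 6, yy a ∈ chart t0 (Sum.inl 0) := by
      intro a
      rw [Chart0.chart0]
      exact Algebra.subset_adjoin ⟨a, rfl⟩
    have h2 : exteriorPower.ιMulti KK 6 (fun a => KaehlerDifferential.D ℂ KK (yy a)) ∈
        canon t0 6 (Sum.inl 0) :=
      Submodule.subset_span ⟨fun a => ⟨yy a, hmem a⟩, rfl⟩
    rw [h1, Submodule.mem_span_singleton] at h2
    obtain ⟨c, hc'⟩ := h2
    have h3 := congrArg φ hc'
    have h4 : φ (c • ((t0 (Sum.inl 0) ^ r)⁻¹ • ω)) =
        (c : KK) * ((t0 (Sum.inl 0) ^ r)⁻¹ * φ ω) := by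
      rw [Subalgebra.smul_def, LinearMap.map_smul, LinearMap.map_smul, smul_eq_mul, smul_eq_mul]
    rw [h4, h0, mul_zero, mul_zero, hφ] at h3
    have h5 : (Matrix.of fun k a => D k (yy a)) = (1 : Matrix (Fin 6) (Fin 6) KK) := by
      ext k a
      rw [Matrix.of_apply, hD, Matrix.one_apply]
    rw [h5, Matrix.det_one] at h3
    exact zero_ne_one h3
  · intro i
    let ψ : (⋀[KK]^6 (Ω[KK⁄ℂ])) →ₗ[chart t0 i] KK := φ.restrictScalars (chart t0 i)
    have hψ : ∀ x, ψ x = φ x := fun x => rfl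
    have h1 := congrArg (Submodule.map ψ) (hc i)
    unfold canon at h1
    rw [Submodule.map_span, Submodule.map_span, Set.image_singleton, ← Set.range_comp] at h1
    have h2 : (⇑ψ ∘ fun f : Fin 6 → chart t0 i =>
        exteriorPower.ιMulti KK 6 (fun a => KaehlerDifferential.D ℂ KK (f a : KK))) =
        fun f : Fin 6 → chart t0 i => Matrix.det (Matrix.of fun k a => D k (f a : KK)) := by
      funext f
      exact hφ _
    rw [h2] at h1
    have h3 : ψ ((t0 i ^ r)⁻¹ • ω) = φ ω * t0 i ^ (-(r : ℤ)) := by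
      rw [hψ, LinearMap.map_smul, smul_eq_mul, mul_comm, zpow_neg, zpow_natCast]
    rw [h3] at h1
    exact h1

theorem normal' : St.TrivialNormal t0 (LinearMap.range lamL) 4 := by
  obtain ⟨A, hA⟩ := Normal_trivial.normal_trivial
  have hmem : ∀ (a : Fin 4) (x : LinearMap.range lamL),
      A a x ∈ St.normalFibre t0 (LinearMap.range lamL) (x : Fin 10 ⊕ Fin 10 → ℂ) := by
    intro a x
    by_cases hx : x = 0
    · rw [hx, map_zero]
      exact Submodule.zero_mem _
    · have h := (hA x hx).2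
      show A a x ∈ (tangent t0 (x : Fin 10 ⊕ Fin 10 → ℂ)).map (LinearMap.range lamL).mkQ
      rw [← h]
      exact Submodule.subset_span ⟨a, rfl⟩
  exact ⟨fun a => ⟨A a, hmem a⟩, fun x hx => ⟨(hA x hx).1, (hA x hx).2⟩⟩

theorem main : St.IsFanoPicOne t0 6 where
  ne_zero := T0_ne.t0_ne
  functionField := T0_gen.t0_gen
  dim := by simpa using Trdeg_KK.trdeg_KK
  smooth := Smooth_t0.smooth_t0
  pic := pic'
  fano := fano'

end Pool.Agent.Helper142.Lp.Final
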