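import Mathlib
import Pool.Agent.Helper142.Lp.Defs2
import Pool.Agent.Helper142.Lp.TT_comb
import Pool.Agent.Helper142.Lp.TT_conj
import Pool.Agent.Helper142.Lp.T0_vals
import Pool.Agent.Helper142.Lp.T0_ne
import Pool.Agent.Helper142.Lp.ChartData_inl
import Pool.Agent.Helper142.Lp.ChartData_swap
import Pool.Agent.Helper142.Lp.Aeval_Pp_inl
import Pool.Agent.Helper142.Lp.Aeval_Pp_inr

/-! Helper lemma link_chart for MP_b7b3c1_ag. -/

set_option linter.all false

namespace Pool.Agent.Helper142.Lp.Link_chart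

open MvPolynomial Pool.Agent.Helper142.Lp
open Pool.Agent.Helper142.Lp.TT_comb Pool.Agent.Helper142.Lp.TT_conj Pool.Agent.Helper142.Lp.T0_vals Pool.Agent.Helper142.Lp.T0_ne Pool.Agent.Helper142.Lp.ChartData_inl Pool.Agent.Helper142.Lp.ChartData_swap Pool.Agent.Helper142.Lp.Aeval_Pp_inl Pool.Agent.Helper142.Lp.Aeval_Pp_inr

section j19320

variable {K : Type} [Field K]

/-- coordinates in a general field -/
def j19320_z (a : Fin 6 → K) : Fin 6 → K :=
  ![- a 0 + a 1 ^ 2 / a 2, - a 1 / a 2, 1 / a 2,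
    (a 2 * a 3 - a 1 * a 4)
      - a 1 / a 2 * (a 1 ^ 2 + a 4 * a 2 - a 0 * a 2 - a 1 * a 5),
    - a 0 + a 1 ^ 2 / a 2 + a 4 - a 1 / a 2 * a 5,
    - a 1 / a 2 + a 5 / a 2]

/-- the exchange matrix -/
def j19320_g (R : Type) [CommRing R] : Matrix (Fin 3) (Fin 3) R := !![0, 1, 0; 1, 0, 0; 0, 0, 1]

/-- first coefficient vector -/
def j19320_x (a : Fin 6 → K) : Fin 3 → K := ![-a 0 + a 1 ^ 2 / a 2, 1, -a 1 / a 2]

/-- second coefficient vector -/
def j19320_y (a : Fin 6 → K) : Fin 3 → K := ![-a 1 / a 2, 0, 1 / a 2]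

theorem j19320_conj {R : Type} [CommRing R] (M : Matrix (Fin 3) (Fin 3) R) :
    j19320_g R * M * j19320_g R =
      !![M 1 1, M 1 0, M 1 2; M 0 1, M 0 0, M 0 2; M 2 1, M 2 0, M 2 2] := by
  ext i j
  fin_cases i <;> fin_cases j <;>
    simp [j19320_g, Matrix.mul_apply, Fin.sum_univ_three, Matrix.vecMul, dotProduct]

theorem j19320_gg (R : Type) [CommRing R] : j19320_g R * j19320_g R = 1 := by
  have := j19320_conj (1 : Matrix (Fin 3) (Fin 3) R)
  rw [mul_one] at this
  rw [this]
  ext i j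
  fin_cases i <;> fin_cases j <;> simp

theorem j19320_det (R : Type) [CommRing R] : (j19320_g R).det = -1 := by
  rw [Matrix.det_fin_three]
  simp [j19320_g]

theorem j19320_tr (R : Type) [CommRing R] : (j19320_g R).transpose = j19320_g R := by
  ext i j
  fin_cases i <;> fin_cases j <;> simp [j19320_g]

theorem j19320_NA (a : Fin 6 → K) (h : a 2 ≠ 0) :
    j19320_g K * (j19320_x a 0 • (1 : Matrix (Fin 3) (Fin 3) K) + j19320_x a 1 • (NA a).transpose
      + j19320_x a 2 • (NB a).transpose) * j19320_g K = NA (j19320_z a) := by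
  rw [j19320_conj]
  ext i j
  fin_cases i <;> fin_cases j <;>
    simp [j19320_x, j19320_z, NA, NB] <;> (try field_simp) <;> (try ring)

theorem j19320_NB (a : Fin 6 → K) (h : a 2 ≠ 0) :
    j19320_g K * (j19320_y a 0 • (1 : Matrix (Fin 3) (Fin 3) K) + j19320_y a 1 • (NA a).transpose
      + j19320_y a 2 • (NB a).transpose) * j19320_g K = NB (j19320_z a) := by
  rw [j19320_conj]
  ext i j
  fin_cases i <;> fin_cases j <;>
    simp [j19320_y, j19320_z, NA, NB] <;> (try field_simp) <;> (try ring)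

theorem j19320_NAt (a : Fin 6 → K) (h : a 2 ≠ 0) :
    j19320_g K * (j19320_x a 0 • (1 : Matrix (Fin 3) (Fin 3) K) + j19320_x a 1 • NA a
      + j19320_x a 2 • NB a) * j19320_g K = (NA (j19320_z a)).transpose := by
  rw [← j19320_NA a h, Matrix.transpose_mul, Matrix.transpose_mul, j19320_tr, ← mul_assoc,
    Matrix.transpose_add, Matrix.transpose_add, Matrix.transpose_smul, Matrix.transpose_smul,
    Matrix.transpose_smul, Matrix.transpose_one, Matrix.transpose_transpose,
    Matrix.transpose_transpose]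

theorem j19320_NBt (a : Fin 6 → K) (h : a 2 ≠ 0) :
    j19320_g K * (j19320_y a 0 • (1 : Matrix (Fin 3) (Fin 3) K) + j19320_y a 1 • NA a
      + j19320_y a 2 • NB a) * j19320_g K = (NB (j19320_z a)).transpose := by
  rw [← j19320_NB a h, Matrix.transpose_mul, Matrix.transpose_mul, j19320_tr, ← mul_assoc,
    Matrix.transpose_add, Matrix.transpose_add, Matrix.transpose_smul, Matrix.transpose_smul,
    Matrix.transpose_smul, Matrix.transpose_one, Matrix.transpose_transpose,
    Matrix.transpose_transpose]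

theorem j19320_TT (a : Fin 6 → K) (h : a 2 ≠ 0) (w : Fin 3 → K) :
    TT (NA a).transpose (NB a).transpose w =
      (- a 2) * TT (NA (j19320_z a)) (NB (j19320_z a)) ((j19320_g K).mulVec w) := by
  rw [← j19320_NA a h, ← j19320_NB a h, TT_conj _ _ _ _ (j19320_gg K), TT_comb, j19320_det]
  simp [j19320_x, j19320_y]
  field_simp

theorem j19320_TTt (a : Fin 6 → K) (h : a 2 ≠ 0) (w : Fin 3 → K) :
    TT (NA a) (NB a) w =
      (- a 2) * TT (NA (j19320_z a)).transpose (NB (j19320_z a)).transpose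
        ((j19320_g K).mulVec w) := by
  rw [← j19320_NAt a h, ← j19320_NBt a h, TT_conj _ _ _ _ (j19320_gg K), TT_comb, j19320_det]
  simp [j19320_x, j19320_y]
  field_simp

end j19320

theorem j19320_map : (j19320_g ℂ).map (algebraMap ℂ KK) = j19320_g KK := by
  ext i j
  fin_cases i <;> fin_cases j <;> simp [j19320_g]

/-- the ratios are values of the polynomials -/
theorem j19320_ratio (a : Fin 10 ⊕ Fin 10) :
    t0 a.swap = t0 (Sum.inr 1) * aeval zlink (Pp (j19320_g ℂ) (j19320_g ℂ) a) := by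
  have h2 : yy 2 ≠ 0 := by
    have h := t0_ne (Sum.inr 1)
    rw [t0_vals.2] at h
    exact neg_ne_zero.1 h
  have hz : zlink = j19320_z yy := rfl
  rw [t0_vals.2]
  rcases a with j | j
  · rw [aeval_Pp_inl, j19320_map, hz]
    exact j19320_TT yy h2 (vec j)
  · rw [aeval_Pp_inr, j19320_map, hz, j19320_det, j19320_tr]
    have h3 := j19320_TTt yy h2 (vec j)
    simp only [Sum.swap_inr]
    norm_num
    have h4 : t0 (Sum.inl j) = TT (NA yy) (NB yy) (vec j) := rfl
    rw [h4, h3]
    ring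

/-- TARGET: prove this. -/
theorem link_chart : chart t0 (Sum.inr 1) = Algebra.adjoin ℂ (Set.range zlink) := by
  obtain ⟨c, hc⟩ := chartData_inl (j19320_g ℂ) (j19320_g ℂ) (j19320_gg ℂ) 1 (by
    funext i
    fin_cases i <;> simp [j19320_g, vec, vecs, Matrix.mulVec, dotProduct, Fin.sum_univ_three])
  have hne := t0_ne (Sum.inr 1)
  have hr : ∀ a : Fin 10 ⊕ Fin 10, t0 a.swap / t0 (Sum.inr 1) =
      aeval zlink (Pp (j19320_g ℂ) (j19320_g ℂ) a) := by
    intro a
    rw [j19320_ratio a, mul_div_cancel_left₀ _ hne]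
  apply le_antisymm
  · refine Algebra.adjoin_le ?_
    rintro _ ⟨j, rfl⟩
    have h1 := hr j.swap
    rw [Sum.swap_swap] at h1
    show t0 j / t0 (Sum.inr 1) ∈ _
    rw [h1, Algebra.adjoin_range_eq_range_aeval]
    exact ⟨_, rfl⟩
  · refine Algebra.adjoin_le ?_
    rintro _ ⟨k, rfl⟩
    rw [hc.2 KK zlink k]
    refine Subalgebra.sum_mem _ fun a _ => ?_
    refine Subalgebra.mul_mem _ (Subalgebra.algebraMap_mem _ _) ?_
    rw [← hr a]
    exact Algebra.subset_adjoin ⟨a.swap, rfl⟩

end Pool.Agent.Helper142.Lp.Link_chart
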